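import Mathlib

set_option autoImplicit false

/-! # Coset representatives for integral matrices -/

namespace Gouvea.PS.RepA

open Matrix CongruenceSubgroup
open scoped MatrixGroups

/-- integral two by two matrices -/
abbrev Mat := Matrix (Fin 2) (Fin 2) ℤ

/-- matrices of determinant `l`, lower left entry divisible by `M`, upper left entry prime
to `M` -/
def Dl (l M : ℤ) : Set Mat := {A | A.det = l ∧ M ∣ A 1 0 ∧ IsCoprime (A 0 0) M}

/-- `A` is a complete system of representatives for left cosets of `Γ` in `S` -/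
def Cpl {ι : Type*} (Γ : Subgroup SL(2, ℤ)) (S : Set Mat) (A : ι → Mat) : Prop :=
  (∀ i, A i ∈ S) ∧ ∀ B ∈ S, ∃! i, ∃ γ ∈ Γ, B = (γ : Mat) * A i

theorem Cpl.equiv {ι κ : Type*} {Γ : Subgroup SL(2, ℤ)} {S : Set Mat} {A : ι → Mat}
    {B : κ → Mat} (hA : Cpl Γ S A) (hB : Cpl Γ S B) :
    ∃ e : κ ≃ ι, ∀ k, ∃ γ ∈ Γ, B k = (γ : Mat) * A (e k) := by
  classical
  choose f hf hfu using fun k => hA.2 (B k) (hB.1 k)
  choose g hg hgu using fun i => hB.2 (A i) (hA.1 i)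
  refine ⟨⟨f, g, ?_, ?_⟩, hf⟩
  · intro k
    obtain ⟨γ, hγ, h⟩ := hf k
    obtain ⟨δ, hδ, h'⟩ := hg (f k)
    obtain ⟨j, -, hj⟩ := hB.2 (B k) (hB.1 k)
    have e1 : B k = ((γ * δ : SL(2, ℤ)) : Mat) * B (g (f k)) := by
      rw [Matrix.SpecialLinearGroup.coe_mul, Matrix.mul_assoc, ← h', ← h]
    exact (hj (g (f k)) ⟨γ * δ, Γ.mul_mem hγ hδ, e1⟩).trans
      (hj k ⟨1, Γ.one_mem, by simp⟩).symm
  · intro i
    obtain ⟨γ, hγ, h⟩ := hg i
    obtain ⟨δ, hδ, h'⟩ := hf (g i)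
    obtain ⟨j, -, hj⟩ := hA.2 (A i) (hA.1 i)
    have e1 : A i = ((γ * δ : SL(2, ℤ)) : Mat) * A (f (g i)) := by
      rw [Matrix.SpecialLinearGroup.coe_mul, Matrix.mul_assoc, ← h', ← h]
    exact (hj (f (g i)) ⟨γ * δ, Γ.mul_mem hγ hδ, e1⟩).trans
      (hj i ⟨1, Γ.one_mem, by simp⟩).symm

theorem mem_Gamma0_iff (M : ℕ) (g : SL(2, ℤ)) : g ∈ Gamma0 M ↔ (M : ℤ) ∣ g 1 0 := by
  rw [Gamma0_mem]
  exact ZMod.intCast_zmod_eq_zero_iff_dvd (g 1 0) M

theorem det_eq (g : SL(2, ℤ)) : g 0 0 * g 1 1 - g 0 1 * g 1 0 = 1 := by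
  have := g.2
  rwa [Matrix.det_fin_two] at this

theorem coprime_of_mem {M : ℕ} {g : SL(2, ℤ)} (hg : g ∈ Gamma0 M) :
    IsCoprime (g 0 0) (M : ℤ) := by
  rw [mem_Gamma0_iff] at hg
  obtain ⟨c, hc⟩ := hg
  refine ⟨g 1 1, -(g 0 1 * c), ?_⟩
  have := det_eq g
  rw [hc] at this
  linarith

theorem mul_mem_Dl {l : ℤ} {M : ℕ} {g : SL(2, ℤ)} (hg : g ∈ Gamma0 M) {A : Mat}
    (hA : A ∈ Dl l M) : (g : Mat) * A ∈ Dl l M := by
  obtain ⟨h1, h2, h3⟩ := hA
  have hg' := (mem_Gamma0_iff M g).1 hg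
  refine ⟨by rw [Matrix.det_mul, g.2, one_mul, h1], ?_, ?_⟩
  · simp only [Matrix.mul_apply, Fin.sum_univ_two]
    exact dvd_add (Dvd.dvd.mul_right hg' _) (Dvd.dvd.mul_left h2 _)
  · simp only [Matrix.mul_apply, Fin.sum_univ_two]
    obtain ⟨c, hc⟩ := h2
    rw [hc, mul_left_comm, mul_comm (M : ℤ)]
    exact IsCoprime.add_mul_right_left ((coprime_of_mem hg).mul_left h3) _

theorem mul_mem_Dl' {l : ℤ} {M : ℕ} {g : SL(2, ℤ)} (hg : g ∈ Gamma0 M) {A : Mat}
    (hA : A ∈ Dl l M) : A * (g : Mat) ∈ Dl l M := by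
  obtain ⟨h1, h2, h3⟩ := hA
  have hg' := (mem_Gamma0_iff M g).1 hg
  refine ⟨by rw [Matrix.det_mul, g.2, mul_one, h1], ?_, ?_⟩
  · simp only [Matrix.mul_apply, Fin.sum_univ_two]
    exact dvd_add (Dvd.dvd.mul_right h2 _) (Dvd.dvd.mul_left hg' _)
  · simp only [Matrix.mul_apply, Fin.sum_univ_two]
    obtain ⟨c, hc⟩ := hg'
    rw [hc, mul_left_comm, mul_comm (M : ℤ)]
    exact IsCoprime.add_mul_right_left (h3.mul_left (coprime_of_mem hg)) _

/-- the matrix `(1 b; 0 l)` -/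
def up (l b : ℤ) : Mat := !![1, b; 0, l]

/-- the matrix `(l 0; 0 1)` -/
def dn (l : ℤ) : Mat := !![l, 0; 0, 1]

theorem up_mem (l b : ℤ) (M : ℤ) : up l b ∈ Dl l M := by
  refine ⟨by simp [up, Matrix.det_fin_two], by simp [up], ?_⟩
  have : up l b 0 0 = 1 := by simp [up]
  rw [this]
  exact isCoprime_one_left

theorem dn_mem {l M : ℤ} (h : IsCoprime l M) : dn l ∈ Dl l M := by
  refine ⟨by simp [dn, Matrix.det_fin_two], by simp [dn], ?_⟩
  have : dn l 0 0 = l := by simp [dn]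
  rw [this]
  exact h

/-- a column with coprime entries extends to `SL(2, ℤ)` -/
theorem exists_col {a c : ℤ} (h : IsCoprime a c) : ∃ g : SL(2, ℤ), g 0 0 = a ∧ g 1 0 = c := by
  obtain ⟨u, v, huv⟩ := h
  refine ⟨⟨!![a, -v; c, u], ?_⟩, by simp, by simp⟩
  rw [Matrix.det_fin_two]
  simp
  linarith

/-- existence of a triangular representative -/
theorem exists_up {l : ℤ} {M : ℕ} {B : Mat} (hB : B ∈ Dl l M) (h : IsCoprime (B 0 0) (B 1 0)) :
    ∃ g ∈ Gamma0 M, ∃ e : ℤ, B = (g : Mat) * up l e := by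
  obtain ⟨g, h0, h1⟩ := exists_col h
  obtain ⟨hd, hM, -⟩ := hB
  have hg := det_eq g
  rw [Matrix.det_fin_two] at hd
  rw [h0, h1] at hg
  refine ⟨g, (mem_Gamma0_iff M g).2 (h1 ▸ hM), g 1 1 * B 0 1 - g 0 1 * B 1 1, ?_⟩
  ext i j
  fin_cases i <;> fin_cases j
  · simp [up, Matrix.mul_apply, Fin.sum_univ_two, h0]
  · simp [up, Matrix.mul_apply, Fin.sum_univ_two, h0]
    linear_combination (-B 0 1) * hg + g 0 1 * hd
  · simp [up, Matrix.mul_apply, Fin.sum_univ_two, h1]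
  · simp [up, Matrix.mul_apply, Fin.sum_univ_two, h1]
    linear_combination (-B 1 1) * hg + g 1 1 * hd

/-- translation -/
def tq (q : ℤ) : SL(2, ℤ) := ⟨!![1, q; 0, 1], by simp [Matrix.det_fin_two]⟩

theorem tq_mem (q : ℤ) (M : ℕ) : tq q ∈ Gamma0 M := by
  rw [mem_Gamma0_iff]; simp [tq]

theorem tq_mul_up (q l b : ℤ) : (tq q : Mat) * up l b = up l (b + q * l) := by
  ext i j
  fin_cases i <;> fin_cases j <;> simp [up, tq, Matrix.mul_apply, Fin.sum_univ_two]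

/-- left multiples of triangular matrices -/
theorem up_eq_mul_up {l b b' : ℤ} {g : SL(2, ℤ)} (h : up l b = (g : Mat) * up l b') :
    l ∣ b - b' := by
  have h00 := congrFun (congrFun h 0) 0
  have h01 := congrFun (congrFun h 0) 1
  have h10 := congrFun (congrFun h 1) 0
  have h11 := congrFun (congrFun h 1) 1
  simp [up, Matrix.mul_apply, Fin.sum_univ_two] at h00 h01 h10 h11
  refine ⟨g 0 1, ?_⟩
  rw [← h00] at h01
  linarith

theorem up_ne_mul_dn {l b : ℤ} (hl : ¬ IsUnit l) {g : SL(2, ℤ)} : up l b ≠ (g : Mat) * dn l := by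
  intro h
  have h00 := congrFun (congrFun h 0) 0
  simp [up, dn, Matrix.mul_apply, Fin.sum_univ_two] at h00
  exact hl (isUnit_of_dvd_one ⟨g 0 0, by linarith⟩)

theorem dn_ne_mul_up {l b : ℤ} (hl : ¬ IsUnit l) {g : SL(2, ℤ)} : dn l ≠ (g : Mat) * up l b := by
  intro h
  have h00 := congrFun (congrFun h 0) 0
  have h10 := congrFun (congrFun h 1) 0
  simp [up, dn, Matrix.mul_apply, Fin.sum_univ_two] at h00 h10
  have := det_eq g
  rw [← h00, ← h10] at this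
  exact hl (isUnit_of_dvd_one ⟨g 1 1, by linarith⟩)

/-- representatives: primes dividing the level -/
theorem cpl_up {l : ℕ} (hl : l.Prime) {M : ℕ} (hlM : l ∣ M) :
    Cpl (Gamma0 M) (Dl l M) (fun b : Fin l => up l (b : ℕ)) := by
  refine ⟨fun b => up_mem _ _ _, fun B hB => ?_⟩
  have hl0 : (l : ℤ) ≠ 0 := by exact_mod_cast hl.ne_zero
  have hlp : (0 : ℤ) < l := by exact_mod_cast hl.pos
  have hco : IsCoprime (B 0 0) (B 1 0) := by
    have hd := hB.1
    rw [Matrix.det_fin_two] at hd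
    have h1 : IsCoprime (B 0 0) (l : ℤ) :=
      IsCoprime.of_isCoprime_of_dvd_right hB.2.2 (by exact_mod_cast hlM)
    obtain ⟨u, v, huv⟩ := h1
    refine ⟨u + v * B 1 1, -(v * B 0 1), ?_⟩
    rw [← hd] at huv
    linarith
  obtain ⟨g, hg, e, he⟩ := exists_up hB hco
  have hlt : (e % l).toNat < l := by
    have h1 := Int.emod_nonneg e hl0
    have h2 := Int.emod_lt_of_pos e hlp
    omega
  have hcast : (((e % l).toNat : ℕ) : ℤ) = e % l := Int.toNat_of_nonneg (Int.emod_nonneg e hl0)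
  refine ⟨⟨(e % l).toNat, hlt⟩, ⟨g * tq (e / l), (Gamma0 M).mul_mem hg (tq_mem _ M), ?_⟩, ?_⟩
  · rw [he, Matrix.SpecialLinearGroup.coe_mul, Matrix.mul_assoc, tq_mul_up]
    congr 2
    simp only [hcast]
    have := Int.emod_add_mul_ediv e l
    linarith
  · rintro b ⟨γ, hγ, h⟩
    rw [he] at h
    have h1 : up l e = ((g⁻¹ * γ : SL(2, ℤ)) : Mat) * up l (b : ℕ) := by
      rw [Matrix.SpecialLinearGroup.coe_mul, Matrix.mul_assoc, ← h, ← Matrix.mul_assoc,
        ← Matrix.SpecialLinearGroup.coe_mul, inv_mul_cancel, Matrix.SpecialLinearGroup.coe_one,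
        Matrix.one_mul]
    have h2 := up_eq_mul_up h1
    apply Fin.ext
    have h3 : ((b : ℕ) : ℤ) = e % l := by
      have h4 : (e % l) = ((b : ℕ) : ℤ) % l :=
        Int.emod_eq_emod_iff_emod_sub_eq_zero.2 (Int.emod_eq_zero_of_dvd h2)
      rw [h4, Int.emod_eq_of_lt (by positivity) (by exact_mod_cast b.2)]
    simp only
    omega

/-- the remainder as an element of `Fin l` -/
theorem exists_fin {l : ℕ} (hl : 0 < l) (e : ℤ) : ∃ b : Fin l, (l : ℤ) ∣ e - (b : ℕ) := by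
  have hl0 : (l : ℤ) ≠ 0 := by exact_mod_cast hl.ne'
  have hlp : (0 : ℤ) < l := by exact_mod_cast hl
  have h1 := Int.emod_nonneg e hl0
  have h2 := Int.emod_lt_of_pos e hlp
  refine ⟨⟨(e % l).toNat, by omega⟩, ?_⟩
  have hcast : (((e % l).toNat : ℕ) : ℤ) = e % l := Int.toNat_of_nonneg h1
  simp only [hcast]
  exact ⟨e / l, by have := Int.emod_add_mul_ediv e l; linarith⟩

theorem fin_unique {l : ℕ} {b b' : Fin l} (h : (l : ℤ) ∣ ((b : ℕ) : ℤ) - ((b' : ℕ) : ℤ)) :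
    b = b' := by
  apply Fin.ext
  have h1 := b.2
  have h2 := b'.2
  have h3 : |((b : ℕ) : ℤ) - ((b' : ℕ) : ℤ)| < l := by
    rw [abs_lt]
    constructor <;> omega
  have h4 := Int.eq_zero_of_abs_lt_dvd h h3
  omega

/-- the triangular representatives, primes not dividing the level -/
def tri (l : ℕ) : Option (Fin l) → Mat
  | none => dn l
  | some b => up l (b : ℕ)

theorem cpl_tri {l : ℕ} (hl : l.Prime) {M : ℕ} (hlM : ¬ l ∣ M) :
    Cpl (Gamma0 M) (Dl l M) (tri l) := by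
  have hlu : ¬ IsUnit (l : ℤ) := by
    rw [Int.isUnit_iff]
    have := hl.two_le
    omega
  have hco : IsCoprime (l : ℤ) (M : ℤ) := by
    rw [Nat.isCoprime_iff_coprime]
    exact (Nat.Prime.coprime_iff_not_dvd hl).2 hlM
  have hpi : Prime (l : ℤ) := Nat.prime_iff_prime_int.1 hl
  refine ⟨?_, fun B hB => ?_⟩
  · rintro (_ | b)
    · exact dn_mem hco
    · exact up_mem _ _ _
  by_cases hc : (l : ℤ) ∣ B 0 0 ∧ (l : ℤ) ∣ B 1 0
  · obtain ⟨⟨a, ha⟩, ⟨c, hc⟩⟩ := hc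
    have hd := hB.1
    rw [Matrix.det_fin_two, ha, hc] at hd
    have hd' : a * B 1 1 - B 0 1 * c = 1 := by
      have h1 : (l : ℤ) * (a * B 1 1 - B 0 1 * c) = l * 1 := by linarith
      exact mul_left_cancel₀ hpi.ne_zero h1
    have hMc : (M : ℤ) ∣ c := by
      have := hB.2.1
      rw [hc] at this
      exact hco.symm.dvd_of_dvd_mul_left this
    let g : SL(2, ℤ) := ⟨!![a, B 0 1; c, B 1 1], by rw [Matrix.det_fin_two]; simpa using hd'⟩
    have hg : g ∈ Gamma0 M := by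
      rw [mem_Gamma0_iff]
      simpa [g] using hMc
    have hBg : B = (g : Mat) * dn l := by
      ext i j
      fin_cases i <;> fin_cases j <;>
        simp [g, dn, Matrix.mul_apply, Fin.sum_univ_two, ha, hc, mul_comm]
    refine ⟨none, ⟨g, hg, hBg⟩, ?_⟩
    rintro (_ | b) ⟨γ, hγ, h⟩
    · rfl
    · exfalso
      rw [hBg] at h
      have h1 : dn l = ((g⁻¹ * γ : SL(2, ℤ)) : Mat) * up l (b : ℕ) := by
        rw [Matrix.SpecialLinearGroup.coe_mul, Matrix.mul_assoc]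
        change _ = _ * ((γ : Mat) * tri l (some b))
        rw [← h, ← Matrix.mul_assoc, ← Matrix.SpecialLinearGroup.coe_mul, inv_mul_cancel,
          Matrix.SpecialLinearGroup.coe_one, Matrix.one_mul]
      exact dn_ne_mul_up hlu h1
  · have hco2 : IsCoprime (B 0 0) (B 1 0) := by
      have hd := hB.1
      rw [Matrix.det_fin_two] at hd
      rw [Int.isCoprime_iff_gcd_eq_one]
      by_contra hne
      have hg1 : (Int.gcd (B 0 0) (B 1 0) : ℤ) ∣ l := by
        rw [← hd]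
        exact dvd_sub (Dvd.dvd.mul_right (Int.gcd_dvd_left _ _) _)
          (Dvd.dvd.mul_left (Int.gcd_dvd_right _ _) _)
      have hg2 : Int.gcd (B 0 0) (B 1 0) ∣ l := by exact_mod_cast hg1
      rcases (Nat.dvd_prime hl).1 hg2 with h | h
      · exact hne h
      · exact hc ⟨h ▸ Int.gcd_dvd_left _ _, h ▸ Int.gcd_dvd_right _ _⟩
    obtain ⟨g, hg, e, he⟩ := exists_up hB hco2
    obtain ⟨b0, k, hk⟩ := exists_fin hl.pos e
    refine ⟨some b0, ⟨g * tq k, (Gamma0 M).mul_mem hg (tq_mem _ M), ?_⟩, ?_⟩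
    · rw [he, Matrix.SpecialLinearGroup.coe_mul, Matrix.mul_assoc]
      change _ = _ * (_ * up l (b0 : ℕ))
      rw [tq_mul_up]
      congr 2
      linarith
    · rintro (_ | b) ⟨γ, hγ, h⟩
      · exfalso
        rw [he] at h
        have h1 : up l e = ((g⁻¹ * γ : SL(2, ℤ)) : Mat) * dn l := by
          rw [Matrix.SpecialLinearGroup.coe_mul, Matrix.mul_assoc]
          change _ = _ * ((γ : Mat) * tri l none)
          rw [← h, ← Matrix.mul_assoc, ← Matrix.SpecialLinearGroup.coe_mul, inv_mul_cancel,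
            Matrix.SpecialLinearGroup.coe_one, Matrix.one_mul]
        exact up_ne_mul_dn hlu h1
      · rw [he] at h
        have h1 : up l e = ((g⁻¹ * γ : SL(2, ℤ)) : Mat) * up l (b : ℕ) := by
          rw [Matrix.SpecialLinearGroup.coe_mul, Matrix.mul_assoc]
          change _ = _ * ((γ : Mat) * tri l (some b))
          rw [← h, ← Matrix.mul_assoc, ← Matrix.SpecialLinearGroup.coe_mul, inv_mul_cancel,
            Matrix.SpecialLinearGroup.coe_one, Matrix.one_mul]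
        have h2 := up_eq_mul_up h1
        congr 1
        apply fin_unique (l := l)
        have : ((b : ℕ) : ℤ) - ((b0 : ℕ) : ℤ) = (e - (b0 : ℕ)) - (e - (b : ℕ)) := by ring
        rw [this]
        exact dvd_sub ⟨k, hk⟩ h2

/-! ### Transversals at a prime `p` not dividing the level -/

/-- integral matrices of determinant prime to `p` and bottom row `(c, d)`: the conditions below
say that `B * k⁻¹` has lower left entry divisible by `p` -/
theorem exists_xy {p M : ℕ} (hp : p.Prime) (hpM : ¬ p ∣ M) :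
    ∃ x y : ℤ, (p : ℤ) * x - M * y = 1 := by
  have hco : IsCoprime (p : ℤ) (M : ℤ) := by
    rw [Nat.isCoprime_iff_coprime]
    exact (Nat.Prime.coprime_iff_not_dvd hp).2 hpM
  obtain ⟨u, v, h⟩ := hco
  exact ⟨u, -v, by linarith⟩

/-- data: a prime, a level prime to it, and a Bezout relation -/
structure BZ (p M : ℕ) where
  hp : p.Prime
  hpM : ¬ p ∣ M
  x : ℤ
  y : ℤ
  hxy : (p : ℤ) * x - M * y = 1

variable {p M : ℕ}

/-- the matrix `(x + 0, y; M, p)` times a translation -/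
def BZ.k (z : BZ p M) : Option (Fin p) → SL(2, ℤ)
  | none => 1
  | some j => ⟨!![z.x, z.y + z.x * (j : ℕ); M, p + M * (j : ℕ)], by
      rw [Matrix.det_fin_two]
      simp
      linarith [z.hxy]⟩

/-- the transversal for upper right entries -/
def BZ.k' (z : BZ p M) : Option (Fin p) → SL(2, ℤ)
  | none => 1
  | some j => ⟨!![p + z.y * (M * (j : ℕ)), z.y; M + z.x * (M * (j : ℕ)), z.x], by
      rw [Matrix.det_fin_two]
      simp
      linarith [z.hxy]⟩

theorem BZ.k_mem (z : BZ p M) (i : Option (Fin p)) : z.k i ∈ Gamma0 M := by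
  rw [mem_Gamma0_iff]
  rcases i with _ | j
  · simp [BZ.k]
  · simp [BZ.k]

theorem BZ.k'_mem (z : BZ p M) (i : Option (Fin p)) : z.k' i ∈ Gamma0 M := by
  rw [mem_Gamma0_iff]
  rcases i with _ | j
  · simp [BZ.k']
  · simp only [BZ.k', Matrix.of_apply, Matrix.cons_val', Matrix.cons_val_zero,
      Matrix.cons_val_one, Matrix.cons_val_fin_one]
    exact ⟨1 + z.x * (j : ℕ), by ring⟩

theorem inv_entries (g : SL(2, ℤ)) : (g⁻¹) 0 0 = g 1 1 ∧ (g⁻¹) 0 1 = - g 0 1 ∧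
    (g⁻¹) 1 0 = - g 1 0 ∧ (g⁻¹) 1 1 = g 0 0 := by
  refine ⟨?_, ?_, ?_, ?_⟩ <;>
    simp [Matrix.SpecialLinearGroup.coe_inv, Matrix.adjugate_fin_two]

/-- every matrix of determinant prime to `p` has bottom row in exactly one class -/
theorem BZ.bottom (z : BZ p M) (B : Mat) (hB : ¬ (p : ℤ) ∣ B.det) :
    ∃! i, (p : ℤ) ∣ (B * ((z.k i)⁻¹ : SL(2, ℤ)) : Mat) 1 0 := by
  have hpi : Prime (p : ℤ) := Nat.prime_iff_prime_int.1 z.hp
  have hM : ¬ (p : ℤ) ∣ (M : ℤ) := by exact_mod_cast z.hpM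
  rw [Matrix.det_fin_two] at hB
  have e0 : (B * ((z.k none)⁻¹ : SL(2, ℤ)) : Mat) 1 0 = B 1 0 := by
    simp [BZ.k]
  have e0' : (p : ℤ) ∣ (B * ((z.k none)⁻¹ : SL(2, ℤ)) : Mat) 1 0 ↔ (p : ℤ) ∣ B 1 0 := by
    rw [e0]
  have e1 : ∀ j : Fin p, (B * ((z.k (some j))⁻¹ : SL(2, ℤ)) : Mat) 1 0 =
      B 1 0 * (p + M * (j : ℕ)) - B 1 1 * M := by
    intro j
    obtain ⟨h1, -, h3, -⟩ := inv_entries (z.k (some j))
    rw [Matrix.mul_apply, Fin.sum_univ_two, h1, h3]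
    simp [BZ.k]
    ring
  have e2 : ∀ j : Fin p, (p : ℤ) ∣ (B * ((z.k (some j))⁻¹ : SL(2, ℤ)) : Mat) 1 0 ↔
      (p : ℤ) ∣ B 1 0 * (j : ℕ) - B 1 1 := by
    intro j
    rw [e1]
    constructor
    · intro h
      have h1 : (p : ℤ) ∣ M * (B 1 0 * (j : ℕ) - B 1 1) := by
        have h2 : (M : ℤ) * (B 1 0 * (j : ℕ) - B 1 1) =
            (B 1 0 * (p + M * (j : ℕ)) - B 1 1 * M) - p * B 1 0 := by ring
        rw [h2]
        exact dvd_sub h (dvd_mul_right _ _)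
      exact (hpi.dvd_or_dvd h1).resolve_left hM
    · intro h
      have h2 : (B 1 0 * (p + M * (j : ℕ)) - B 1 1 * M) =
          M * (B 1 0 * (j : ℕ) - B 1 1) + p * B 1 0 := by ring
      rw [h2]
      exact dvd_add (Dvd.dvd.mul_left h _) (dvd_mul_right _ _)
  by_cases hc : (p : ℤ) ∣ B 1 0
  · refine ⟨none, e0'.2 hc, ?_⟩
    rintro (_ | j) h
    · rfl
    · exfalso
      replace h := (e2 j).1 h
      have h1 : (p : ℤ) ∣ B 1 1 := by
        have : B 1 1 = B 1 0 * (j : ℕ) - (B 1 0 * (j : ℕ) - B 1 1) := by ring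
        rw [this]
        exact dvd_sub (Dvd.dvd.mul_right hc _) h
      exact hB (dvd_sub (Dvd.dvd.mul_left h1 _) (Dvd.dvd.mul_left hc _))
  · have hcc : IsCoprime (B 1 0) (p : ℤ) :=
      ((Prime.coprime_iff_not_dvd hpi).2 hc).symm
    obtain ⟨u, v, huv⟩ := hcc
    obtain ⟨j, hj⟩ := exists_fin z.hp.pos (u * B 1 1)
    refine ⟨some j, ?_, ?_⟩
    · refine (e2 j).2 ?_
      have h1 : B 1 0 * (j : ℕ) - B 1 1 =
          -(B 1 0 * (u * B 1 1 - (j : ℕ))) - p * (v * B 1 1) := by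
        linear_combination (B 1 1) * huv
      rw [h1]
      exact dvd_sub (Dvd.dvd.neg_right (Dvd.dvd.mul_left hj _)) (dvd_mul_right _ _)
    · rintro (_ | j') h
      · exact absurd (e0'.1 h) hc
      · replace h := (e2 j').1 h
        congr 1
        apply fin_unique
        have h2 : (p : ℤ) ∣ B 1 0 * (((j' : ℕ) : ℤ) - ((j : ℕ) : ℤ)) := by
          have h3 : (p : ℤ) ∣ B 1 0 * (j : ℕ) - B 1 1 := by
            have h1 : B 1 0 * (j : ℕ) - B 1 1 =
                -(B 1 0 * (u * B 1 1 - (j : ℕ))) - p * (v * B 1 1) := by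
              linear_combination (B 1 1) * huv
            rw [h1]
            exact dvd_sub (Dvd.dvd.neg_right (Dvd.dvd.mul_left hj _)) (dvd_mul_right _ _)
          have h4 : B 1 0 * (((j' : ℕ) : ℤ) - ((j : ℕ) : ℤ)) =
              (B 1 0 * (j' : ℕ) - B 1 1) - (B 1 0 * (j : ℕ) - B 1 1) := by ring
          rw [h4]
          exact dvd_sub h h3
        exact (hpi.dvd_or_dvd h2).resolve_left hc

/-- the same for upper right entries -/
theorem BZ.right (z : BZ p M) (B : Mat) (hB : ¬ (p : ℤ) ∣ B.det) :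
    ∃! i, (p : ℤ) ∣ (B * ((z.k' i)⁻¹ : SL(2, ℤ)) : Mat) 0 1 := by
  have hpi : Prime (p : ℤ) := Nat.prime_iff_prime_int.1 z.hp
  have hM : ¬ (p : ℤ) ∣ (M : ℤ) := by exact_mod_cast z.hpM
  have hy : ¬ (p : ℤ) ∣ z.y := by
    intro h
    have := z.hxy
    have h1 : (p : ℤ) ∣ 1 := by
      rw [← this]
      exact dvd_sub (dvd_mul_right _ _) (Dvd.dvd.mul_left h _)
    exact hpi.not_isUnit (isUnit_of_dvd_one h1)
  rw [Matrix.det_fin_two] at hB
  have e0 : (B * ((z.k' none)⁻¹ : SL(2, ℤ)) : Mat) 0 1 = B 0 1 := by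
    simp [BZ.k']
  have e0' : (p : ℤ) ∣ (B * ((z.k' none)⁻¹ : SL(2, ℤ)) : Mat) 0 1 ↔ (p : ℤ) ∣ B 0 1 := by
    rw [e0]
  have e1 : ∀ j : Fin p, (B * ((z.k' (some j))⁻¹ : SL(2, ℤ)) : Mat) 0 1 =
      -(B 0 0 * z.y) + B 0 1 * (p + z.y * (M * (j : ℕ))) := by
    intro j
    obtain ⟨-, h2, -, h4⟩ := inv_entries (z.k' (some j))
    rw [Matrix.mul_apply, Fin.sum_univ_two, h2, h4]
    simp [BZ.k']
  have e2 : ∀ j : Fin p, (p : ℤ) ∣ (B * ((z.k' (some j))⁻¹ : SL(2, ℤ)) : Mat) 0 1 ↔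
      (p : ℤ) ∣ (M * B 0 1) * (j : ℕ) - B 0 0 := by
    intro j
    rw [e1]
    constructor
    · intro h
      have h1 : (p : ℤ) ∣ z.y * ((M * B 0 1) * (j : ℕ) - B 0 0) := by
        have h2 : z.y * ((M * B 0 1) * (j : ℕ) - B 0 0) =
            (-(B 0 0 * z.y) + B 0 1 * (p + z.y * (M * (j : ℕ)))) - p * B 0 1 := by ring
        rw [h2]
        exact dvd_sub h (dvd_mul_right _ _)
      exact (hpi.dvd_or_dvd h1).resolve_left hy
    · intro h
      have h2 : (-(B 0 0 * z.y) + B 0 1 * (p + z.y * (M * (j : ℕ)))) =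
          z.y * ((M * B 0 1) * (j : ℕ) - B 0 0) + p * B 0 1 := by ring
      rw [h2]
      exact dvd_add (Dvd.dvd.mul_left h _) (dvd_mul_right _ _)
  by_cases hc : (p : ℤ) ∣ B 0 1
  · refine ⟨none, e0'.2 hc, ?_⟩
    rintro (_ | j) h
    · rfl
    · exfalso
      replace h := (e2 j).1 h
      have h1 : (p : ℤ) ∣ B 0 0 := by
        have : B 0 0 = (M * B 0 1) * (j : ℕ) - ((M * B 0 1) * (j : ℕ) - B 0 0) := by ring
        rw [this]
        exact dvd_sub (Dvd.dvd.mul_right (Dvd.dvd.mul_left hc _) _) h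
      exact hB (dvd_sub (Dvd.dvd.mul_right h1 _) (Dvd.dvd.mul_right hc _))
  · have hc' : ¬ (p : ℤ) ∣ M * B 0 1 := fun h => (hpi.dvd_or_dvd h).elim hM hc
    have hcc : IsCoprime (M * B 0 1) (p : ℤ) :=
      ((Prime.coprime_iff_not_dvd hpi).2 hc').symm
    obtain ⟨u, v, huv⟩ := hcc
    obtain ⟨j, hj⟩ := exists_fin z.hp.pos (u * B 0 0)
    have h3 : (p : ℤ) ∣ (M * B 0 1) * (j : ℕ) - B 0 0 := by
      have h1 : (M * B 0 1) * (j : ℕ) - B 0 0 =
          -((M * B 0 1) * (u * B 0 0 - (j : ℕ))) - p * (v * B 0 0) := by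
        linear_combination (B 0 0) * huv
      rw [h1]
      exact dvd_sub (Dvd.dvd.neg_right (Dvd.dvd.mul_left hj _)) (dvd_mul_right _ _)
    refine ⟨some j, ?_, ?_⟩
    · exact (e2 j).2 h3
    · rintro (_ | j') h
      · exact absurd (e0'.1 h) hc
      · replace h := (e2 j').1 h
        congr 1
        apply fin_unique
        have h2 : (p : ℤ) ∣ (M * B 0 1) * (((j' : ℕ) : ℤ) - ((j : ℕ) : ℤ)) := by
          have h4 : (M * B 0 1) * (((j' : ℕ) : ℤ) - ((j : ℕ) : ℤ)) =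
              ((M * B 0 1) * (j' : ℕ) - B 0 0) - ((M * B 0 1) * (j : ℕ) - B 0 0) := by ring
          rw [h4]
          exact dvd_sub h h3
        exact (hpi.dvd_or_dvd h2).resolve_left hc'

end Gouvea.PS.RepA
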