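import Pool.Agent.Work.MP_d3517d_nt.PS.Defs
import Pool.Agent.Work.MP_d3517d_nt.PS.RepA

set_option autoImplicit false
set_option linter.unusedVariables false

/-!
# Representatives of `Γ₀(M) \ Del M l` (source package)
-/

open Polynomial Finset Matrix

noncomputable section

namespace Gouvea.PS

open RepA CongruenceSubgroup
open scoped MatrixGroups

/-- The integral matrices of determinant `l`, `M ∣ c`, `(a, M) = 1`. -/
def Del (M l : ℕ) (g : S4) : Prop :=
  g.1.det = l ∧ (M : ℤ) ∣ g.1 1 0 ∧ IsCoprime (g.1 0 0) (M : ℤ)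

/-- index set and matrices of `T_l`, `U_l` -/
def Ix (M l : ℕ) : Type := Fin l ⊕ {_u : Unit // ¬ l ∣ M}

instance (M l : ℕ) : Fintype (Ix M l) := by
  classical
  unfold Ix
  infer_instance

def bet (M l : ℕ) : Ix M l → S4 := Sum.elim (fun b => upS 1 (b : ℕ) l) (fun _ => upS l 0 1)

variable {k : Type} [CommRing k]

theorem hecke_eq (M n l : ℕ) : hecke k M n l = ∑ i : Ix M l, act k n (bet M l i) := by
  classical
  have h1 : ∑ i : Ix M l, act k n (bet M l i) =
      ∑ b : Fin l, act k n (upS 1 (b : ℕ) l) +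
        ∑ _u : {_u : Unit // ¬ l ∣ M}, act k n (upS l 0 1) := by
    have h2 : ∑ i : Ix M l, act k n (bet M l i) =
        ∑ i : Fin l ⊕ {_u : Unit // ¬ l ∣ M}, act k n (bet M l i) :=
      Fintype.sum_equiv (Equiv.refl _) _ _ (fun _ => rfl)
    rw [h2]
    exact Fintype.sum_sum_type (fun i : Fin l ⊕ {_u : Unit // ¬ l ∣ M} =>
      act k n (bet M l i))
  rw [h1, hecke]
  congr 1
  · exact Finset.sum_range (fun b : ℕ => act k n (upS 1 (b : ℤ) l))
  · by_cases h : l ∣ M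
    · rw [if_pos h]
      have : IsEmpty {_u : Unit // ¬ l ∣ M} := ⟨fun u => u.2 h⟩
      simp
    · rw [if_neg h]
      have : Unique {_u : Unit // ¬ l ∣ M} := ⟨⟨⟨(), h⟩⟩, fun u => rfl⟩
      rw [Fintype.sum_unique]

theorem odd_prime_rep {M l : ℕ} (hl : l.Prime) (hM : 4 ∣ M) (h : ¬ l ∣ M) : Odd (l : ℤ) := by
  have h2 : l ≠ 2 := by
    rintro rfl
    exact h ((by norm_num : 2 ∣ 4).trans hM)
  have := hl.odd_of_ne_two h2
  exact_mod_cast this

theorem bet_inl {M l : ℕ} (hl : l.Prime) (b : Fin l) :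
    (bet M l (Sum.inl b)).1 = up l (b : ℕ) := by
  have hl0 : (l : ℤ) ≠ 0 := by exact_mod_cast hl.ne_zero
  exact upS_coe odd_one hl0

theorem bet_inr {M l : ℕ} (hl : l.Prime) (hM : 4 ∣ M) (u : {_u : Unit // ¬ l ∣ M}) :
    (bet M l (Sum.inr u)).1 = dn l :=
  upS_coe (odd_prime_rep hl hM u.2) one_ne_zero

theorem del_iff {M l : ℕ} {g : S4} : Del M l g ↔ g.1 ∈ Dl l M := Iff.rfl

theorem del_bet {M l : ℕ} (hl : l.Prime) (hM : 4 ∣ M) (i : Ix M l) : Del M l (bet M l i) := by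
  rcases i with b | u
  · rw [del_iff, bet_inl hl]
    exact up_mem _ _ _
  · rw [del_iff, bet_inr hl hM]
    refine dn_mem ?_
    rw [Nat.isCoprime_iff_coprime]
    exact (Nat.Prime.coprime_iff_not_dvd hl).2 u.2

/-- elements of `Γ₀(M)` as elements of `S4` -/
def ofG0 {M : ℕ} (hM : 4 ∣ M) (γ : SL(2, ℤ)) (hγ : γ ∈ Gamma0 M) : S4 :=
  ⟨(γ : Matrix (Fin 2) (Fin 2) ℤ), by
    have h1 := (mem_Gamma0_iff M γ).1 hγ
    have h4 : (4 : ℤ) ∣ γ 1 0 := dvd_trans (by exact_mod_cast hM) h1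
    refine ⟨by rw [γ.2]; exact one_ne_zero, ?_, h4⟩
    have h2 := det_eq γ
    obtain ⟨c, hc⟩ := h4
    rw [hc] at h2
    rcases Int.even_or_odd' (γ 0 0) with ⟨m, hm | hm⟩
    · exfalso
      rw [hm] at h2
      have : (2 : ℤ) ∣ 1 := ⟨m * γ 1 1 - γ 0 1 * (2 * c), by linarith⟩
      norm_num at this
    · exact ⟨m, hm⟩⟩

theorem isG0_ofG0 {M : ℕ} (hM : 4 ∣ M) (γ : SL(2, ℤ)) (hγ : γ ∈ Gamma0 M) :
    IsG0 M (ofG0 hM γ hγ) := ⟨γ.2, (mem_Gamma0_iff M γ).1 hγ⟩

/-- the converse -/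
def toSL (M : ℕ) (g : S4) (hg : IsG0 M g) : SL(2, ℤ) := ⟨g.1, hg.1⟩

theorem toSL_mem (M : ℕ) (g : S4) (hg : IsG0 M g) : toSL M g hg ∈ Gamma0 M := by
  rw [mem_Gamma0_iff]
  exact hg.2

/-- (RL) the matrices `bet M l i` represent `Γ₀(M) \ Del M l`. -/
theorem rep {M l : ℕ} (hl : l.Prime) (hM : 4 ∣ M) (hM0 : M ≠ 0) {g : S4} (hg : Del M l g) :
    ∃! i : Ix M l, ∃ γ : S4, IsG0 M γ ∧ g = γ * bet M l i := by
  by_cases hlM : l ∣ M
  · obtain ⟨b, ⟨γ, hγ, h⟩, hu⟩ := (cpl_up hl hlM).2 g.1 hg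
    refine ⟨Sum.inl b, ⟨ofG0 hM γ hγ, isG0_ofG0 hM γ hγ, ?_⟩, ?_⟩
    · apply Subtype.ext
      rw [Submonoid.coe_mul, bet_inl hl]
      exact h
    · rintro (b' | u) ⟨δ, hδ, h'⟩
      · congr 1
        refine hu b' ⟨toSL M δ hδ, toSL_mem M δ hδ, ?_⟩
        have := congrArg Subtype.val h'
        rw [Submonoid.coe_mul, bet_inl hl] at this
        exact this
      · exact absurd hlM u.2
  · obtain ⟨b, ⟨γ, hγ, h⟩, hu⟩ := (cpl_tri hl hlM).2 g.1 hg
    have key : ∀ (o : Option (Fin l)), ∃ i : Ix M l, (bet M l i).1 = tri l o := by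
      rintro (_ | b)
      · exact ⟨Sum.inr ⟨(), hlM⟩, bet_inr hl hM _⟩
      · exact ⟨Sum.inl b, bet_inl hl b⟩
    obtain ⟨i, hi⟩ := key b
    refine ⟨i, ⟨ofG0 hM γ hγ, isG0_ofG0 hM γ hγ, ?_⟩, ?_⟩
    · apply Subtype.ext
      rw [Submonoid.coe_mul, hi]
      exact h
    · rintro j ⟨δ, hδ, h'⟩
      have key2 : ∃ o : Option (Fin l), (bet M l j).1 = tri l o ∧
          (o = b → j = i) := by
        rcases j with b' | u
        · refine ⟨some b', bet_inl hl b', ?_⟩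
          rintro rfl
          rcases i with b'' | u
          · rw [bet_inl hl] at hi
            congr 1
            have h01 := congrFun (congrFun hi 0) 1
            simp only [up, tri] at h01
            apply Fin.ext
            have : ((b'' : ℕ) : ℤ) = ((b' : ℕ) : ℤ) := by simpa using h01
            exact_mod_cast this.symm
          · rw [bet_inr hl hM] at hi
            exfalso
            have h11 := congrFun (congrFun hi 1) 1
            simp [dn, tri, up] at h11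
            exact hl.one_lt.ne (by exact_mod_cast h11)
        · refine ⟨none, bet_inr hl hM u, ?_⟩
          rintro rfl
          rcases i with b'' | u'
          · rw [bet_inl hl] at hi
            exfalso
            have h11 := congrFun (congrFun hi 1) 1
            simp [dn, tri, up] at h11
            exact hl.one_lt.ne' (by exact_mod_cast h11)
          · exact congrArg Sum.inr (Subsingleton.elim _ _)
      obtain ⟨o, ho, hoi⟩ := key2
      apply hoi
      refine hu o ⟨toSL M δ hδ, toSL_mem M δ hδ, ?_⟩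
      have := congrArg Subtype.val h'
      rw [Submonoid.coe_mul, ho] at this
      exact this

theorem isG0_mul {M : ℕ} {g h : S4} (hg : IsG0 M g) (hh : IsG0 M h) : IsG0 M (g * h) := by
  refine ⟨?_, ?_⟩
  · rw [Submonoid.coe_mul, det_mul, hg.1, hh.1, one_mul]
  · rw [Submonoid.coe_mul, Matrix.mul_apply, Fin.sum_univ_two]
    exact dvd_add (hg.2.mul_right _) (hh.2.mul_left _)

theorem isG0_one (M : ℕ) : IsG0 M (1 : S4) := by
  refine ⟨by simp, by simp⟩

/-- inverses in `Γ₀(M)` -/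
theorem isG0_inv {M : ℕ} (hM : 4 ∣ M) {g : S4} (hg : IsG0 M g) :
    ∃ h : S4, IsG0 M h ∧ h * g = 1 ∧ g * h = 1 := by
  refine ⟨ofG0 hM (toSL M g hg)⁻¹ (Subgroup.inv_mem _ (toSL_mem M g hg)),
    isG0_ofG0 hM _ _, ?_, ?_⟩
  · apply Subtype.ext
    have : (((toSL M g hg)⁻¹ * toSL M g hg : SL(2, ℤ)) : Matrix (Fin 2) (Fin 2) ℤ) = 1 := by
      rw [inv_mul_cancel]; rfl
    rw [Matrix.SpecialLinearGroup.coe_mul] at this
    exact this
  · apply Subtype.ext
    have : ((toSL M g hg * (toSL M g hg)⁻¹ : SL(2, ℤ)) : Matrix (Fin 2) (Fin 2) ℤ) = 1 := by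
      rw [mul_inv_cancel]; rfl
    rw [Matrix.SpecialLinearGroup.coe_mul] at this
    exact this

theorem rep_unique {M l : ℕ} (hl : l.Prime) (hM : 4 ∣ M) (hM0 : M ≠ 0) {i j : Ix M l} {γ : S4}
    (hγ : IsG0 M γ) (h : bet M l i = γ * bet M l j) : i = j := by
  obtain ⟨t, -, ht⟩ := rep hl hM hM0 (del_bet hl hM i)
  exact (ht i ⟨1, isG0_one M, (one_mul _).symm⟩).trans (ht j ⟨γ, hγ, h⟩).symm

/-- `T_l` by any system of representatives. -/
theorem hecke_eq_sum {M l n : ℕ} (hl : l.Prime) (hM : 4 ∣ M) (hM0 : M ≠ 0)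
    {φ : Cusp → Cusp → Fin (n + 1) → k} (hφ : ∀ γ, IsG0 M γ → act k n γ φ = φ)
    {ι : Type} [Fintype ι] (g : ι → S4) (hg : ∀ i, Del M l (g i))
    (hcard : Fintype.card ι = Fintype.card (Ix M l))
    (hinj : ∀ i j γ, IsG0 M γ → g i = γ * g j → i = j) :
    ∑ i, act k n (g i) φ = hecke k M n l φ := by
  classical
  choose f hf hfu using fun i => rep hl hM hM0 (hg i)
  choose γ hγ hgγ using hf
  have hfi : Function.Injective f := by
    intro i j hij
    obtain ⟨δ, hδ, hδ1, hδ2⟩ := isG0_inv hM (hγ j)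
    refine hinj i j (γ i * δ) (isG0_mul (hγ i) hδ) ?_
    rw [hgγ i, hgγ j, hij, mul_assoc, ← mul_assoc δ, hδ1, one_mul]
  have hfb : Function.Bijective f := (Fintype.bijective_iff_injective_and_card f).2 ⟨hfi, hcard⟩
  rw [hecke_eq, LinearMap.sum_apply]
  refine Fintype.sum_bijective f hfb _ _ fun i => ?_
  rw [hgγ i, ← act_act, hφ (γ i) (hγ i)]

theorem del_mul {M l : ℕ} {g h : S4} (hg : Del M l g) (hh : IsG0 M h) : Del M l (g * h) := by
  have h1 : toSL M h hh ∈ Gamma0 M := toSL_mem M h hh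
  exact mul_mem_Dl' h1 (del_iff.1 hg)

theorem mul_del {M l : ℕ} {g h : S4} (hg : Del M l g) (hh : IsG0 M h) : Del M l (h * g) := by
  have h1 : toSL M h hh ∈ Gamma0 M := toSL_mem M h hh
  exact mul_mem_Dl h1 (del_iff.1 hg)

theorem act_add_mem {n : ℕ} (g : S4) {φ : Cusp → Cusp → Fin (n + 1) → k}
    (h : ∀ x y z, φ x y + φ y z = φ x z) (x y z : Cusp) :
    act k n g φ x y + act k n g φ y z = act k n g φ x z := by
  rw [act_apply, act_apply, act_apply, ← Matrix.mulVec_add, h]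

theorem hecke_mem {M l n : ℕ} (hl : l.Prime) (hM : 4 ∣ M) (hM0 : M ≠ 0)
    {φ : Cusp → Cusp → Fin (n + 1) → k} (hφ : φ ∈ Sym k M n) :
    hecke k M n l φ ∈ Sym k M n := by
  obtain ⟨h1, h2⟩ := hφ
  refine ⟨fun x y z => ?_, fun g hg => ?_⟩
  · rw [hecke_eq, LinearMap.sum_apply]
    simp only [Finset.sum_apply]
    rw [← Finset.sum_add_distrib]
    exact Finset.sum_congr rfl fun i _ => act_add_mem _ h1 x y z
  · have e1 : act k n g (hecke k M n l φ) = ∑ i : Ix M l, act k n (bet M l i * g) φ := by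
      rw [hecke_eq, LinearMap.sum_apply, map_sum]
      exact Finset.sum_congr rfl fun i _ => act_act n g (bet M l i) φ
    rw [e1]
    refine hecke_eq_sum hl hM hM0 h2 _ (fun i => del_mul (del_bet hl hM i) hg) rfl ?_
    intro i j γ hγ h
    refine rep_unique hl hM hM0 hγ ?_
    obtain ⟨δ, -, -, hδ⟩ := isG0_inv hM hg
    have h3 := congrArg (fun t => t * δ) h
    simp only [mul_assoc, hδ, mul_one] at h3
    exact h3

end Gouvea.PS
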