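import Pool.Agent.Work.MP_d3517d_nt.SlashM

/-!
# Partial modular symbols of level `4 ∣ M` (MP_d3517d_nt, source package): definitions

* `S4` : the monoid of integer matrices `(a b; c d)` with `a` odd, `4 ∣ c`, determinant `≠ 0`;
* `Cusp` : the set of cusps `a/c ∈ ℙ¹(ℚ)` (lowest terms) with `4 ∣ c` = the orbit `Γ₀(4) ∞`;
* `slk n g` : the matrix of `f ↦ (cX+d)^n f((aX+b)/(cX+d))` on polynomials of degree `≤ n`;
* `Sym k M n` : the additive, `Γ₀(M)`-equivariant functions on pairs of cusps;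
* `hecke M n l` : `T_l` (`l ∤ M`), `U_l` (`l ∣ M`).
-/

open Polynomial Finset Matrix

noncomputable section

namespace Gouvea.PS

/-- The monoid of integer matrices `(a b; c d)` with `a` odd, `4 ∣ c`, determinant `≠ 0`. -/
def S4 : Submonoid (Matrix (Fin 2) (Fin 2) ℤ) where
  carrier := {g | g.det ≠ 0 ∧ Odd (g 0 0) ∧ (4 : ℤ) ∣ g 1 0}
  one_mem' := by simp
  mul_mem' := by
    rintro g h ⟨g1, g2, g3⟩ ⟨h1, h2, h3⟩
    refine ⟨by rw [det_mul]; exact mul_ne_zero g1 h1, ?_, ?_⟩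
    · rw [Matrix.mul_apply, Fin.sum_univ_two]
      refine (g2.mul h2).add_even ?_
      obtain ⟨t, ht⟩ := h3
      exact ⟨g 0 1 * (2 * t), by rw [ht]; ring⟩
    · rw [Matrix.mul_apply, Fin.sum_univ_two]
      exact dvd_add (g3.mul_right _) (h3.mul_left _)

/-- pairs `(u, v)`, `u` odd, `4 ∣ v` -/
structure PreCusp where
  u : ℤ
  v : ℤ
  hu : Odd u
  hv : (4 : ℤ) ∣ v

instance : Setoid PreCusp where
  r x y := x.u * y.v = y.u * x.v
  iseqv := by
    refine ⟨fun x => rfl, fun {x y} h => h.symm, fun {x y z} h1 h2 => ?_⟩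
    have hy : y.u ≠ 0 := by
      rintro h0
      have := y.hu
      rw [h0] at this
      exact (by decide : ¬ Odd (0 : ℤ)) this
    refine mul_left_cancel₀ hy ?_
    linear_combination x.u * h2 + z.u * h1

/-- The cusps `a/c` with `4 ∣ c`. -/
def Cusp : Type := Quotient (inferInstance : Setoid PreCusp)

/-- the cusp `u/v` -/
def Cusp.mk (u v : ℤ) (hu : Odd u) (hv : (4 : ℤ) ∣ v) : Cusp := Quotient.mk _ ⟨u, v, hu, hv⟩

/-- the cusp `∞ = 1/0` -/
def inf : Cusp := Cusp.mk 1 0 odd_one (by simp)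

/-- the cusp `1/4` -/
def qrt : Cusp := Cusp.mk 1 4 odd_one (by simp)

lemma Cusp.mk_eq {u v u' v' : ℤ} {hu hv hu' hv'} :
    Cusp.mk u v hu hv = Cusp.mk u' v' hu' hv' ↔ u * v' = u' * v :=
  ⟨fun h => Quotient.exact h, fun h => Quotient.sound h⟩

lemma Cusp.ind' {P : Cusp → Prop} (h : ∀ u v hu hv, P (Cusp.mk u v hu hv)) (x : Cusp) : P x :=
  Quotient.inductionOn x fun y => h y.u y.v y.hu y.hv

instance : MulAction S4 Cusp where
  smul g := Quotient.map (fun x : PreCusp =>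
    (⟨g.1 0 0 * x.u + g.1 0 1 * x.v, g.1 1 0 * x.u + g.1 1 1 * x.v,
      (g.2.2.1.mul x.hu).add_even (by
        obtain ⟨t, ht⟩ := x.hv
        exact ⟨g.1 0 1 * (2 * t), by rw [ht]; ring⟩),
      dvd_add (g.2.2.2.mul_right _) (x.hv.mul_left _)⟩ : PreCusp)) (by
    intro x y (h : x.u * y.v = y.u * x.v)
    show (g.1 0 0 * x.u + g.1 0 1 * x.v) * (g.1 1 0 * y.u + g.1 1 1 * y.v) =
      (g.1 0 0 * y.u + g.1 0 1 * y.v) * (g.1 1 0 * x.u + g.1 1 1 * x.v)
    linear_combination (g.1 0 0 * g.1 1 1 - g.1 0 1 * g.1 1 0) * h)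
  one_smul x := by
    refine Quotient.inductionOn x fun y => ?_
    refine Quotient.sound ?_
    show (_ : ℤ) * _ = _ * _
    simp
  mul_smul g h x := by
    refine Quotient.inductionOn x fun y => ?_
    refine Quotient.sound ?_
    show (_ : ℤ) * _ = _ * _
    simp only [Submonoid.coe_mul, Matrix.mul_apply, Fin.sum_univ_two]
    ring

lemma smul_mk (g : S4) (u v : ℤ) (hu : Odd u) (hv : (4 : ℤ) ∣ v) :
    ∃ hu' hv', g • Cusp.mk u v hu hv =
      Cusp.mk (g.1 0 0 * u + g.1 0 1 * v) (g.1 1 0 * u + g.1 1 1 * v) hu' hv' :=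
  ⟨_, _, rfl⟩

section Slash

variable {k : Type} [CommRing k]

/-- The matrix of `f ↦ f | g = (cX+d)^n f((aX+b)/(cX+d))`, `g = (a b; c d)`, in the basis
`1, X, …, X^n` (for `k = ℤ_p` this is `slM`). -/
def slk (n : ℕ) (g : Matrix (Fin 2) (Fin 2) k) : Matrix (Fin (n + 1)) (Fin (n + 1)) k :=
  Matrix.of fun i j => slR n g i j

@[simp] lemma slk_apply (n : ℕ) (g : Matrix (Fin 2) (Fin 2) k) (i j : Fin (n + 1)) :
    slk n g i j = slR n g i j := rfl

lemma slk_one (n : ℕ) : slk n (1 : Matrix (Fin 2) (Fin 2) k) = 1 := by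
  ext i j
  rw [slk_apply, slR_one n i j (Nat.lt_succ_iff.1 j.2), Matrix.one_apply]
  simp [Fin.ext_iff]

lemma slk_mul (n : ℕ) (g h : Matrix (Fin 2) (Fin 2) k) :
    slk n (g * h) = slk n h * slk n g := by
  ext i j
  rw [slk_apply, slR_mul n g h i j (Nat.lt_succ_iff.1 j.2), Matrix.mul_apply,
    ← Fin.sum_univ_eq_sum_range (fun m => slR n h i m * slR n g m j) (n + 1)]
  rfl

lemma slk_smul (n : ℕ) (c : k) (g : Matrix (Fin 2) (Fin 2) k) :
    slk n (c • g) = c ^ n • slk n g := by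
  ext i j
  rw [slk_apply, slR_smul n c g i j (Nat.lt_succ_iff.1 j.2)]
  rfl

lemma slk_neg (n : ℕ) (hn : Even n) (g : Matrix (Fin 2) (Fin 2) k) :
    slk n (-g) = slk n g := by
  rw [← neg_one_smul k g, slk_smul, hn.neg_one_pow, one_smul]

lemma slk_map {k' : Type} [CommRing k'] (f : k →+* k') (n : ℕ)
    (g : Matrix (Fin 2) (Fin 2) k) : slk n (g.map f) = (slk n g).map f := by
  ext i j
  simp [slR_map]

/-- the link with `slashM` on polynomials -/
lemma coeff_slashM_eq (n : ℕ) (g : Matrix (Fin 2) (Fin 2) k) (f : k[X]) (i : Fin (n + 1)) :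
    (slashM n g f).coeff i = (slk n g).mulVec (fun j : Fin (n + 1) => f.coeff j) i := by
  rw [coeff_slashM, Matrix.mulVec, dotProduct,
    ← Fin.sum_univ_eq_sum_range (fun m => slR n g i m * f.coeff m) (n + 1)]
  rfl

variable (k)

/-- The right action of the monoid `S4` on functions on pairs of cusps:
`(φ | g)(x, y) = φ(g x, g y) | g`. -/
def act (n : ℕ) (g : S4) :
    (Cusp → Cusp → Fin (n + 1) → k) →ₗ[k] (Cusp → Cusp → Fin (n + 1) → k) where
  toFun φ x y := (slk n (g.1.map (Int.cast : ℤ → k))).mulVec (φ (g • x) (g • y))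
  map_add' φ ψ := by
    ext x y i
    simp [Matrix.mulVec_add]
  map_smul' a φ := by
    ext x y i
    simp [Matrix.mulVec_smul]

variable {k}

lemma act_apply (n : ℕ) (g : S4) (φ : Cusp → Cusp → Fin (n + 1) → k) (x y : Cusp) :
    act k n g φ x y =
      (slk n (g.1.map (Int.cast : ℤ → k))).mulVec (φ (g • x) (g • y)) := rfl

lemma map_cast_mul (g h : Matrix (Fin 2) (Fin 2) ℤ) :
    (g * h).map (Int.cast : ℤ → k) = g.map (Int.cast : ℤ → k) * h.map (Int.cast : ℤ → k) :=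
  Matrix.map_mul (f := Int.castRingHom k)

lemma act_act (n : ℕ) (g h : S4) (φ : Cusp → Cusp → Fin (n + 1) → k) :
    act k n g (act k n h φ) = act k n (h * g) φ := by
  funext x y
  rw [act_apply, act_apply, act_apply, mul_smul, mul_smul, Submonoid.coe_mul, map_cast_mul,
    slk_mul, Matrix.mulVec_mulVec]

lemma act_one (n : ℕ) (φ : Cusp → Cusp → Fin (n + 1) → k) : act k n 1 φ = φ := by
  funext x y
  rw [act_apply, one_smul, one_smul]
  have : ((1 : S4) : Matrix (Fin 2) (Fin 2) ℤ).map (Int.cast : ℤ → k) = 1 := by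
    simp [Matrix.map_one]
  rw [this, slk_one, Matrix.one_mulVec]

variable (k)

/-- the elements of `Γ₀(M)` (`4 ∣ M`) in `S4` -/
def IsG0 (M : ℕ) (g : S4) : Prop := g.1.det = 1 ∧ (M : ℤ) ∣ g.1 1 0

/-- Partial modular symbols of level `Γ₀(M)` (`4 ∣ M`), weight `n + 2`, coefficients in `k`. -/
def Sym (M n : ℕ) : Submodule k (Cusp → Cusp → Fin (n + 1) → k) where
  carrier := {φ | (∀ x y z, φ x y + φ y z = φ x z) ∧ ∀ g, IsG0 M g → act k n g φ = φ}
  add_mem' := by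
    rintro φ ψ ⟨h1, h2⟩ ⟨h3, h4⟩
    refine ⟨fun x y z => ?_, fun g hg => by rw [map_add, h2 g hg, h4 g hg]⟩
    simp only [Pi.add_apply]
    rw [← h1 x y z, ← h3 x y z]
    abel
  zero_mem' := ⟨fun x y z => by simp, fun g hg => by simp⟩
  smul_mem' := by
    rintro a φ ⟨h1, h2⟩
    refine ⟨fun x y z => ?_, fun g hg => by rw [map_smul, h2 g hg]⟩
    simp only [Pi.smul_apply]
    rw [← h1 x y z, smul_add]

open Classical in
/-- the upper triangular matrix `(a b; 0 d)`, `a` odd, `d ≠ 0` (and `1` otherwise) -/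
def upS (a b d : ℤ) : S4 :=
  if h : Odd a ∧ d ≠ 0 then
    ⟨!![a, b; 0, d], by
      refine ⟨?_, by simpa using h.1, by simp⟩
      rw [det_fin_two_of]
      intro h0
      have h1 : a ≠ 0 := by
        rintro rfl
        exact (by decide : ¬ Odd (0 : ℤ)) h.1
      simp [h1, h.2] at h0⟩
  else 1

lemma upS_coe {a b d : ℤ} (ha : Odd a) (hd : d ≠ 0) : (upS a b d).1 = !![a, b; 0, d] := by
  unfold upS
  rw [dif_pos ⟨ha, hd⟩]

/-- `T_l` for `l ∤ M`, `U_l` for `l ∣ M` (`l` prime). -/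
def hecke (M n l : ℕ) :
    (Cusp → Cusp → Fin (n + 1) → k) →ₗ[k] (Cusp → Cusp → Fin (n + 1) → k) :=
  (∑ b ∈ range l, act k n (upS 1 b l)) + if l ∣ M then 0 else act k n (upS l 0 1)

end Slash

end Gouvea.PS
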