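import Pool.Agent.Work.MP_d3517d_nt.HRep

/-!
# `HRep` from commuting generators (MP_d3517d_nt)

If commuting matrices `tE n q`, `tV n q` (`q : Q`) commute with `W`, `ι`, `π`, are triangular modulo
`p` and have graded pieces periodic in the weight and in the level, then the polynomial ring
`ℤ[Q]` acts (`HRep`).
-/

set_option autoImplicit false

open Matrix MvPolynomial

noncomputable section

namespace Gouvea

section generators

/-- A family of commuting elements of a ring defines a homomorphism from the polynomial ring. -/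
theorem exists_ringHom_of_comm {A Q : Type} [Ring A] (a : Q → A)
    (h : ∀ x y, a x * a y = a y * a x) :
    ∃ f : MvPolynomial Q ℤ →+* A, ∀ x, f (X x) = a x := by
  have hc : ∀ u ∈ Set.range a, ∀ v ∈ Set.range a, u * v = v * u := by
    rintro _ ⟨x, rfl⟩ _ ⟨y, rfl⟩
    exact h x y
  have hcomm := Algebra.isMulCommutative_adjoin ℤ hc
  let _ : CommRing (Algebra.adjoin ℤ (Set.range a)) :=
    { (inferInstance : Ring (Algebra.adjoin ℤ (Set.range a))) with
      mul_comm := fun x y => hcomm.is_comm.comm x y }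
  let g : MvPolynomial Q ℤ →+* Algebra.adjoin ℤ (Set.range a) :=
    eval₂Hom (Int.castRingHom _) fun x => ⟨a x, Algebra.subset_adjoin ⟨x, rfl⟩⟩
  refine ⟨((Algebra.adjoin ℤ (Set.range a)).val : _ →+* A).comp g, fun x => ?_⟩
  simp only [RingHom.comp_apply, g, coe_eval₂Hom, eval₂_X]
  rfl

end generators

variable {p : ℕ} [Fact p.Prime]

section diag

variable {E : Type} [Fintype E] [DecidableEq E] {n : ℕ}

/-- triangular modulo `p` -/
def TriP (A : Matrix (E × Fin (n + 1)) (E × Fin (n + 1)) ℤ_[p]) : Prop :=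
  ∀ x y, y.2 < x.2 → (p : ℤ_[p]) ∣ A x y

omit [DecidableEq E] in
theorem TriP.mul {A B : Matrix (E × Fin (n + 1)) (E × Fin (n + 1)) ℤ_[p]} (hA : TriP A)
    (hB : TriP B) : TriP (A * B) := by
  intro x y hxy
  rw [Matrix.mul_apply]
  refine Finset.dvd_sum fun z _ => ?_
  rcases lt_or_ge z.2 x.2 with h | h
  · exact Dvd.dvd.mul_right (hA x z h) _
  · exact Dvd.dvd.mul_left (hB z y (hxy.trans_le h)) _

omit [Fintype E] [DecidableEq E] in
theorem TriP.add {A B : Matrix (E × Fin (n + 1)) (E × Fin (n + 1)) ℤ_[p]} (hA : TriP A)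
    (hB : TriP B) : TriP (A + B) := fun x y hxy => dvd_add (hA x y hxy) (hB x y hxy)

omit [Fintype E] in
theorem TriP.int (c : ℤ) : TriP ((c : Matrix (E × Fin (n + 1)) (E × Fin (n + 1)) ℤ_[p])) := by
  intro x y hxy
  have : x ≠ y := by rintro rfl; exact lt_irrefl _ hxy
  rw [← Matrix.diagonal_intCast, Matrix.diagonal_apply_ne _ this]
  exact dvd_zero _

/-- the graded piece of level `i` modulo `p` -/
def dg (A : Matrix (E × Fin (n + 1)) (E × Fin (n + 1)) ℤ_[p]) (i : Fin (n + 1)) :
    Matrix E E (ZMod p) := Matrix.of fun e e' => PadicInt.toZMod (A (e, i) (e', i))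

theorem toZMod_eq_zero_of_dvd {x : ℤ_[p]} (h : (p : ℤ_[p]) ∣ x) : PadicInt.toZMod x = 0 := by
  obtain ⟨y, rfl⟩ := h
  rw [map_mul, map_natCast, ZMod.natCast_self, zero_mul]

omit [DecidableEq E] in
theorem dg_mul {A B : Matrix (E × Fin (n + 1)) (E × Fin (n + 1)) ℤ_[p]} (hA : TriP A)
    (hB : TriP B) (i : Fin (n + 1)) : dg (A * B) i = dg A i * dg B i := by
  ext e e'
  simp only [dg, Matrix.of_apply, Matrix.mul_apply, map_sum, map_mul]
  rw [Fintype.sum_prod_type]
  refine Finset.sum_congr rfl fun e'' _ => ?_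
  rw [Finset.sum_eq_single i]
  · intro j _ hj
    rcases lt_or_gt_of_ne hj with h | h
    · rw [toZMod_eq_zero_of_dvd (hA (e, i) (e'', j) h), zero_mul]
    · rw [toZMod_eq_zero_of_dvd (hB (e'', j) (e', i) h), mul_zero]
  · intro h
    exact absurd (Finset.mem_univ _) h

omit [Fintype E] [DecidableEq E] in
theorem dg_add (A B : Matrix (E × Fin (n + 1)) (E × Fin (n + 1)) ℤ_[p]) (i : Fin (n + 1)) :
    dg (A + B) i = dg A i + dg B i := by
  ext e e'
  simp [dg]

omit [Fintype E] in
theorem dg_int (c : ℤ) (i : Fin (n + 1)) :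
    dg ((c : Matrix (E × Fin (n + 1)) (E × Fin (n + 1)) ℤ_[p])) i = (c : Matrix E E (ZMod p)) := by
  ext e e'
  rw [← Matrix.diagonal_intCast, ← Matrix.diagonal_intCast]
  simp only [dg, Matrix.of_apply, Matrix.diagonal_apply, Prod.mk.injEq, and_true]
  split <;> simp

end diag

section main

variable {h : ℕ} {E V : Type} [Fintype E] [DecidableEq E] [Fintype V] [DecidableEq V] {Q : Type}

theorem TriP.of_gens {n : ℕ}
    (f : MvPolynomial Q ℤ →+* Matrix (E × Fin (n + 1)) (E × Fin (n + 1)) ℤ_[p])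
    (hf : ∀ q, TriP (f (X q))) (t : MvPolynomial Q ℤ) : TriP (f t) := by
  induction t using MvPolynomial.induction_on with
  | C c =>
    rw [show (C c : MvPolynomial Q ℤ) = (c : MvPolynomial Q ℤ) from by simp, map_intCast]
    exact TriP.int c
  | add a b ha hb => rw [map_add]; exact ha.add hb
  | mul_X a q ha => rw [map_mul]; exact ha.mul (hf q)

/-- the graded piece as a ring homomorphism -/
theorem exists_dgh {n : ℕ}
    (f : MvPolynomial Q ℤ →+* Matrix (E × Fin (n + 1)) (E × Fin (n + 1)) ℤ_[p])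
    (hf : ∀ q, TriP (f (X q))) (i : Fin (n + 1)) :
    ∃ g : MvPolynomial Q ℤ →+* Matrix E E (ZMod p), ∀ t, g t = dg (f t) i := by
  have h1 : dg (1 : Matrix (E × Fin (n + 1)) (E × Fin (n + 1)) ℤ_[p]) i = 1 := by
    have := dg_int (p := p) (E := E) (n := n) 1 i
    simpa using this
  refine ⟨{ toFun := fun t => dg (f t) i
            map_one' := by rw [map_one]; exact h1
            map_mul' := fun a b => by
              rw [map_mul]; exact dg_mul (TriP.of_gens f hf a) (TriP.of_gens f hf b) i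
            map_zero' := by
              rw [map_zero]
              ext e e'
              simp [dg]
            map_add' := fun a b => by rw [map_add]; exact dg_add _ _ i }, fun t => rfl⟩

/-- two families with the same graded pieces on the generators have the same graded pieces -/
theorem dg_eq_of_gens {n n' : ℕ}
    (f : MvPolynomial Q ℤ →+* Matrix (E × Fin (n + 1)) (E × Fin (n + 1)) ℤ_[p])
    (f' : MvPolynomial Q ℤ →+* Matrix (E × Fin (n' + 1)) (E × Fin (n' + 1)) ℤ_[p])
    (hf : ∀ q, TriP (f (X q))) (hf' : ∀ q, TriP (f' (X q))) (i : Fin (n + 1)) (i' : Fin (n' + 1))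
    (h : ∀ q, dg (f (X q)) i = dg (f' (X q)) i') (t : MvPolynomial Q ℤ) :
    dg (f t) i = dg (f' t) i' := by
  obtain ⟨g, hg⟩ := exists_dgh f hf i
  obtain ⟨g', hg'⟩ := exists_dgh f' hf' i'
  have : g = g' := by
    refine MvPolynomial.ringHom_ext (fun c => ?_) fun q => ?_
    · rw [show (C c : MvPolynomial Q ℤ) = (c : MvPolynomial Q ℤ) from by simp, map_intCast,
        map_intCast]
    · rw [hg, hg', h]
  rw [← hg, ← hg', this]

/-- `HRep` from generators. -/
theorem exists_hrep (D : Dat p h E V)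
    (tE : ∀ n : ℕ, Even n → Q → Matrix (E × Fin (n + 1)) (E × Fin (n + 1)) ℤ_[p])
    (tV : ∀ n : ℕ, Even n → Q → Matrix (V × Fin (n + 1)) (V × Fin (n + 1)) ℤ_[p])
    (hcE : ∀ n hn a b, tE n hn a * tE n hn b = tE n hn b * tE n hn a)
    (hcV : ∀ n hn a b, tV n hn a * tV n hn b = tV n hn b * tV n hn a)
    (hW : ∀ n hn a, tE n hn a * D.W n = D.W n * tE n hn a)
    (hι : ∀ n hn a, tE n hn a * D.ι n = D.ι n * tV n hn a)
    (hπ : ∀ n hn a, D.π n * tE n hn a = tV n hn a * D.π n)
    (htri : ∀ n hn a x y, y.2 < x.2 → (p : ℤ_[p]) ∣ tE n hn a x y)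
    (g : ℕ → ℕ → Q → Matrix E E (ZMod p))
    (hg : ∀ n hn a (i : Fin (n + 1)) e e',
      PadicInt.toZMod (tE n hn a (e, i) (e', i)) = g n i a e e')
    (hgn : ∀ n i a, g (n + (p - 1)) i a = g n i a)
    (hgi : ∀ n i a, g n (i + (p - 1)) a = g n i a) :
    ∃ H : HRep D (MvPolynomial Q ℤ), (∀ n hn a, H.TE n hn (X a) = tE n hn a) ∧
      (∀ n hn a, H.TV n hn (X a) = tV n hn a) ∧
      ∀ n, Even n → ∀ i a, H.gr n i (X a) = g n i a := by
  choose TE hTE using fun n hn => exists_ringHom_of_comm (tE n hn) (hcE n hn)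
  choose TV hTV using fun n hn => exists_ringHom_of_comm (tV n hn) (hcV n hn)
  have htri' : ∀ n hn a, TriP (TE n hn (X a)) := by
    intro n hn a
    rw [hTE]
    exact htri n hn a
  have hpos : 1 ≤ p - 1 := by
    have := (Fact.out : p.Prime).two_le
    omega
  have hgn' : ∀ n i k a, g (n + k * (p - 1)) i a = g n i a := by
    intro n i k a
    induction k with
    | zero => simp
    | succ k ih => rw [Nat.succ_mul, ← add_assoc, hgn, ih]
  have hdg : ∀ n hn a (i : Fin (n + 1)), dg (TE n hn (X a)) i = g n i a := by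
    intro n hn a i
    rw [hTE]
    ext e e'
    exact hg n hn a i e e'
  -- auxiliary weights
  let S : ℕ → ℕ → ℕ → Prop := fun n i m => Even m ∧ i < m + 1 ∧ ∃ k, m = n + k * (p - 1)
  classical
  let gr : ℕ → ℕ → MvPolynomial Q ℤ → Matrix E E (ZMod p) := fun n i t =>
    if h : ∃ m, S n i m then
      dg (TE (Classical.choose h) (Classical.choose_spec h).1 t)
        ⟨i, (Classical.choose_spec h).2.1⟩ else 0
  have hgrS : ∀ n i m t (h : S n i m), gr n i t = dg (TE m h.1 t) ⟨i, h.2.1⟩ := by
    intro n i m t h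
    have h0 : ∃ m, S n i m := ⟨m, h⟩
    simp only [gr, dif_pos h0]
    refine dg_eq_of_gens _ _ (htri' _ _) (htri' _ _) _ _ (fun q => ?_) t
    rw [hdg, hdg]
    simp only
    obtain ⟨k, hk⟩ := (Classical.choose_spec h0).2.2
    obtain ⟨k', hk'⟩ := h.2.2
    rw [hk, hk', hgn', hgn']
  have hgr0 : ∀ n i t, (¬ ∃ m, S n i m) → gr n i t = 0 := by
    intro n i t h
    simp only [gr, dif_neg h]
  have hgr_eq : ∀ n hn t (i : Fin (n + 1)), dg (TE n hn t) i = gr n i t := by
    intro n hn t i
    exact (hgrS n i n t ⟨hn, i.2, 0, by simp⟩).symm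
  refine ⟨{ TE := TE, TV := TV
            comW := fun n hn t => ?_
            comι := fun n hn t => ?_
            comπ := fun n hn t => ?_
            tri := fun n hn t => TriP.of_gens _ (htri' n hn) t
            gr := gr
            gr_eq := fun n hn t i e e' => ?_
            gr_n := fun n i t => ?_
            gr_i := fun n i t => ?_ }, fun n hn a => hTE n hn a, fun n hn a => hTV n hn a,
            fun n hn i a => ?_⟩
  · induction t using MvPolynomial.induction_on with
    | C c =>
      rw [show (C c : MvPolynomial Q ℤ) = (c : MvPolynomial Q ℤ) from by simp, map_intCast]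
      exact (Int.cast_commute c _).eq
    | add a b ha hb => rw [map_add, Matrix.add_mul, Matrix.mul_add, ha, hb]
    | mul_X a q ha =>
      rw [map_mul, Matrix.mul_assoc, hTE, hW, ← Matrix.mul_assoc, ha, Matrix.mul_assoc]
  · induction t using MvPolynomial.induction_on with
    | C c =>
      rw [show (C c : MvPolynomial Q ℤ) = (c : MvPolynomial Q ℤ) from by simp, map_intCast,
        map_intCast, ← Matrix.diagonal_intCast, ← Matrix.diagonal_intCast]
      ext x y
      rw [Matrix.diagonal_mul, Matrix.mul_diagonal, mul_comm]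
    | add a b ha hb => rw [map_add, map_add, Matrix.add_mul, Matrix.mul_add, ha, hb]
    | mul_X a q ha =>
      rw [map_mul, map_mul, Matrix.mul_assoc, hTE, hι, ← Matrix.mul_assoc, ha, Matrix.mul_assoc,
        hTV]
  · induction t using MvPolynomial.induction_on with
    | C c =>
      rw [show (C c : MvPolynomial Q ℤ) = (c : MvPolynomial Q ℤ) from by simp, map_intCast,
        map_intCast, ← Matrix.diagonal_intCast, ← Matrix.diagonal_intCast]
      ext x y
      rw [Matrix.diagonal_mul, Matrix.mul_diagonal, mul_comm]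
    | add a b ha hb => rw [map_add, map_add, Matrix.add_mul, Matrix.mul_add, ha, hb]
    | mul_X a q ha =>
      rw [map_mul, map_mul, ← Matrix.mul_assoc, ha, Matrix.mul_assoc, hTE, hπ, ← Matrix.mul_assoc,
        hTV]
  · have := congrFun (congrFun (hgr_eq n hn t i) e) e'
    exact this
  · by_cases h : ∃ m, S n i m
    · obtain ⟨m, h1, h2, k, hk⟩ := h
      have h3 : S (n + (p - 1)) i (m + 2 * (p - 1)) :=
        ⟨h1.add (even_two_mul _), by omega, k + 1, by rw [hk]; ring⟩
      have h4 : S n i (m + 2 * (p - 1)) :=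
        ⟨h1.add (even_two_mul _), by omega, k + 2, by rw [hk]; ring⟩
      rw [hgrS _ _ _ t h3, hgrS _ _ _ t h4]
    · rw [hgr0 _ _ _ h, hgr0]
      rintro ⟨m, h1, h2, k, hk⟩
      exact h ⟨m, h1, h2, k + 1, by rw [hk]; ring⟩
  · by_cases h : ∃ m, S n i m
    · obtain ⟨m, h1, h2, k, hk⟩ := h
      have h3 : S n (i + (p - 1)) (m + 2 * (p - 1)) :=
        ⟨h1.add (even_two_mul _), by omega, k + 2, by rw [hk]; ring⟩
      rw [hgrS _ _ _ t h3, hgrS _ _ _ t ⟨h1, h2, k, hk⟩]
      refine dg_eq_of_gens _ _ (htri' _ _) (htri' _ _) _ _ (fun q => ?_) t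
      rw [hdg, hdg]
      simp only
      rw [hgi, hgn' m i 2 q]
    · rw [hgr0 _ _ _ h, hgr0]
      rintro ⟨m, h1, h2, k, hk⟩
      exact h ⟨m, h1, by omega, k, hk⟩
  · have h3 : S n i (n + (2 * i) * (p - 1)) := by
      refine ⟨hn.add ?_, ?_, 2 * i, rfl⟩
      · rw [mul_assoc]
        exact even_two_mul _
      · have : i ≤ 2 * i * (p - 1) := by nlinarith
        omega
    have h4 := hgrS n i _ (X a) h3
    rw [hdg] at h4
    simp only at h4
    rw [hgn'] at h4
    exact h4

end main

end Gouvea
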