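import Pool.Agent.Work.MP_d3517d_nt.Coord
import Pool.Agent.Work.MP_d3517d_nt.PS.HRepGen

/-!
# Doubled data (MP_d3517d_nt, partial symbols)

Pure algebra of the doubling: the index sets `E × Bool`, `V × Bool`, and the involution
`W = swap × slM n η`.
-/

open Finset Matrix

noncomputable section

namespace Gouvea.PS

variable {p : ℕ} [Fact p.Prime]

/-! ### edges data with finitely many terms -/

theorem exists_gam {E : Type} [Fintype E] [DecidableEq E] (S : E → Type) [∀ e, Fintype (S e)]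
    (co : ∀ e, S e → ℤ_[p]) (tgt : ∀ e, S e → E)
    (g : ∀ e, S e → Matrix (Fin 2) (Fin 2) ℤ_[p])
    (h00 : ∀ e s, (p : ℤ_[p]) ∣ g e s 0 0) (h10 : ∀ e s, (p : ℤ_[p]) ∣ g e s 1 0)
    (h11 : ∀ e s, IsUnit (g e s 1 1)) :
    ∃ D : Gam p E, ∀ n x y, Um D n x y =
      ∑ s : S x.1, if tgt x.1 s = y.1 then co x.1 s * sl n (g x.1 s) x.2 y.2 else 0 := by
  classical
  let τ := Σ e, S e
  let φ : τ ≃ Fin (Fintype.card τ) := Fintype.equivFin τ
  let co' : τ → ℤ_[p] := fun z => co z.1 z.2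
  let tgt' : τ → E := fun z => tgt z.1 z.2
  let g' : τ → Matrix (Fin 2) (Fin 2) ℤ_[p] := fun z => g z.1 z.2
  refine ⟨{
    m := Fintype.card τ
    co := fun e t => if (φ.symm t).1 = e then co' (φ.symm t) else 0
    tgt := fun _ t => tgt' (φ.symm t)
    γ := fun _ t => g' (φ.symm t)
    h00 := fun _ t => h00 _ _
    h10 := fun _ t => h10 _ _
    h11 := fun _ t => h11 _ _ }, fun n x y => ?_⟩
  unfold Um
  simp only
  rw [← φ.sum_comp]
  simp only [Equiv.symm_apply_apply]
  rw [← Finset.univ_sigma_univ, Finset.sum_sigma, Finset.sum_eq_single x.1]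
  · refine Finset.sum_congr rfl fun s _ => ?_
    simp [co', tgt', g']
  · intro e _ he
    refine Finset.sum_eq_zero fun s _ => ?_
    simp [he]
  · simp

/-! ### block matrices -/

section Block

variable {R : Type} [CommRing R] {A B C ι κ μ : Type}

/-- the block matrix -/
def bm (M : Bool → Bool → Matrix (A × ι) (B × κ) R) :
    Matrix ((A × Bool) × ι) ((B × Bool) × κ) R :=
  Matrix.of fun x y => M x.1.2 y.1.2 (x.1.1, x.2) (y.1.1, y.2)

omit [CommRing R] in
lemma bm_apply (M : Bool → Bool → Matrix (A × ι) (B × κ) R) (x y) :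
    bm M x y = M x.1.2 y.1.2 (x.1.1, x.2) (y.1.1, y.2) := rfl

lemma bm_mul [Fintype B] [Fintype κ] (M : Bool → Bool → Matrix (A × ι) (B × κ) R)
    (N : Bool → Bool → Matrix (B × κ) (C × μ) R) :
    bm M * bm N = bm fun b b' => ∑ c, M b c * N c b' := by
  ext x y
  rw [bm_apply, Matrix.mul_apply, Matrix.sum_apply, Fintype.sum_prod_type,
    Fintype.sum_prod_type]
  simp only [Matrix.mul_apply, bm_apply, Fintype.sum_prod_type]
  rw [Finset.sum_comm]

lemma bm_sub (M N : Bool → Bool → Matrix (A × ι) (B × κ) R) :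
    bm M - bm N = bm fun b b' => M b b' - N b b' := rfl

lemma bm_add (M N : Bool → Bool → Matrix (A × ι) (B × κ) R) :
    bm M + bm N = bm fun b b' => M b b' + N b b' := rfl

lemma bm_smul (c : R) (M : Bool → Bool → Matrix (A × ι) (B × κ) R) :
    c • bm M = bm fun b b' => c • M b b' := rfl

lemma bm_zero : (bm fun _ _ => (0 : Matrix (A × ι) (B × κ) R)) = 0 := rfl

variable [DecidableEq A] [DecidableEq ι]

lemma bm_one : (1 : Matrix ((A × Bool) × ι) ((A × Bool) × ι) R) =
    bm fun b b' => if b = b' then 1 else 0 := by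
  ext x y
  rw [bm_apply, Matrix.one_apply]
  by_cases h : x.1.2 = y.1.2
  · rw [if_pos h, Matrix.one_apply]
    simp only [Prod.ext_iff, h, and_true]
  · rw [if_neg h, if_neg]
    · rfl
    · rintro rfl
      exact h rfl

end Block

section Block2

variable {R : Type} [CommRing R] {A B C ι κ μ : Type}

/-- block diagonal matrices -/
def bdg (M : Bool → Matrix (A × ι) (B × κ) R) : Matrix ((A × Bool) × ι) ((B × Bool) × κ) R :=
  bm fun b b' => if b = b' then M b else 0

/-- block antidiagonal matrices -/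
def bag (M : Bool → Matrix (A × ι) (B × κ) R) : Matrix ((A × Bool) × ι) ((B × Bool) × κ) R :=
  bm fun b b' => if b = b' then 0 else M b

lemma bdg_apply (M : Bool → Matrix (A × ι) (B × κ) R) (x y) :
    bdg M x y = if x.1.2 = y.1.2 then M x.1.2 (x.1.1, x.2) (y.1.1, y.2) else 0 := by
  rw [bdg, bm_apply]
  split_ifs <;> rfl

lemma bag_apply (M : Bool → Matrix (A × ι) (B × κ) R) (x y) :
    bag M x y = if x.1.2 = y.1.2 then 0 else M x.1.2 (x.1.1, x.2) (y.1.1, y.2) := by
  rw [bag, bm_apply]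
  split_ifs <;> rfl

lemma bdg_mul_bdg [Fintype B] [Fintype κ] (M : Bool → Matrix (A × ι) (B × κ) R)
    (N : Bool → Matrix (B × κ) (C × μ) R) : bdg M * bdg N = bdg fun b => M b * N b := by
  rw [bdg, bdg, bm_mul, bdg]
  congr 1
  funext b b'
  cases b <;> cases b' <;> simp

lemma bdg_mul_bag [Fintype B] [Fintype κ] (M : Bool → Matrix (A × ι) (B × κ) R)
    (N : Bool → Matrix (B × κ) (C × μ) R) : bdg M * bag N = bag fun b => M b * N b := by
  rw [bdg, bag, bm_mul, bag]
  congr 1
  funext b b'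
  cases b <;> cases b' <;> simp

lemma bag_mul_bdg [Fintype B] [Fintype κ] (M : Bool → Matrix (A × ι) (B × κ) R)
    (N : Bool → Matrix (B × κ) (C × μ) R) : bag M * bdg N = bag fun b => M b * N !b := by
  rw [bdg, bag, bm_mul, bag]
  congr 1
  funext b b'
  cases b <;> cases b' <;> simp

lemma bag_mul_bag [Fintype B] [Fintype κ] (M : Bool → Matrix (A × ι) (B × κ) R)
    (N : Bool → Matrix (B × κ) (C × μ) R) : bag M * bag N = bdg fun b => M b * N !b := by
  rw [bdg, bag, bag, bm_mul]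
  congr 1
  funext b b'
  cases b <;> cases b' <;> simp

lemma bdg_sub (M N : Bool → Matrix (A × ι) (B × κ) R) :
    bdg M - bdg N = bdg fun b => M b - N b := by
  rw [bdg, bdg, bm_sub, bdg]
  congr 1
  funext b b'
  split_ifs <;> simp

lemma bdg_add (M N : Bool → Matrix (A × ι) (B × κ) R) :
    bdg M + bdg N = bdg fun b => M b + N b := by
  rw [bdg, bdg, bm_add, bdg]
  congr 1
  funext b b'
  split_ifs <;> simp

lemma bdg_smul (c : R) (M : Bool → Matrix (A × ι) (B × κ) R) :
    c • bdg M = bdg fun b => c • M b := by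
  rw [bdg, bdg, bm_smul]
  congr 1
  funext b b'
  split_ifs <;> simp

lemma bdg_zero : bdg (fun _ => (0 : Matrix (A × ι) (B × κ) R)) = 0 := by
  ext x y
  rw [bdg_apply]
  split_ifs <;> rfl

lemma bdg_one [DecidableEq A] [DecidableEq ι] :
    bdg (fun _ => (1 : Matrix (A × ι) (A × ι) R)) = 1 := by
  rw [bm_one, bdg]

/-- the block diagonal matrices as a ring homomorphism -/
def bdgHom [Fintype A] [DecidableEq A] [Fintype ι] [DecidableEq ι] {S : Type} [CommRing S]
    (T : Bool → S →+* Matrix (A × ι) (A × ι) R) :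
    S →+* Matrix ((A × Bool) × ι) ((A × Bool) × ι) R where
  toFun t := bdg fun b => T b t
  map_one' := by simp only [map_one, bdg_one]
  map_mul' s t := by simp only [map_mul, bdg_mul_bdg]
  map_zero' := by simp only [map_zero, bdg_zero]
  map_add' s t := by simp only [map_add, bdg_add]

@[simp] lemma bdgHom_apply [Fintype A] [DecidableEq A] [Fintype ι] [DecidableEq ι] {S : Type}
    [CommRing S] (T : Bool → S →+* Matrix (A × ι) (A × ι) R) (t : S) :
    bdgHom T t = bdg fun b => T b t := rfl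

end Block2

/-! ### the matrix of `η` -/

/-- The block diagonal matrix of `η = (0 1; p 0)`. -/
def Neta (p : ℕ) [Fact p.Prime] (E : Type) [DecidableEq E] (n : ℕ) :
    Matrix (E × Fin (n + 1)) (E × Fin (n + 1)) ℤ_[p] :=
  Matrix.of fun x y => if x.1 = y.1 then slM n (etaM p) x.2 y.2 else 0

lemma sl_eta (n : ℕ) (i j : ℕ) (hj : j ≤ n) :
    sl n (etaM p) i j = if i + j = n then (p : ℤ_[p]) ^ (n - j) else 0 := by
  have h : ((Polynomial.C (0 : ℤ_[p]) * Polynomial.X + Polynomial.C 1) ^ j *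
      (Polynomial.C (p : ℤ_[p]) * Polynomial.X + Polynomial.C 0) ^ (n - j) : Polynomial ℤ_[p]) =
      Polynomial.C ((p : ℤ_[p]) ^ (n - j)) * Polynomial.X ^ (n - j) := by
    simp only [map_zero, zero_mul, zero_add, add_zero, mul_pow, map_pow, map_one, one_pow,
      one_mul]
  rw [sl, show etaM p 0 0 = 0 from rfl, show etaM p 0 1 = 1 from rfl,
    show etaM p 1 0 = (p : ℤ_[p]) from rfl, show etaM p 1 1 = 0 from rfl, h,
    Polynomial.coeff_C_mul, Polynomial.coeff_X_pow]
  by_cases h : i + j = n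
  · have h' : i = n - j := by omega
    rw [if_pos h, if_pos h', mul_one]
  · have h' : ¬ i = n - j := by omega
    rw [if_neg h, if_neg h', mul_zero]

lemma slM_eta_sq (n : ℕ) : slM n (etaM p) * slM n (etaM p) = (p : ℤ_[p]) ^ n • 1 := by
  rw [← slM_mul]
  apply slM_scalar <;> simp [etaM, Matrix.mul_apply, Fin.sum_univ_two]

variable {E V : Type} [Fintype E] [DecidableEq E] [Fintype V] [DecidableEq V]

lemma Neta_mul_apply (n : ℕ) {Y : Type} (M : Matrix (E × Fin (n + 1)) Y ℤ_[p])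
    (x : E × Fin (n + 1)) (y : Y) :
    (Neta p E n * M) x y = ∑ j, slM n (etaM p) x.2 j * M (x.1, j) y := by
  rw [Matrix.mul_apply, Fintype.sum_prod_type, Finset.sum_eq_single x.1]
  · simp [Neta]
  · intro e _ he
    simp [Neta, he.symm]
  · simp

lemma Neta_sq (n : ℕ) : Neta p E n * Neta p E n = (p : ℤ_[p]) ^ n • 1 := by
  ext x y
  rw [Neta_mul_apply]
  simp only [Neta, Matrix.of_apply, mul_ite, mul_zero]
  have h := congrFun (congrFun (slM_eta_sq (p := p) n) x.2) y.2
  rw [Matrix.mul_apply, Matrix.smul_apply] at h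
  by_cases hxy : x.1 = y.1
  · simp only [hxy, if_true]
    rw [h, Matrix.smul_apply, Matrix.one_apply, Matrix.one_apply]
    simp [Prod.ext_iff, hxy]
  · simp only [hxy, if_false, Finset.sum_const_zero]
    rw [Matrix.smul_apply, Matrix.one_apply_ne, smul_zero]
    rintro rfl
    exact hxy rfl

/-! ### the doubled data -/

/-- the operator `W` on the doubled module -/
def W2 (p : ℕ) [Fact p.Prime] (E : Type) [DecidableEq E] (n : ℕ) :
    Matrix ((E × Bool) × Fin (n + 1)) ((E × Bool) × Fin (n + 1)) ℤ_[p] :=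
  bag fun _ => Neta p E n

omit [Fintype E] in
lemma W2_apply (n : ℕ) (x y : (E × Bool) × Fin (n + 1)) : W2 p E n x y =
    if x.1.2 = !y.1.2 ∧ x.1.1 = y.1.1 then sl n (etaM p) x.2 y.2 else 0 := by
  rw [W2, bag_apply, Neta, Matrix.of_apply]
  by_cases h : x.1.2 = y.1.2
  · rw [if_pos h, if_neg]
    rintro ⟨h', -⟩
    rw [h] at h'
    exact absurd h' (by cases y.1.2 <;> simp)
  · rw [if_neg h]
    have h' : x.1.2 = !y.1.2 := by
      revert h; cases x.1.2 <;> cases y.1.2 <;> simp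
    simp [h', slM_apply]

/-- **The doubled data.** -/
def dat2 {h : ℕ} (hE : Fintype.card E = (p + 1) * h) (hV : Fintype.card V = h)
    (D : Gam p (E × Bool)) (ι : Bool → ∀ n : ℕ, Matrix (E × Fin (n + 1)) (V × Fin (n + 1)) ℤ_[p])
    (π : Bool → ∀ n : ℕ, Matrix (V × Fin (n + 1)) (E × Fin (n + 1)) ℤ_[p])
    (hπι : ∀ b n, Even n → π b n * ι b n = ((p : ℤ_[p]) + 1) • 1)
    (hU : ∀ n, Even n → Um D n = bag fun b => Neta p E n * (ι (!b) n * π (!b) n - 1)) :
    Dat p (2 * h) (E × Bool) (V × Bool) where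
  toGam := D
  cardE := by rw [Fintype.card_prod, Fintype.card_bool, hE]; ring
  cardV := by rw [Fintype.card_prod, Fintype.card_bool, hV]; ring
  σ := ⟨fun x => (x.1, !x.2), fun x => (x.1, !x.2), fun x => by simp, fun x => by simp⟩
  W := W2 p E
  ι := fun n => bdg fun b => ι b n
  π := fun n => bdg fun b => π b n
  πι := fun n hn => by
    rw [bdg_mul_bdg, ← bdg_one, bdg_smul]
    congr 1
    funext b
    exact hπι b n hn
  WW := fun n _ => by
    rw [W2, bag_mul_bag, ← bdg_one, bdg_smul]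
    congr 1
    funext b
    exact Neta_sq n
  W0 := fun n _ x y hxy => by
    rw [W2_apply] at hxy
    split_ifs at hxy with h1
    · refine ⟨Prod.ext h1.2 h1.1, ?_⟩
      by_contra h2
      apply hxy
      rw [sl_eta n _ _ (Nat.lt_succ_iff.1 y.2.2), if_neg h2]
    · exact absurd rfl hxy
  Wdvd := fun n _ x y => by
    rw [W2_apply]
    split_ifs with h1
    · rw [sl_eta n _ _ (Nat.lt_succ_iff.1 y.2.2)]
      split_ifs
      · exact dvd_rfl
      · exact dvd_zero _
    · exact dvd_zero _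
  WU := fun n hn => by
    rw [hU n hn, W2, bdg_mul_bdg, ← bdg_one, bdg_sub, bag_mul_bdg]

section Dat2

variable {h : ℕ} (hE : Fintype.card E = (p + 1) * h) (hV : Fintype.card V = h)
    (D : Gam p (E × Bool)) (ι : Bool → ∀ n : ℕ, Matrix (E × Fin (n + 1)) (V × Fin (n + 1)) ℤ_[p])
    (π : Bool → ∀ n : ℕ, Matrix (V × Fin (n + 1)) (E × Fin (n + 1)) ℤ_[p])
    (hπι : ∀ b n, Even n → π b n * ι b n = ((p : ℤ_[p]) + 1) • 1)
    (hU : ∀ n, Even n → Um D n = bag fun b => Neta p E n * (ι (!b) n * π (!b) n - 1))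

@[simp] lemma dat2_W (n : ℕ) : (dat2 hE hV D ι π hπι hU).W n = bag fun _ => Neta p E n := rfl

@[simp] lemma dat2_ι (n : ℕ) : (dat2 hE hV D ι π hπι hU).ι n = bdg fun b => ι b n := rfl

@[simp] lemma dat2_π (n : ℕ) : (dat2 hE hV D ι π hπι hU).π n = bdg fun b => π b n := rfl

/-- The operator `T = π W ι` of the doubled data. -/
lemma dat2_T (n : ℕ) : (dat2 hE hV D ι π hπι hU).π n * (dat2 hE hV D ι π hπι hU).W n *
    (dat2 hE hV D ι π hπι hU).ι n = bag fun b => π b n * Neta p E n * ι (!b) n := by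
  rw [dat2_π, dat2_W, dat2_ι, bdg_mul_bag, bag_mul_bdg]

/-- **The action of the Hecke ring on the doubled data.** -/
def hrep2 {R : Type} [CommRing R]
    (TE : Bool → ∀ n, Even n → (R →+* Matrix (E × Fin (n + 1)) (E × Fin (n + 1)) ℤ_[p]))
    (TV : Bool → ∀ n, Even n → (R →+* Matrix (V × Fin (n + 1)) (V × Fin (n + 1)) ℤ_[p]))
    (comW : ∀ b n hn t, TE b n hn t * Neta p E n = Neta p E n * TE (!b) n hn t)
    (comι : ∀ b n hn t, TE b n hn t * ι b n = ι b n * TV b n hn t)
    (comπ : ∀ b n hn t, π b n * TE b n hn t = TV b n hn t * π b n)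
    (tri : ∀ b n hn t x y, y.2 < x.2 → (p : ℤ_[p]) ∣ TE b n hn t x y)
    (gr : Bool → ℕ → ℕ → R → Matrix E E (ZMod p))
    (gr_eq : ∀ b n hn t (i : Fin (n + 1)) e e',
      PadicInt.toZMod (TE b n hn t (e, i) (e', i)) = gr b n i t e e')
    (gr_n : ∀ b n i t, gr b (n + (p - 1)) i t = gr b n i t)
    (gr_i : ∀ b n i t, gr b n (i + (p - 1)) t = gr b n i t) :
    HRep (dat2 hE hV D ι π hπι hU) R where
  TE n hn := bdgHom fun b => TE b n hn
  TV n hn := bdgHom fun b => TV b n hn
  comW n hn t := by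
    rw [bdgHom_apply, dat2_W, bdg_mul_bag, bag_mul_bdg]
    congr 1
    funext b
    exact comW b n hn t
  comι n hn t := by
    rw [bdgHom_apply, bdgHom_apply, dat2_ι, bdg_mul_bdg, bdg_mul_bdg]
    congr 1
    funext b
    exact comι b n hn t
  comπ n hn t := by
    rw [bdgHom_apply, bdgHom_apply, dat2_π, bdg_mul_bdg, bdg_mul_bdg]
    congr 1
    funext b
    exact comπ b n hn t
  tri n hn t x y hxy := by
    rw [bdgHom_apply, bdg_apply]
    split_ifs
    · exact tri _ _ _ _ _ _ hxy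
    · exact dvd_zero _
  gr n i t := Matrix.of fun e e' => if e.2 = e'.2 then gr e.2 n i t e.1 e'.1 else 0
  gr_eq n hn t i e e' := by
    rw [bdgHom_apply, bdg_apply, Matrix.of_apply]
    simp only
    split_ifs
    · exact gr_eq _ _ _ _ _ _ _
    · exact map_zero _
  gr_n n i t := by simp only [gr_n]
  gr_i n i t := by simp only [gr_i]

/-- **The Hecke action on the doubled data, from generators.** -/
theorem exists_hrep2 {Q : Type}
    (tE : Bool → ∀ n : ℕ, Even n → Q → Matrix (E × Fin (n + 1)) (E × Fin (n + 1)) ℤ_[p])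
    (tV : Bool → ∀ n : ℕ, Even n → Q → Matrix (V × Fin (n + 1)) (V × Fin (n + 1)) ℤ_[p])
    (hcE : ∀ b n hn r s, tE b n hn r * tE b n hn s = tE b n hn s * tE b n hn r)
    (hcV : ∀ b n hn r s, tV b n hn r * tV b n hn s = tV b n hn s * tV b n hn r)
    (hW : ∀ b n hn r, tE b n hn r * Neta p E n = Neta p E n * tE (!b) n hn r)
    (hι : ∀ b n hn r, tE b n hn r * ι b n = ι b n * tV b n hn r)
    (hπ : ∀ b n hn r, π b n * tE b n hn r = tV b n hn r * π b n)
    (htri : ∀ b n hn r x y, y.2 < x.2 → (p : ℤ_[p]) ∣ tE b n hn r x y)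
    (g : Bool → ℕ → ℕ → Q → Matrix E E (ZMod p))
    (hg : ∀ b n hn r (i : Fin (n + 1)) e e',
      PadicInt.toZMod (tE b n hn r (e, i) (e', i)) = g b n i r e e')
    (hgn : ∀ b n i r, g b (n + (p - 1)) i r = g b n i r)
    (hgi : ∀ b n i r, g b n (i + (p - 1)) r = g b n i r) :
    ∃ H : HRep (dat2 hE hV D ι π hπι hU) (MvPolynomial Q ℤ),
      (∀ n hn r, H.TE n hn (MvPolynomial.X r) = bdg fun b => tE b n hn r) ∧
      (∀ n hn r, H.TV n hn (MvPolynomial.X r) = bdg fun b => tV b n hn r) ∧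
      ∀ n, Even n → ∀ i r, H.gr n i (MvPolynomial.X r) =
        Matrix.of fun e e' => if e.2 = e'.2 then g e.2 n i r e.1 e'.1 else 0 := by
  refine exists_hrep (dat2 hE hV D ι π hπι hU) (fun n hn r => bdg fun b => tE b n hn r)
    (fun n hn r => bdg fun b => tV b n hn r) (fun n hn r s => ?_) (fun n hn r s => ?_)
    (fun n hn r => ?_) (fun n hn r => ?_) (fun n hn r => ?_) (fun n hn r x y hxy => ?_)
    (fun n i r => Matrix.of fun e e' => if e.2 = e'.2 then g e.2 n i r e.1 e'.1 else 0)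
    (fun n hn r i e e' => ?_) (fun n i r => ?_) (fun n i r => ?_)
  · simp only [bdg_mul_bdg, hcE _ _ _ r s]
  · simp only [bdg_mul_bdg, hcV _ _ _ r s]
  · simp only [dat2_W, bdg_mul_bag, bag_mul_bdg, hW]
  · simp only [dat2_ι, bdg_mul_bdg, hι]
  · simp only [dat2_π, bdg_mul_bdg, hπ]
  · rw [bdg_apply]
    split_ifs
    · exact htri _ _ _ _ _ _ hxy
    · exact dvd_zero _
  · rw [bdg_apply, Matrix.of_apply]
    simp only
    split_ifs
    · exact hg _ _ _ _ _ _ _
    · exact map_zero _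
  · simp only [hgn]
  · simp only [hgi]

end Dat2

end Gouvea.PS
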