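import Pool.Agent.Work.MP_d3517d_nt.PS.Ops2
import Pool.Agent.Work.MP_d3517d_nt.PS.Block

/-!
# The matrices of the doubled datum (MP_d3517d_nt, partial symbols)
-/

open Finset Matrix

noncomputable section

namespace Gouvea.PS

section General

variable {T C k : Type} [Group T] [MulAction T C] [CommRing k] {m : ℕ}
variable {Γ : Subgroup T} {ρ : Γ →* Matrix (Fin m) (Fin m) k}
variable {E : Type} (L : Lev Γ E) {ζ : T} {o q : C}

/-- Matrices which agree on all symbols are equal. -/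
theorem mat_ext_gen [Fintype E] [DecidableEq E] (hT : IsTree T C ζ o q)
    (hζ : ∃ h : ζ ∈ Γ, ρ ⟨ζ, h⟩ = 1) {Z : Type}
    {A B : Matrix Z (E × Fin m) k}
    (h : ∀ φ ∈ Symb C ρ, (A *ᵥ fun z => φ (L.r z.1 • o) (L.r z.1 • q) z.2) =
      B *ᵥ fun z => φ (L.r z.1 • o) (L.r z.1 • q) z.2) : A = B := by
  have key : ∀ v, A *ᵥ v = B *ᵥ v := by
    intro v
    obtain ⟨φ, hφ, hv⟩ := exists_symb L hT hζ v
    have h1 : (fun z : E × Fin m => φ (L.r z.1 • o) (L.r z.1 • q) z.2) = v :=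
      funext fun z => hv z.1 z.2
    rw [← h1]
    exact h φ hφ
  ext i j
  have := congrFun (key (Pi.single j 1)) i
  simpa [Matrix.mulVec_single] using this

end General

/-- the coordinates of a function -/
def cv {k : Type} (N n : ℕ) (φ : Cusp → Cusp → Fin (n + 1) → k) : Vx N × Fin (n + 1) → k :=
  fun z => φ (rp N z.1 • inf) (rp N z.1 • qrt) z.2

variable {k : Type} [CommRing k] {M N p n : ℕ}

lemma cv_smul (N : ℕ) (c : k) (φ : Cusp → Cusp → Fin (n + 1) → k) :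
    cv N n (c • φ) = c • cv N n φ := rfl

lemma cv_sub (N : ℕ) (φ ψ : Cusp → Cusp → Fin (n + 1) → k) :
    cv N n (φ - ψ) = cv N n φ - cv N n ψ := rfl

variable (k) in
/-- the operator `Σ_j ga (A_j) (g_j)` -/
def gaS (n : ℕ) {J : Type} [Fintype J] (A : J → Matrix (Fin 2) (Fin 2) ℤ) (g : J → S4) :
    (Cusp → Cusp → Fin (n + 1) → k) →ₗ[k] (Cusp → Cusp → Fin (n + 1) → k) :=
  ∑ j, ga k n (A j) (g j)

lemma gaS_apply {J : Type} [Fintype J] (A : J → Matrix (Fin 2) (Fin 2) ℤ) (g : J → S4)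
    (φ : Cusp → Cusp → Fin (n + 1) → k) : gaS k n A g φ = ∑ j, ga k n (A j) (g j) φ := by
  rw [gaS, LinearMap.sum_apply]

/-- its matrix, from level `M` (representation `ρ`) to level `N` -/
def gaM (N : ℕ) (ρ : G0 M →* Matrix (Fin (n + 1)) (Fin (n + 1)) k) {J : Type} [Fintype J]
    (A : J → Matrix (Fin 2) (Fin 2) ℤ) (g : J → S4) :
    Matrix (Vx N × Fin (n + 1)) (Vx M × Fin (n + 1)) k :=
  opM (lev0 M) isTree (lev0 N) ρ (fun j => slk n ((A j).map (Int.cast : ℤ → k)))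
    (fun j x => g j • x)

lemma gaM_mulVec [NeZero M] {ρ : G0 M →* Matrix (Fin (n + 1)) (Fin (n + 1)) k} {J : Type}
    [Fintype J] (A : J → Matrix (Fin 2) (Fin 2) ℤ) (g : J → S4)
    {φ : Cusp → Cusp → Fin (n + 1) → k} (h : φ ∈ Symb Cusp ρ) :
    gaM N ρ A g *ᵥ cv M n φ = cv N n (gaS k n A g φ) := by
  funext z
  rw [gaS_apply]
  have := opM_mulVec (lev0 M) isTree (lev0 N)
    (fun j => slk n ((A j).map (Int.cast : ℤ → k))) (fun j x => g j • x) h z
  rw [gaM]
  refine this.trans ?_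
  rw [op_apply]
  simp only [cv, Finset.sum_apply]
  rfl

/-- Matrices which agree on all plain symbols are equal. -/
theorem mat_ext_P [NeZero M] (hn : Even n) {Z : Type}
    {A B : Matrix Z (Vx M × Fin (n + 1)) k}
    (h : ∀ φ ∈ Sym k M n, A *ᵥ cv M n φ = B *ᵥ cv M n φ) : A = B :=
  mat_ext_gen (lev0 M) isTree (rho_ng k M hn) fun φ hφ => h φ (by rw [Sym_eq]; exact hφ)

/-- Matrices which agree on all twisted symbols are equal. -/
theorem mat_ext_T [NeZero M] [NeZero p] (hn : Even n) {Z : Type}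
    {A B : Matrix Z (Vx (M * p) × Fin (n + 1)) k}
    (h : ∀ φ ∈ Symb Cusp (rhoT k M p n), A *ᵥ cv (M * p) n φ = B *ᵥ cv (M * p) n φ) : A = B :=
  mat_ext_gen (lev0 (M * p)) isTree (rhoT_ng hn) h

/-! ### the matrices -/

variable [Fact p.Prime]

lemma etaM_eq : etaM p = (et p).map (Int.cast : ℤ → ℤ_[p]) := by
  ext i j
  fin_cases i <;> fin_cases j <;> simp [etaM, et]

lemma slM_eq_slk (n : ℕ) (g : Matrix (Fin 2) (Fin 2) ℤ_[p]) : slM n g = slk n g := rfl

lemma Neta_mulVec [NeZero N] (φ : Cusp → Cusp → Fin (n + 1) → ℤ_[p]) :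
    Neta p (Vx N) n *ᵥ cv N n φ = cv N n (ga ℤ_[p] n (et p) 1 φ) := by
  funext z
  simp only [Matrix.mulVec, dotProduct, Neta, Matrix.of_apply, cv, ga_apply]
  rw [Fintype.sum_prod_type, Finset.sum_eq_single z.1]
  · simp only [if_true, one_smul, etaM_eq]
    rfl
  · intro e _ he
    simp [he.symm]
  · simp

/-- the matrices of `ι` -/
def iM (M p : ℕ) [Fact p.Prime] (b : Bool) (n : ℕ) :
    Matrix (Vx (M * p) × Fin (n + 1)) (Vx M × Fin (n + 1)) ℤ_[p] :=
  gaM (M * p) (rho ℤ_[p] M n) (fun _ : Unit => if b then 1 else ss)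
    (fun _ => if b then 1 else dl p)

/-- the representation of the copy `b` at level `M p` -/
def rhoE (M p : ℕ) [Fact p.Prime] (b : Bool) (n : ℕ) :
    G0 (M * p) →* Matrix (Fin (n + 1)) (Fin (n + 1)) ℤ_[p] :=
  if b then rho ℤ_[p] (M * p) n else rhoT ℤ_[p] M p n

/-- the matrices of `π` -/
def pM (M p : ℕ) [Fact p.Prime] (b : Bool) (n : ℕ) :
    Matrix (Vx M × Fin (n + 1)) (Vx (M * p) × Fin (n + 1)) ℤ_[p] :=
  gaM M (rhoE M p b n)
    (fun i : Option (Fin p) => if b then (kap M p i).1 else ss * (kau M p i).1)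
    (fun i => if b then kap M p i else dr p * kau M p i)

/-- the matrices of `U`, by row copy -/
def uM (M p : ℕ) [Fact p.Prime] (b : Bool) (n : ℕ) :
    Matrix (Vx (M * p) × Fin (n + 1)) (Vx (M * p) × Fin (n + 1)) ℤ_[p] :=
  gaM (M * p) (rhoE M p (!b) n)
    (fun j : Fin p => if b then ss * (kau M p (some j)).1 * ss * et p
      else (kap M p (some j)).1 * et p)
    (fun j => if b then dr p * kau M p (some j) * dl p else kap M p (some j))

/-- the matrices of `T_l` at level `M` -/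
def tV (M p n l : ℕ) [Fact p.Prime] :
    Matrix (Vx M × Fin (n + 1)) (Vx M × Fin (n + 1)) ℤ_[p] :=
  gaM M (rho ℤ_[p] M n) (fun i : Ix M l => (bet M l i).1) (fun i => bet M l i)

/-- the matrices of `T_l` at level `M p` -/
def tE (M p : ℕ) [Fact p.Prime] (b : Bool) (n l : ℕ) :
    Matrix (Vx (M * p) × Fin (n + 1)) (Vx (M * p) × Fin (n + 1)) ℤ_[p] :=
  gaM (M * p) (rhoE M p b n)
    (fun i : Ix M l => if b then (bet M l i).1 else ce p (bet M l i).1) (fun i => bet M l i)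

end Gouvea.PS
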