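import Pool.Agent.Work.MP_d3517d_nt.PS.Entries
import Pool.Agent.Work.MP_d3517d_nt.PS.MatOf

/-!
# The edges data of the doubled symbols, second form (MP_d3517d_nt, partial symbols)
-/

open Finset Matrix

noncomputable section

namespace Gouvea.PS

variable {p : ℕ} [Fact p.Prime]

/-- **The edges data of the doubled symbols.** -/
theorem exists_gamU {M : ℕ} [NeZero (M * p)] (hM : 4 ∣ M) (hpM : ¬ p ∣ M) :
    ∃ D : Gam p (Vx (M * p) × Bool), ∀ n, Um D n = bag fun b => uM M p b n := by
  obtain ⟨D, hD⟩ := exists_gam2 (p := p) hM hpM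
  refine ⟨D, fun n => ?_⟩
  rw [hD n]
  refine congrArg bag (funext fun b => ?_)
  cases b
  · simp only [uM, gaM, rhoE, Bool.not_false, if_true, Bool.false_eq_true, if_false, UA_false,
      Uh_false, rho2_true]
  · simp only [uM, gaM, rhoE, Bool.not_true, if_true, Bool.false_eq_true, if_false, UA_true,
      Uh_true, rho2_false]

end Gouvea.PS
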