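import Pool.Agent.Work.MP_d3517d_nt.PS.Hecke

/-!
# The Hecke operators of the twisted copy
-/

open Polynomial Finset Matrix

noncomputable section

namespace Gouvea.PS

section Hecke

/-- `U_l` by the representatives `m b`, `(m, l) = 1` -/
theorem UAct.Uop_mul {X : Type*} [AddCommMonoid X] {s : ℤ → ℤ → ℤ → X → X} (h : UAct s) {x : X}
    (hx : s 1 1 1 x = x) (l m : ℕ) (hl : 0 < l) (hlm : Nat.Coprime l m) :
    ∑ b ∈ range l, s 1 ((m : ℤ) * b) l x = Uop s l x := by
  have hl' : (0 : ℤ) < l := by exact_mod_cast hl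
  have h1 : ∀ b ∈ range l, s 1 ((m : ℤ) * b) l x = s 1 ((m * b % l : ℕ) : ℤ) l x := by
    intro b _
    refine h.congr hx odd_one hl' ?_
    push_cast
    exact (Int.mod_modEq _ _).symm
  rw [Uop, sum_congr rfl h1]
  refine Finset.sum_bij (fun b _ => m * b % l) ?_ ?_ ?_ ?_
  · intro b _
    exact mem_range.2 (Nat.mod_lt _ hl)
  · intro b hb b' hb' hbb
    have h3 : m * b ≡ m * b' [MOD l] := hbb
    have h4 : b ≡ b' [MOD l] := Nat.ModEq.cancel_left_of_coprime hlm h3
    exact Nat.ModEq.eq_of_lt_of_lt h4 (mem_range.1 hb) (mem_range.1 hb')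
  · intro c hc
    have h5 : Function.Surjective (fun b : Fin l => (⟨m * b % l, Nat.mod_lt _ hl⟩ : Fin l)) := by
      apply Finite.surjective_of_injective
      intro b b' hbb
      have h3 : m * (b : ℕ) ≡ m * b' [MOD l] := congrArg Fin.val hbb
      have h4 : (b : ℕ) ≡ b' [MOD l] := Nat.ModEq.cancel_left_of_coprime hlm h3
      exact Fin.ext (Nat.ModEq.eq_of_lt_of_lt h4 b.2 b'.2)
    obtain ⟨b, hb⟩ := h5 ⟨c, mem_range.1 hc⟩
    exact ⟨b, mem_range.2 b.2, by simpa using congrArg Fin.val hb⟩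
  · intro b _
    rfl

variable (k : Type) [CommRing k]

/-- `T_l`, `U_l` on the twisted copy -/
def heckeu (M p n l : ℕ) :
    (Cusp → Cusp → Fin (n + 1) → k) →ₗ[k] (Cusp → Cusp → Fin (n + 1) → k) :=
  (∑ b ∈ range l, act k n (upS 1 (p * b) l)) + if l ∣ M then 0 else act k n (upS l 0 1)

variable {k}

theorem heckeu_eq {M p n l : ℕ} (hp : p.Prime) (hl : l.Prime) (hlp : l ≠ p)
    {φ : Cusp → Cusp → Fin (n + 1) → k} (hφ : act k n (upS 1 1 1) φ = φ) :
    heckeu k M p n l φ = hecke k M n l φ := by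
  have hcop : Nat.Coprime l p := (Nat.coprime_primes hl hp).2 hlp
  have hu := uact (k := k) n
  have h1 : ∑ b ∈ range l, act k n (upS 1 ((p : ℤ) * b) l) φ =
      ∑ b ∈ range l, act k n (upS 1 b l) φ := hu.Uop_mul hφ l p hl.pos hcop
  rw [heckeu, hecke, LinearMap.add_apply, LinearMap.add_apply, LinearMap.sum_apply,
    LinearMap.sum_apply, h1]

end Hecke

end Gouvea.PS
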