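import Pool.Agent.Work.MP_d3517d_nt.HRepOf

/-!
# Matrices made of slashes by matrices which are upper triangular modulo `p`

`utM n = Σ_s co · sl n g` (with targets): triangular modulo `p`, the graded pieces are periodic in
the weight and in the level, and twisting by the determinant shifts the level.
-/

set_option autoImplicit false

open Finset Matrix

noncomputable section

namespace Gouvea.PS

variable {p : ℕ} [Fact p.Prime] {E E' : Type} [DecidableEq E']

/-- the matrix `Σ_s co · sl n g` -/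
def utM (S : E → Type) [∀ e, Fintype (S e)] (co : ∀ e, S e → ℤ_[p]) (tgt : ∀ e, S e → E')
    (g : ∀ e, S e → Matrix (Fin 2) (Fin 2) ℤ_[p]) (n : ℕ) :
    Matrix (E × Fin (n + 1)) (E' × Fin (n + 1)) ℤ_[p] :=
  Matrix.of fun x y => ∑ s : S x.1,
    if tgt x.1 s = y.1 then co x.1 s * sl n (g x.1 s) x.2 y.2 else 0

/-- the graded pieces -/
def utG (S : E → Type) [∀ e, Fintype (S e)] (co : ∀ e, S e → ℤ_[p]) (tgt : ∀ e, S e → E')
    (g : ∀ e, S e → Matrix (Fin 2) (Fin 2) ℤ_[p]) (n i : ℕ) : Matrix E E' (ZMod p) :=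
  Matrix.of fun e e' => ∑ s : S e, if tgt e s = e' then PadicInt.toZMod (co e s) *
    (PadicInt.toZMod (g e s 0 0) ^ i * (PadicInt.toZMod (g e s 1 1) ^ n *
      (PadicInt.toZMod (g e s 1 1))⁻¹ ^ i)) else 0

section

variable (S : E → Type) [∀ e, Fintype (S e)] (co : ∀ e, S e → ℤ_[p]) (tgt : ∀ e, S e → E')
  (g : ∀ e, S e → Matrix (Fin 2) (Fin 2) ℤ_[p])

theorem utM_tri (h10 : ∀ e s, (p : ℤ_[p]) ∣ g e s 1 0) (n : ℕ) (x : E × Fin (n + 1))
    (y : E' × Fin (n + 1)) (hxy : y.2 < x.2) : (p : ℤ_[p]) ∣ utM S co tgt g n x y := by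
  rw [utM, Matrix.of_apply]
  refine Finset.dvd_sum fun s _ => ?_
  split_ifs
  · refine Dvd.dvd.mul_left ?_ _
    rw [← toZMod_eq_zero_iff, toZMod_sl]
    refine slR_upper_lt n _ ?_ hxy
    rw [Matrix.map_apply, toZMod_eq_zero_iff]
    exact h10 _ _
  · exact dvd_zero _

theorem utM_gr (h10 : ∀ e s, (p : ℤ_[p]) ∣ g e s 1 0) (h11 : ∀ e s, IsUnit (g e s 1 1)) (n : ℕ)
    (i : Fin (n + 1)) (e : E) (e' : E') :
    PadicInt.toZMod (utM S co tgt g n (e, i) (e', i)) = utG S co tgt g n i e e' := by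
  rw [utM, utG, Matrix.of_apply, Matrix.of_apply, map_sum]
  refine Finset.sum_congr rfl fun s _ => ?_
  simp only
  split_ifs
  · have h1 : PadicInt.toZMod (g e s 1 1) ≠ 0 := ((h11 e s).map _).ne_zero
    rw [map_mul, toZMod_sl, slR_upper_diag, Matrix.map_apply, Matrix.map_apply]
    · congr 2
      rw [inv_pow, ← div_eq_mul_inv, eq_div_iff (pow_ne_zero _ h1), ← pow_add,
        Nat.sub_add_cancel (Nat.lt_succ_iff.1 i.2)]
    · rw [Matrix.map_apply, toZMod_eq_zero_iff]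
      exact h10 _ _
  · exact map_zero _

theorem utG_n (h11 : ∀ e s, IsUnit (g e s 1 1)) (n i : ℕ) :
    utG S co tgt g (n + (p - 1)) i = utG S co tgt g n i := by
  ext e e'
  rw [utG, utG, Matrix.of_apply, Matrix.of_apply]
  refine Finset.sum_congr rfl fun s _ => ?_
  have h1 : PadicInt.toZMod (g e s 1 1) ≠ 0 := ((h11 e s).map _).ne_zero
  rw [pow_add, ZMod.pow_card_sub_one_eq_one h1, mul_one]

theorem utG_i (h00 : ∀ e s, IsUnit (g e s 0 0)) (h11 : ∀ e s, IsUnit (g e s 1 1)) (n i : ℕ) :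
    utG S co tgt g n (i + (p - 1)) = utG S co tgt g n i := by
  ext e e'
  rw [utG, utG, Matrix.of_apply, Matrix.of_apply]
  refine Finset.sum_congr rfl fun s _ => ?_
  have h0 : PadicInt.toZMod (g e s 0 0) ≠ 0 := ((h00 e s).map _).ne_zero
  have h1 : PadicInt.toZMod (g e s 1 1) ≠ 0 := ((h11 e s).map _).ne_zero
  rw [pow_add, pow_add, ZMod.pow_card_sub_one_eq_one h0,
    ZMod.pow_card_sub_one_eq_one (inv_ne_zero h1), mul_one, mul_one]

/-- **Twist**: if all the determinants are `d` modulo `p`, then passing from `(n, i)` to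
`(n + 2 j, i + j)` multiplies the graded piece by `d ^ j`. -/
theorem utG_twist (d : ZMod p) (h10 : ∀ e s, (p : ℤ_[p]) ∣ g e s 1 0)
    (h11 : ∀ e s, IsUnit (g e s 1 1)) (hd : ∀ e s, PadicInt.toZMod (g e s).det = d) (n i j : ℕ) :
    utG S co tgt g (n + 2 * j) (i + j) = d ^ j • utG S co tgt g n i := by
  ext e e'
  rw [utG, utG, Matrix.smul_apply, Matrix.of_apply, Matrix.of_apply, smul_eq_mul, Finset.mul_sum]
  refine Finset.sum_congr rfl fun s _ => ?_
  have h1 : PadicInt.toZMod (g e s 1 1) ≠ 0 := ((h11 e s).map _).ne_zero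
  have h2 : PadicInt.toZMod (g e s 0 0) * PadicInt.toZMod (g e s 1 1) = d := by
    have h4 := Matrix.det_fin_two (g e s)
    have h5 : PadicInt.toZMod (g e s 1 0) = 0 := (toZMod_eq_zero_iff _).2 (h10 e s)
    rw [← hd e s, h4, map_sub, map_mul, map_mul, h5, mul_zero, sub_zero]
  split_ifs
  · rw [← h2, pow_add, pow_add, pow_add, mul_pow, pow_mul']
    have h3 : PadicInt.toZMod (g e s 1 1) ^ 2 * (PadicInt.toZMod (g e s 1 1))⁻¹ =
        PadicInt.toZMod (g e s 1 1) := by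
      rw [pow_two, mul_assoc, mul_inv_cancel₀ h1, mul_one]
    have h4 : (PadicInt.toZMod (g e s 1 1) ^ j) ^ 2 * (PadicInt.toZMod (g e s 1 1))⁻¹ ^ j =
        PadicInt.toZMod (g e s 1 1) ^ j := by
      rw [← pow_mul, mul_comm j 2, pow_mul, ← mul_pow, h3]
    calc _ = PadicInt.toZMod (co e s) * (PadicInt.toZMod (g e s 0 0) ^ i *
          (PadicInt.toZMod (g e s 1 1) ^ n * (PadicInt.toZMod (g e s 1 1))⁻¹ ^ i)) *
          (PadicInt.toZMod (g e s 0 0) ^ j * ((PadicInt.toZMod (g e s 1 1) ^ j) ^ 2 *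
            (PadicInt.toZMod (g e s 1 1))⁻¹ ^ j)) := by ring
      _ = _ := by rw [h4]; ring
  · rw [mul_zero]

end

end Gouvea.PS
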