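import Pool.Agent.Work.MP_d3517d_nt.PS.GamOf
import Pool.Agent.Work.MP_d3517d_nt.PS.UTri

/-!
# Operators with upper triangular matrices modulo `p` (MP_d3517d_nt, partial symbols)

* `mat_ext` : two matrices which agree on the coordinates of all symbols are equal, and
  `opM_mul_mulVec` : the product of the matrices of two operators;
* `opM_tri`, `opM_gr`, `opG_n`, `opG_i`, `opG_twist` : the operators `φ ↦ Σ_j φ(h_j x, h_j y) | a_j`
  with `c(γ) a_j` upper triangular modulo `p` are triangular modulo `p`, with graded pieces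
  periodic in the weight and in the level, and compatible with the twist by the determinant.
-/

set_option autoImplicit false

open Finset Matrix

noncomputable section

namespace Gouvea.PS

section Mat

variable {T C : Type} [Group T] [MulAction T C] {k : Type} [CommRing k] {m : ℕ}
  {Γ Γ' Γ'' : Subgroup T} {E E' E'' : Type}
  {ζ : T} {o q : C} (hT : IsTree T C ζ o q)

/-- the coordinates of a function -/
def crv (L : Lev Γ E) (o q : C) (φ : C → C → Fin m → k) : E × Fin m → k :=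
  fun w => φ (L.r w.1 • o) (L.r w.1 • q) w.2

include hT in
/-- Two matrices which agree on the coordinates of all symbols are equal. -/
theorem mat_ext [Fintype E] [DecidableEq E] (L : Lev Γ E)
    {ρ : Γ →* Matrix (Fin m) (Fin m) k} (hζ : ∃ h : ζ ∈ Γ, ρ ⟨ζ, h⟩ = 1) {Y : Type}
    {A B : Matrix Y (E × Fin m) k}
    (h : ∀ φ ∈ Symb C ρ, A *ᵥ crv L o q φ = B *ᵥ crv L o q φ) : A = B := by
  have h2 : ∀ v, A *ᵥ v = B *ᵥ v := by
    intro v
    obtain ⟨φ, h1, h2⟩ := exists_symb L hT hζ v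
    have h3 : crv L o q φ = v := funext fun x => h2 x.1 x.2
    rw [← h3]
    exact h φ h1
  ext y x
  have h3 := congrFun (h2 (Pi.single x 1)) y
  simpa using h3

theorem opM_mulVec_crv [Fintype E] [DecidableEq E] (L : Lev Γ E) (L' : Lev Γ' E')
    {J : Type} [Fintype J] {ρ : Γ →* Matrix (Fin m) (Fin m) k}
    (A : J → Matrix (Fin m) (Fin m) k) (h : J → C → C) {φ : C → C → Fin m → k}
    (hφ : φ ∈ Symb C ρ) :
    opM L hT L' ρ A h *ᵥ crv L o q φ = crv L' o q (op A h φ) :=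
  funext fun z => opM_mulVec L hT L' A h hφ z

/-- the product of the matrices of two operators -/
theorem opM_mul_mulVec [Fintype E] [DecidableEq E] [Fintype E'] [DecidableEq E'] (L : Lev Γ E)
    (L' : Lev Γ' E') (L'' : Lev Γ'' E'') {J J' : Type} [Fintype J] [Fintype J']
    {ρ : Γ →* Matrix (Fin m) (Fin m) k} {ρ' : Γ' →* Matrix (Fin m) (Fin m) k}
    (A : J → Matrix (Fin m) (Fin m) k) (h : J → C → C)
    (A' : J' → Matrix (Fin m) (Fin m) k) (h' : J' → C → C) {φ : C → C → Fin m → k}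
    (hφ : φ ∈ Symb C ρ) (hφ' : op A h φ ∈ Symb C ρ') :
    (opM L' hT L'' ρ' A' h' * opM L hT L' ρ A h) *ᵥ crv L o q φ =
      crv L'' o q (op A' h' (op A h φ)) := by
  rw [← Matrix.mulVec_mulVec, opM_mulVec_crv hT L L' A h hφ, opM_mulVec_crv hT L' L'' A' h' hφ']

end Mat

section Tri

variable {p : ℕ} [Fact p.Prime] {T C : Type} [Group T] [MulAction T C] {Γ Γ' : Subgroup T}
  {E E' : Type} (L : Lev Γ E) (L' : Lev Γ' E') {ζ : T} {o q : C} (hT : IsTree T C ζ o q)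

/-- the index set of the terms of the operator -/
abbrev opS {J : Type} (h : J → C → C) (e : E') : Type :=
  Σ j : J, {g : T // g ∈ (hT.X (h j (L'.r e • o)) (h j (L'.r e • q))).support}

variable {J : Type} [Fintype J] (c : Γ → Matrix (Fin 2) (Fin 2) ℤ_[p])
  (a : J → Matrix (Fin 2) (Fin 2) ℤ_[p]) (h : J → C → C)

/-- the graded pieces of the operator -/
def opG [DecidableEq E] (n i : ℕ) : Matrix E' E (ZMod p) :=
  utG (opS L' hT h)
    (fun e s => ((hT.X (h s.1 (L'.r e • o)) (h s.1 (L'.r e • q)) s.2.1 : ℤ) : ℤ_[p]))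
    (fun _ s => L.cls s.2.1) (fun _ s => c (L.γ s.2.1) * a s.1) n i

theorem opM_eq_utM [DecidableEq E] {n : ℕ} {ρ : Γ →* Matrix (Fin (n + 1)) (Fin (n + 1)) ℤ_[p]}
    (hρ : ∀ g, ρ g = slM n (c g)) :
    opM L hT L' ρ (fun j => slM n (a j)) h = utM (opS L' hT h)
      (fun e s => ((hT.X (h s.1 (L'.r e • o)) (h s.1 (L'.r e • q)) s.2.1 : ℤ) : ℤ_[p]))
      (fun _ s => L.cls s.2.1) (fun _ s => c (L.γ s.2.1) * a s.1) n := by
  ext x y
  rw [opM, utM, Matrix.of_apply, Matrix.of_apply, ← Finset.univ_sigma_univ, Finset.sum_sigma]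
  refine Finset.sum_congr rfl fun j _ => ?_
  rw [mul_evM_apply, ← Finset.sum_coe_sort]
  refine Finset.sum_congr rfl fun g _ => ?_
  split_ifs with h1
  · rw [hρ, ← slM_mul, slM_apply]
  · rfl

theorem opM_tri [DecidableEq E] {n : ℕ} {ρ : Γ →* Matrix (Fin (n + 1)) (Fin (n + 1)) ℤ_[p]}
    (hρ : ∀ g, ρ g = slM n (c g)) (h10 : ∀ g j, (p : ℤ_[p]) ∣ (c g * a j) 1 0)
    (x : E' × Fin (n + 1)) (y : E × Fin (n + 1)) (hxy : y.2 < x.2) :
    (p : ℤ_[p]) ∣ opM L hT L' ρ (fun j => slM n (a j)) h x y := by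
  rw [opM_eq_utM L L' hT c a h hρ]
  exact utM_tri _ _ _ _ (fun _ _ => h10 _ _) n x y hxy

theorem opM_gr [DecidableEq E] {n : ℕ} {ρ : Γ →* Matrix (Fin (n + 1)) (Fin (n + 1)) ℤ_[p]}
    (hρ : ∀ g, ρ g = slM n (c g)) (h10 : ∀ g j, (p : ℤ_[p]) ∣ (c g * a j) 1 0)
    (h11 : ∀ g j, IsUnit ((c g * a j) 1 1)) (i : Fin (n + 1)) (e : E') (e' : E) :
    PadicInt.toZMod (opM L hT L' ρ (fun j => slM n (a j)) h (e, i) (e', i)) =
      opG L L' hT c a h n i e e' := by
  rw [opM_eq_utM L L' hT c a h hρ]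
  exact utM_gr _ _ _ _ (fun _ _ => h10 _ _) (fun _ _ => h11 _ _) n i e e'

theorem opG_n [DecidableEq E] (h11 : ∀ g j, IsUnit ((c g * a j) 1 1)) (n i : ℕ) :
    opG L L' hT c a h (n + (p - 1)) i = opG L L' hT c a h n i :=
  utG_n _ _ _ _ (fun _ _ => h11 _ _) n i

theorem opG_i [DecidableEq E] (h00 : ∀ g j, IsUnit ((c g * a j) 0 0))
    (h11 : ∀ g j, IsUnit ((c g * a j) 1 1)) (n i : ℕ) :
    opG L L' hT c a h n (i + (p - 1)) = opG L L' hT c a h n i :=
  utG_i _ _ _ _ (fun _ _ => h00 _ _) (fun _ _ => h11 _ _) n i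

theorem opG_twist [DecidableEq E] (d : ZMod p) (h10 : ∀ g j, (p : ℤ_[p]) ∣ (c g * a j) 1 0)
    (h11 : ∀ g j, IsUnit ((c g * a j) 1 1))
    (hd : ∀ g j, PadicInt.toZMod (c g * a j).det = d) (n i j : ℕ) :
    opG L L' hT c a h (n + 2 * j) (i + j) = d ^ j • opG L L' hT c a h n i :=
  utG_twist _ _ _ _ d (fun _ _ => h10 _ _) (fun _ _ => h11 _ _) (fun _ _ => hd _ _) n i j

end Tri

end Gouvea.PS
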