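import Pool.Agent.Work.MP_d3517d_nt.PS.Coord
import Pool.Agent.Work.MP_d3517d_nt.PS.Block

/-!
# The edges data of the doubled module (MP_d3517d_nt, partial symbols)

The matrices of the operators `φ ↦ Σ_j φ(h_j x, h_j y) | a_j` from one copy to the other one are
of the form `Um D n` with `D : Gam p (E × Bool)` independent of `n`.
-/

open Finset Matrix

noncomputable section

namespace Gouvea.PS

variable {p : ℕ} [Fact p.Prime]

section General

variable {T C : Type} [Group T] [MulAction T C] {Γ : Subgroup T} {E : Type} (L : Lev Γ E)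
  {ζ : T} {o q : C} (hT : IsTree T C ζ o q)

lemma mul_evM_apply [DecidableEq E] {k : Type} [CommRing k] {m : ℕ}
    (ρ : Γ →* Matrix (Fin m) (Fin m) k) (A : Matrix (Fin m) (Fin m) k) (x y : C) (i : Fin m)
    (w : E × Fin m) :
    (A * evM L hT ρ x y) i w = ∑ g ∈ (hT.X x y).support,
      if L.cls g = w.1 then ((hT.X x y g : ℤ) : k) * (A * ρ (L.γ g)) i w.2 else 0 := by
  rw [Matrix.mul_apply]
  simp only [evM, Matrix.of_apply, Finsupp.sum, Finset.mul_sum]
  rw [Finset.sum_comm]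
  refine Finset.sum_congr rfl fun g _ => ?_
  split_ifs with h
  · rw [Matrix.mul_apply, Finset.mul_sum]
    exact Finset.sum_congr rfl fun j _ => by ring
  · simp

/-- **The edges data of an operator which exchanges two copies.** -/
theorem exists_gam_op [Fintype E] [DecidableEq E] (J : Bool → Type) [∀ b, Fintype (J b)]
    (c : Bool → Γ → Matrix (Fin 2) (Fin 2) ℤ_[p])
    (ρ : Bool → ∀ n : ℕ, Γ →* Matrix (Fin (n + 1)) (Fin (n + 1)) ℤ_[p])
    (hρ : ∀ b n g, ρ b n g = slM n (c b g))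
    (a : ∀ b, J b → Matrix (Fin 2) (Fin 2) ℤ_[p]) (h : ∀ b, J b → C → C)
    (h00 : ∀ b j g, (p : ℤ_[p]) ∣ (c (!b) g * a b j) 0 0)
    (h10 : ∀ b j g, (p : ℤ_[p]) ∣ (c (!b) g * a b j) 1 0)
    (h11 : ∀ b j g, IsUnit ((c (!b) g * a b j) 1 1)) :
    ∃ D : Gam p (E × Bool), ∀ n, Um D n = bag fun b =>
      opM L hT L (ρ (!b) n) (fun j => slM n (a b j)) (h b) := by
  classical
  let X : ∀ (e : E × Bool) (j : J e.2), T →₀ ℤ := fun e j =>
    hT.X (h e.2 j (L.r e.1 • o)) (h e.2 j (L.r e.1 • q))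
  obtain ⟨D, hD⟩ := exists_gam (p := p) (E := E × Bool)
    (fun e => Σ j : J e.2, {g : T // g ∈ (X e j).support})
    (fun e s => ((X e s.1 s.2.1 : ℤ) : ℤ_[p]))
    (fun e s => (L.cls s.2.1, !e.2))
    (fun e s => c (!e.2) (L.γ s.2.1) * a e.2 s.1)
    (fun e s => h00 _ _ _) (fun e s => h10 _ _ _) (fun e s => h11 _ _ _)
  refine ⟨D, fun n => Matrix.ext fun x y => ?_⟩
  rw [hD, bag_apply, ← Finset.univ_sigma_univ, Finset.sum_sigma]
  obtain ⟨⟨e, b⟩, i⟩ := x
  obtain ⟨⟨e', b'⟩, i'⟩ := y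
  by_cases hb : b = b'
  · rw [if_pos hb]
    refine Finset.sum_eq_zero fun j _ => Finset.sum_eq_zero fun g _ => ?_
    rw [if_neg]
    intro h1
    have h2 := congrArg Prod.snd h1
    simp only at h2
    rw [hb] at h2
    exact absurd h2 (by cases b' <;> simp)
  · rw [if_neg hb]
    have hb' : (!b) = b' := by
      revert hb; cases b <;> cases b' <;> simp
    rw [opM, Matrix.of_apply]
    refine Finset.sum_congr rfl fun j _ => ?_
    rw [mul_evM_apply, ← Finset.sum_coe_sort (X (e, b) j).support]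
    refine Finset.sum_congr rfl fun g _ => ?_
    simp only [Prod.mk.injEq, hb', and_true]
    split_ifs with h1
    · rw [← hb', hρ, ← slM_mul, slM_apply]
    · rfl

end General

/-! ### shapes -/

/-- `u` is upper triangular modulo `p` with a unit in the lower right corner. -/
def IsUp (u : Matrix (Fin 2) (Fin 2) ℤ_[p]) : Prop := (p : ℤ_[p]) ∣ u 1 0 ∧ IsUnit (u 1 1)

/-- the shape of the matrices in `U` -/
def IsGm (u : Matrix (Fin 2) (Fin 2) ℤ_[p]) : Prop :=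
  (p : ℤ_[p]) ∣ u 0 0 ∧ (p : ℤ_[p]) ∣ u 1 0 ∧ IsUnit (u 1 1)

lemma isUnit_add_dvd {x y : ℤ_[p]} (hx : (p : ℤ_[p]) ∣ x) (hy : IsUnit y) : IsUnit (x + y) := by
  by_contra h
  have h1 : (p : ℤ_[p]) ∣ x + y := by
    rw [← Ideal.mem_span_singleton, ← PadicInt.maximalIdeal_eq_span_p]
    exact h
  have h2 : (p : ℤ_[p]) ∣ y := (dvd_add_right hx).1 h1
  exact PadicInt.prime_p.not_isUnit (isUnit_of_dvd_unit h2 hy)

lemma IsUp.mul_gm {u g : Matrix (Fin 2) (Fin 2) ℤ_[p]} (hu : IsUp u) (hg : IsGm g) :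
    IsGm (u * g) := by
  obtain ⟨u1, u2⟩ := hu
  obtain ⟨g1, g2, g3⟩ := hg
  refine ⟨?_, ?_, ?_⟩
  · rw [Matrix.mul_apply, Fin.sum_univ_two]
    exact dvd_add (g1.mul_left _) (g2.mul_left _)
  · rw [Matrix.mul_apply, Fin.sum_univ_two]
    exact dvd_add (g1.mul_left _) (g2.mul_left _)
  · rw [Matrix.mul_apply, Fin.sum_univ_two]
    exact isUnit_add_dvd (u1.mul_right _) (u2.mul g3)

/-- `k η` has the right shape iff the lower left entry of `k` is a unit. -/
lemma isGm_mul_eta {k : Matrix (Fin 2) (Fin 2) ℤ_[p]} (hk : IsUnit (k 1 0)) :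
    IsGm (k * etaM p) := by
  refine ⟨?_, ?_, ?_⟩
  · rw [Matrix.mul_apply, Fin.sum_univ_two]
    simp [etaM]
  · rw [Matrix.mul_apply, Fin.sum_univ_two]
    simp [etaM]
  · rw [Matrix.mul_apply, Fin.sum_univ_two]
    simpa [etaM] using hk

/-- an integer prime to `p` is a unit in `ℤ_p` -/
lemma isUnit_intCast {a : ℤ} (ha : ¬ (p : ℤ) ∣ a) : IsUnit ((a : ℤ) : ℤ_[p]) := by
  rw [PadicInt.isUnit_iff]
  refine le_antisymm (PadicInt.norm_le_one _) (not_lt.1 fun h => ha ?_)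
  rw [PadicInt.norm_int_lt_one_iff_dvd] at h
  exact h

lemma dvd_intCast {a : ℤ} (ha : (p : ℤ) ∣ a) : (p : ℤ_[p]) ∣ ((a : ℤ) : ℤ_[p]) := by
  obtain ⟨b, rfl⟩ := ha
  exact ⟨(b : ℤ_[p]), by push_cast; ring⟩

/-- an integer matrix of determinant one with `p ∣ c` -/
lemma isUp_of_int {u : Matrix (Fin 2) (Fin 2) ℤ} (hdet : ¬ (p : ℤ) ∣ u.det)
    (h10 : (p : ℤ) ∣ u 1 0) : IsUp (p := p) (u.map (Int.cast : ℤ → ℤ_[p])) := by
  refine ⟨dvd_intCast h10, isUnit_intCast fun h => hdet ?_⟩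
  rw [Matrix.det_fin_two]
  exact dvd_sub (h.mul_left _) (h10.mul_left _)

end Gouvea.PS
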