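import Mathlib

/-!
# Twisted modular symbols in coordinates (MP_d3517d_nt, partial symbols)

`T` is a group (`Γ₀(4)`) acting on a set `C` of cusps such that the edges `(g o, g q)` form a tree,
on which `T/ζ` (`ζ = -1`) acts simply transitively (`IsTree`). For a subgroup `Γ` of finite index
and a representation `ρ` of `Γ` the `Γ`-equivariant cocycles `C → C → k^m` are in bijection with
the functions `E → k^m`, `E = Γ \ T` (`Symb.crd`); and the operators
`φ ↦ Σ_j A_j φ(h_j x, h_j y)` are given by explicit matrices (`opMat`).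
-/

open Finset Matrix

noncomputable section

namespace Gouvea.PS

/-- additive functions of pairs of cusps -/
def IsCoc {C W : Type} [AddCommGroup W] (φ : C → C → W) : Prop :=
  ∀ x y z, φ x y + φ y z = φ x z

namespace IsCoc

variable {C W W' : Type} [AddCommGroup W] [AddCommGroup W']

lemma self {φ : C → C → W} (h : IsCoc φ) (x : C) : φ x x = 0 := by
  have := h x x x
  simpa using this

lemma symm {φ : C → C → W} (h : IsCoc φ) (x y : C) : φ y x = -φ x y := by
  have := h x y x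
  rw [h.self] at this
  exact (neg_eq_of_add_eq_zero_right this).symm

lemma zero : IsCoc (fun _ _ => 0 : C → C → W) := fun _ _ _ => by simp

lemma add {φ ψ : C → C → W} (h : IsCoc φ) (h' : IsCoc ψ) : IsCoc fun x y => φ x y + ψ x y :=
  fun x y z => by
    show φ x y + ψ x y + (φ y z + ψ y z) = φ x z + ψ x z
    rw [← h x y z, ← h' x y z]; abel

lemma map {φ : C → C → W} (h : IsCoc φ) (f : W →+ W') : IsCoc fun x y => f (φ x y) :=
  fun x y z => by rw [← map_add, h]

lemma comp {D : Type} {φ : C → C → W} (h : IsCoc φ) (s : D → C) :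
    IsCoc fun x y => φ (s x) (s y) := fun _ _ _ => h _ _ _

lemma sum {ι : Type} (S : Finset ι) {φ : ι → C → C → W} (h : ∀ i ∈ S, IsCoc (φ i)) :
    IsCoc fun x y => ∑ i ∈ S, φ i x y := fun x y z => by
  rw [← Finset.sum_add_distrib]
  exact Finset.sum_congr rfl fun i hi => h i hi x y z

end IsCoc

/-- The edges `(g o, g q)` form a tree and `T / ζ` acts simply transitively on them. -/
structure IsTree (T C : Type) [Group T] [MulAction T C] (ζ : T) (o q : C) : Prop where
  /-- `ζ` acts trivially -/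
  triv : ∀ x : C, ζ • x = x
  central : ∀ g : T, ζ * g = g * ζ
  /-- every function on the edges is the restriction of a cocycle -/
  ex : ∀ (W : Type) [AddCommGroup W] (Φ : T → W), (∀ g, Φ (ζ * g) = Φ g) →
    ∃ φ : C → C → W, IsCoc φ ∧ ∀ g, φ (g • o) (g • q) = Φ g
  /-- every pair of cusps is joined by a path -/
  gen : ∀ x y : C, ∃ X : T →₀ ℤ, ∀ (W : Type) [AddCommGroup W] (φ : C → C → W), IsCoc φ →
    φ x y = X.sum fun g a => a • φ (g • o) (g • q)

namespace IsTree

variable {T C : Type} [Group T] [MulAction T C] {ζ : T} {o q : C} (hT : IsTree T C ζ o q)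
include hT

/-- The path between two cusps. -/
def X (x y : C) : T →₀ ℤ := (hT.gen x y).choose

lemma X_spec (x y : C) {W : Type} [AddCommGroup W] {φ : C → C → W} (h : IsCoc φ) :
    φ x y = (hT.X x y).sum fun g a => a • φ (g • o) (g • q) :=
  (hT.gen x y).choose_spec W φ h

lemma ext {W : Type} [AddCommGroup W] {φ ψ : C → C → W} (h : IsCoc φ) (h' : IsCoc ψ)
    (he : ∀ g : T, φ (g • o) (g • q) = ψ (g • o) (g • q)) : φ = ψ := by
  funext x y
  rw [hT.X_spec x y h, hT.X_spec x y h']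
  exact Finsupp.sum_congr fun g _ => by rw [he]

end IsTree

/-- A finite index subgroup with representatives `r e` of `Γ \ T`. -/
structure Lev {T : Type} [Group T] (Γ : Subgroup T) (E : Type) where
  r : E → T
  cls : T → E
  mem : ∀ g, g * (r (cls g))⁻¹ ∈ Γ
  cls_mul : ∀ γ ∈ Γ, ∀ g, cls (γ * g) = cls g
  cls_r : ∀ e, cls (r e) = e

namespace Lev

variable {T : Type} [Group T] {Γ : Subgroup T} {E : Type} (L : Lev Γ E)

/-- `g = γ(g) r(cls g)` -/
def γ (g : T) : Γ := ⟨g * (L.r (L.cls g))⁻¹, L.mem g⟩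

lemma γ_mul_r (g : T) : (L.γ g : T) * L.r (L.cls g) = g := by simp [γ]

lemma γ_mul (u : Γ) (g : T) : L.γ ((u : T) * g) = u * L.γ g := by
  apply Subtype.ext
  simp [γ, L.cls_mul _ u.2, mul_assoc]

lemma γ_r (e : E) : L.γ (L.r e) = 1 := by
  apply Subtype.ext
  simp [γ, L.cls_r]

end Lev

section Symb

variable {T : Type} [Group T] (C : Type) [MulAction T C] {k : Type} [CommRing k] {m : ℕ}
variable {Γ : Subgroup T} (ρ : Γ →* Matrix (Fin m) (Fin m) k)

/-- the `Γ`-equivariant cocycles -/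
def Symb : Submodule k (C → C → Fin m → k) where
  carrier := {φ | IsCoc φ ∧ ∀ (g : Γ) (x y : C), φ ((g : T) • x) ((g : T) • y) = ρ g *ᵥ φ x y}
  add_mem' := by
    rintro φ ψ ⟨h, h'⟩ ⟨g, g'⟩
    exact ⟨h.add g, fun γ x y => by simp [h' γ, g' γ, Matrix.mulVec_add]⟩
  zero_mem' := ⟨IsCoc.zero, fun γ x y => by simp⟩
  smul_mem' := by
    rintro a φ ⟨h, h'⟩
    refine ⟨fun x y z => ?_, fun γ x y => by simp [h' γ, Matrix.mulVec_smul]⟩
    simp only [Pi.smul_apply]
    rw [← smul_add, h]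

variable {C ρ}

lemma mem_Symb {φ : C → C → Fin m → k} : φ ∈ Symb C ρ ↔
    IsCoc φ ∧ ∀ (g : Γ) (x y : C), φ ((g : T) • x) ((g : T) • y) = ρ g *ᵥ φ x y := Iff.rfl

variable {E : Type} (L : Lev Γ E) {ζ : T} {o q : C} (hT : IsTree T C ζ o q)

/-- The values on the edges in terms of the values at the base edges. -/
lemma edge_value {φ : C → C → Fin m → k} (h : φ ∈ Symb C ρ) (g : T) :
    φ (g • o) (g • q) = ρ (L.γ g) *ᵥ φ (L.r (L.cls g) • o) (L.r (L.cls g) • q) := by
  rw [← h.2, smul_smul, smul_smul, L.γ_mul_r]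

include hT in
lemma value {φ : C → C → Fin m → k} (h : φ ∈ Symb C ρ) (x y : C) :
    φ x y = (hT.X x y).sum fun g a =>
      a • (ρ (L.γ g) *ᵥ φ (L.r (L.cls g) • o) (L.r (L.cls g) • q)) := by
  rw [hT.X_spec x y h.1]
  exact Finsupp.sum_congr fun g _ => by rw [edge_value L h]

include hT in
lemma exists_symb (hζ : ∃ h : ζ ∈ Γ, ρ ⟨ζ, h⟩ = 1) (v : E × Fin m → k) :
    ∃ φ ∈ Symb C ρ, ∀ e i, φ (L.r e • o) (L.r e • q) i = v (e, i) := by
  obtain ⟨hζ1, hζ2⟩ := hζ
  set Φ : T → Fin m → k := fun g => ρ (L.γ g) *ᵥ fun i => v (L.cls g, i) with hΦ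
  have hΦγ : ∀ (u : Γ) (g : T), Φ ((u : T) * g) = ρ u *ᵥ Φ g := by
    intro u g
    simp only [hΦ]
    rw [L.γ_mul, L.cls_mul _ u.2, map_mul, ← Matrix.mulVec_mulVec]
  obtain ⟨φ, h1, h2⟩ := hT.ex (Fin m → k) Φ (fun g => by
    have := hΦγ ⟨ζ, hζ1⟩ g
    rw [hζ2, Matrix.one_mulVec] at this
    exact this)
  refine ⟨φ, ⟨h1, fun u => ?_⟩, fun e i => ?_⟩
  · have h3 : φ = fun x y => ρ u *ᵥ φ ((u : T)⁻¹ • x) ((u : T)⁻¹ • y) := by
      refine hT.ext h1 ?_ fun g => ?_
      · exact (h1.comp fun x => (u : T)⁻¹ • x).map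
          (AddMonoidHom.mk' (fun w => ρ u *ᵥ w) fun a b => Matrix.mulVec_add _ _ _)
      · simp only [smul_smul]
        rw [h2, h2, ← hΦγ, mul_inv_cancel_left]
    intro x y
    conv_lhs => rw [h3]
    simp
  · rw [h2]
    simp [hΦ, L.γ_r, L.cls_r]

/-- **Coordinates of twisted symbols.** -/
def crd (hζ : ∃ h : ζ ∈ Γ, ρ ⟨ζ, h⟩ = 1) : Symb C ρ ≃ₗ[k] (E × Fin m → k) :=
  LinearEquiv.ofBijective
    { toFun := fun φ x => φ.1 (L.r x.1 • o) (L.r x.1 • q) x.2
      map_add' := fun _ _ => rfl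
      map_smul' := fun _ _ => rfl } (by
    constructor
    · intro φ ψ h
      apply Subtype.ext
      refine hT.ext φ.2.1 ψ.2.1 fun g => ?_
      rw [edge_value L φ.2, edge_value L ψ.2]
      congr 1
      funext i
      exact congrFun h (L.cls g, i)
    · intro v
      obtain ⟨φ, h, h'⟩ := exists_symb L hT hζ v
      exact ⟨⟨φ, h⟩, funext fun x => h' x.1 x.2⟩)

@[simp] lemma crd_apply (hζ : ∃ h : ζ ∈ Γ, ρ ⟨ζ, h⟩ = 1) (φ : Symb C ρ) (x : E × Fin m) :
    crd L hT hζ φ x = φ.1 (L.r x.1 • o) (L.r x.1 • q) x.2 := rfl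

end Symb

section Op

variable {C k : Type} [CommRing k] {m : ℕ}

/-- The operator `φ ↦ Σ_j A_j φ(h_j x, h_j y)`. -/
def op {J : Type} [Fintype J] (A : J → Matrix (Fin m) (Fin m) k) (h : J → C → C) :
    (C → C → Fin m → k) →ₗ[k] (C → C → Fin m → k) where
  toFun φ := fun x y => ∑ j, A j *ᵥ φ (h j x) (h j y)
  map_add' φ ψ := by
    funext x y
    simp [Matrix.mulVec_add, Finset.sum_add_distrib]
  map_smul' a φ := by
    funext x y
    simp [Matrix.mulVec_smul, Finset.smul_sum]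

lemma op_apply {J : Type} [Fintype J] (A : J → Matrix (Fin m) (Fin m) k) (h : J → C → C)
    (φ : C → C → Fin m → k) (x y : C) : op A h φ x y = ∑ j, A j *ᵥ φ (h j x) (h j y) := rfl

lemma IsCoc.op {J : Type} [Fintype J] (A : J → Matrix (Fin m) (Fin m) k) (h : J → C → C)
    {φ : C → C → Fin m → k} (hφ : IsCoc φ) : IsCoc (op A h φ) := by
  refine IsCoc.sum Finset.univ fun j _ => ?_
  exact (hφ.comp (h j)).map
    (AddMonoidHom.mk' (fun w => A j *ᵥ w) fun a b => Matrix.mulVec_add _ _ _)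

variable {T : Type} [Group T] [MulAction T C] {Γ : Subgroup T} {E : Type} (L : Lev Γ E)
  {ζ : T} {o q : C} (hT : IsTree T C ζ o q)

/-- The matrix of the evaluation at `(x, y)` of symbols in coordinates. -/
def evM [DecidableEq E] (ρ : Γ →* Matrix (Fin m) (Fin m) k) (x y : C) :
    Matrix (Fin m) (E × Fin m) k :=
  Matrix.of fun i z => (hT.X x y).sum fun g a =>
    if L.cls g = z.1 then (a : k) * ρ (L.γ g) i z.2 else 0

lemma evM_mulVec [DecidableEq E] [Fintype E] {ρ : Γ →* Matrix (Fin m) (Fin m) k}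
    {φ : C → C → Fin m → k} (h : φ ∈ Symb C ρ) (x y : C) :
    evM L hT ρ x y *ᵥ (fun z => φ (L.r z.1 • o) (L.r z.1 • q) z.2) = φ x y := by
  funext i
  rw [value L hT h x y]
  simp only [Matrix.mulVec, dotProduct, evM, Matrix.of_apply, Finsupp.sum, Finset.sum_apply,
    Pi.smul_apply, Finset.sum_mul]
  rw [Finset.sum_comm]
  refine Finset.sum_congr rfl fun g _ => ?_
  rw [Fintype.sum_prod_type, Finset.sum_eq_single (L.cls g)]
  · simp only [if_true, zsmul_eq_mul, Finset.mul_sum]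
    exact Finset.sum_congr rfl fun j _ => by ring
  · intro e _ he
    simp [he.symm]
  · simp

variable {E' : Type} {Γ' : Subgroup T} (L' : Lev Γ' E')

/-- The matrix in coordinates of the operator `op A h`. -/
def opM [DecidableEq E] {J : Type} [Fintype J] (ρ : Γ →* Matrix (Fin m) (Fin m) k)
    (A : J → Matrix (Fin m) (Fin m) k) (h : J → C → C) : Matrix (E' × Fin m) (E × Fin m) k :=
  Matrix.of fun z w => ∑ j, (A j * evM L hT ρ (h j (L'.r z.1 • o)) (h j (L'.r z.1 • q))) z.2 w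

lemma opM_mulVec [DecidableEq E] [Fintype E] {J : Type} [Fintype J]
    {ρ : Γ →* Matrix (Fin m) (Fin m) k} (A : J → Matrix (Fin m) (Fin m) k) (h : J → C → C)
    {φ : C → C → Fin m → k} (hφ : φ ∈ Symb C ρ) (z : E' × Fin m) :
    (opM L hT L' ρ A h *ᵥ fun w => φ (L.r w.1 • o) (L.r w.1 • q) w.2) z =
      op A h φ (L'.r z.1 • o) (L'.r z.1 • q) z.2 := by
  have key : ∀ j, (A j *ᵥ φ (h j (L'.r z.1 • o)) (h j (L'.r z.1 • q))) z.2 =
      ∑ w, (A j * evM L hT ρ (h j (L'.r z.1 • o)) (h j (L'.r z.1 • q))) z.2 w *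
        φ (L.r w.1 • o) (L.r w.1 • q) w.2 := by
    intro j
    rw [← evM_mulVec L hT hφ (h j (L'.r z.1 • o)) (h j (L'.r z.1 • q)), Matrix.mulVec_mulVec]
    rfl
  rw [op_apply, Finset.sum_apply]
  simp only [key]
  rw [Finset.sum_comm]
  simp only [Matrix.mulVec, dotProduct, opM, Matrix.of_apply, Finset.sum_mul]

end Op

end Gouvea.PS
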