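import Pool.Agent.Work.MP_d3517d_nt.PS.Defs
import Pool.Agent.Work.MP_d3517d_nt.P5.Defs

/-!
# The symbols of level `4 ∣ M` are the case `N = 4` of `P5/Defs` (MP_d3517d_nt)

* `eS : S4 ≃* SN 4`, `eC : Cusp ≃ PX.Cusp 4`;
* `pull : (PX.Cusp 4 → PX.Cusp 4 → V) ≃ₗ (Cusp → Cusp → V)`;
* `symX : PX.Sym k 4 M n ≃ₗ[k] Sym k M n`, compatible with `act` and `hecke`.
-/

open Polynomial Finset Matrix

noncomputable section

namespace Gouvea.PS

lemma odd_iff {a : ℤ} : Odd a ↔ IsCoprime a ((4 : ℕ) : ℤ) := by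
  have h4 : ((4 : ℕ) : ℤ) = 2 ^ 2 := by norm_num
  rw [h4, IsCoprime.pow_right_iff (by norm_num), isCoprime_comm,
    Int.prime_two.coprime_iff_not_dvd, ← Int.not_even_iff_odd, even_iff_two_dvd]

lemma odd_ne_zero_X {a : ℤ} (ha : Odd a) : a ≠ 0 := by
  rintro rfl
  exact absurd ha (by decide)

/-- the monoid `S4` is `SN 4` -/
def eS : S4 ≃* PX.SN 4 where
  toFun g := ⟨g.1, g.2.1, odd_iff.1 g.2.2.1, g.2.2.2⟩
  invFun g := ⟨g.1, g.2.1, odd_iff.2 g.2.2.1, g.2.2.2⟩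
  left_inv _ := rfl
  right_inv _ := rfl
  map_mul' _ _ := rfl

@[simp] lemma eS_coe (g : S4) : (eS g).1 = g.1 := rfl

@[simp] lemma eS_symm_coe (g : PX.SN 4) : (eS.symm g).1 = g.1 := rfl

/-- the cusps -/
def eC : Cusp ≃ PX.Cusp 4 where
  toFun := Quotient.map (fun x : PreCusp =>
    (⟨x.u, x.v, odd_iff.1 x.hu, x.hv, Or.inl (odd_ne_zero_X x.hu)⟩ : PX.PreCusp 4)) (fun _ _ h => h)
  invFun := Quotient.map (fun x : PX.PreCusp 4 => (⟨x.u, x.v, odd_iff.2 x.hu, x.hv⟩ : PreCusp))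
    (fun _ _ h => h)
  left_inv x := Quotient.inductionOn x fun _ => rfl
  right_inv x := Quotient.inductionOn x fun _ => rfl

lemma eC_inf : eC inf = PX.inf 4 := rfl

lemma eC_smul (g : S4) (x : Cusp) : eC (g • x) = eS g • eC x :=
  Quotient.inductionOn x fun _ => rfl

lemma eC_symm_smul (g : PX.SN 4) (x : PX.Cusp 4) : eC.symm (g • x) = eS.symm g • eC.symm x :=
  Quotient.inductionOn x fun _ => rfl

section

variable (k : Type) [CommRing k] (n : ℕ)

/-- functions on pairs of cusps -/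
def pull : (PX.Cusp 4 → PX.Cusp 4 → Fin (n + 1) → k) ≃ₗ[k] (Cusp → Cusp → Fin (n + 1) → k) where
  toFun φ x y := φ (eC x) (eC y)
  invFun φ x y := φ (eC.symm x) (eC.symm y)
  left_inv φ := by funext x y; simp
  right_inv φ := by funext x y; simp
  map_add' _ _ := rfl
  map_smul' _ _ := rfl

variable {k n}

lemma pull_apply (φ : PX.Cusp 4 → PX.Cusp 4 → Fin (n + 1) → k) (x y : Cusp) :
    pull k n φ x y = φ (eC x) (eC y) := rfl

lemma act_pull (g : S4) (φ : PX.Cusp 4 → PX.Cusp 4 → Fin (n + 1) → k) :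
    act k n g (pull k n φ) = pull k n (PX.act k 4 n (eS g) φ) := by
  funext x y
  rw [act_apply, pull_apply, pull_apply, PX.act_apply, eC_smul, eC_smul]
  rfl

lemma isG0_eS {M : ℕ} {g : S4} : PX.IsG0 M (eS g) ↔ IsG0 M g := Iff.rfl

lemma pull_mem {M : ℕ} (φ : PX.Cusp 4 → PX.Cusp 4 → Fin (n + 1) → k) :
    pull k n φ ∈ Sym k M n ↔ φ ∈ PX.Sym k 4 M n := by
  constructor
  · rintro ⟨h1, h2⟩
    refine ⟨fun x y z => ?_, fun g hg => ?_⟩
    · have := h1 (eC.symm x) (eC.symm y) (eC.symm z)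
      simpa [pull_apply] using this
    · have h3 := h2 (eS.symm g) hg
      rw [act_pull, MulEquiv.apply_symm_apply] at h3
      exact (pull k n).injective h3
  · rintro ⟨h1, h2⟩
    refine ⟨fun x y z => h1 _ _ _, fun g hg => ?_⟩
    rw [act_pull, h2 (eS g) hg]

lemma eS_upS (a b d : ℤ) : eS (upS a b d) = PX.upS 4 a b d := by
  apply Subtype.ext
  by_cases h : Odd a ∧ d ≠ 0
  · rw [eS_coe, upS_coe h.1 h.2, PX.upS_coe (odd_iff.1 h.1) (mul_ne_zero (odd_ne_zero_X h.1) h.2)]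
  · have h' : ¬ (IsCoprime a ((4 : ℕ) : ℤ) ∧ a * d ≠ 0) := by
      rintro ⟨h1, h2⟩
      exact h ⟨odd_iff.2 h1, right_ne_zero_of_mul h2⟩
    rw [eS_coe]
    unfold upS PX.upS
    rw [dif_neg h, dif_neg h']
    rfl

lemma hecke_pull (M l : ℕ) (φ : PX.Cusp 4 → PX.Cusp 4 → Fin (n + 1) → k) :
    hecke k M n l (pull k n φ) = pull k n (PX.hecke k 4 M n l φ) := by
  unfold hecke PX.hecke
  rw [LinearMap.add_apply, LinearMap.add_apply, map_add, LinearMap.sum_apply,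
    LinearMap.sum_apply, map_sum]
  congr 1
  · refine Finset.sum_congr rfl fun b _ => ?_
    rw [act_pull, eS_upS]
  · split_ifs
    · simp
    · rw [act_pull, eS_upS]

variable (k n)

/-- **The symbols of level `4 ∣ M` of `PS/Defs` and of `P5/Defs`.** -/
def symX (M : ℕ) : PX.Sym k 4 M n ≃ₗ[k] Sym k M n :=
  (pull k n).submoduleMap (PX.Sym k 4 M n) |>.trans (LinearEquiv.ofEq _ _ (by
    ext φ
    rw [Submodule.mem_map]
    constructor
    · rintro ⟨ψ, h1, rfl⟩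
      exact (pull_mem ψ).2 h1
    · intro h
      refine ⟨(pull k n).symm φ, ?_, (pull k n).apply_symm_apply φ⟩
      rw [← pull_mem, LinearEquiv.apply_symm_apply]
      exact h))

variable {k n}

@[simp] lemma symX_coe (M : ℕ) (φ : PX.Sym k 4 M n) : (symX k n M φ).1 = pull k n φ.1 := rfl

lemma hecke_symX (M l : ℕ) (φ : PX.Sym k 4 M n) :
    hecke k M n l (symX k n M φ).1 = pull k n (PX.hecke k 4 M n l φ.1) :=
  hecke_pull M l φ.1

end

end Gouvea.PS
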