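import Pool.Agent.Work.MP_d3517d_nt.PS.Ops2
import Pool.Agent.Work.MP_d3517d_nt.PS.Shapes

/-!
# The edges data of the doubled symbols (MP_d3517d_nt, partial symbols)

`b = true` is the plus copy, `b = false` the minus copy.  The row `b` of `U` depends on the copy
`!b`.
-/

open Finset Matrix

noncomputable section

namespace Gouvea.PS

/-- the matrices in the row `b` of `U` -/
def UA (M p : ℕ) (b : Bool) (j : Fin p) : Matrix (Fin 2) (Fin 2) ℤ :=
  match b with
  | true => ss * (kau M p (some j)).1 * ss * et p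
  | false => (kap M p (some j)).1 * et p

/-- the points in the row `b` of `U` -/
def Uh (M p : ℕ) (b : Bool) (j : Fin p) : S4 :=
  match b with
  | true => dr p * kau M p (some j) * dl p
  | false => kap M p (some j)

/-- the representations of the two copies -/
def rho2 (k : Type) [CommRing k] (M p n : ℕ) [NeZero p] (b : Bool) :
    G0 (M * p) →* Matrix (Fin (n + 1)) (Fin (n + 1)) k :=
  match b with
  | true => rho k (M * p) n
  | false => rhoT k M p n

section

variable {k : Type} [CommRing k] {M p n : ℕ} [NeZero p]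

omit [NeZero p] in
@[simp] lemma UA_true (j : Fin p) : UA M p true j = ss * (kau M p (some j)).1 * ss * et p := rfl

omit [NeZero p] in
@[simp] lemma UA_false (j : Fin p) : UA M p false j = (kap M p (some j)).1 * et p := rfl

omit [NeZero p] in
@[simp] lemma Uh_true (j : Fin p) : Uh M p true j = dr p * kau M p (some j) * dl p := rfl

omit [NeZero p] in
@[simp] lemma Uh_false (j : Fin p) : Uh M p false j = kap M p (some j) := rfl

@[simp] lemma rho2_true : rho2 k M p n true = rho k (M * p) n := rfl

@[simp] lemma rho2_false : rho2 k M p n false = rhoT k M p n := rfl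

end

variable {p : ℕ} [Fact p.Prime] [NeZero p]

/-- the matrices of the representations of the two copies -/
def c2 (M p : ℕ) [Fact p.Prime] (b : Bool) (g : G0 (M * p)) : Matrix (Fin 2) (Fin 2) ℤ_[p] :=
  match b with
  | true => zp p (mt (g : G4)⁻¹)
  | false => zp p (ce p (mt (g : G4)⁻¹))

lemma rho2_eq (M n : ℕ) (b : Bool) (g : G0 (M * p)) :
    rho2 ℤ_[p] M p n b g = slM n (c2 M p b g) := by
  cases b <;> rfl

omit [NeZero p] in
lemma isUp_c2 {M : ℕ} (b : Bool) (g : G0 (M * p)) : IsUp (c2 M p b g) := by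
  cases b
  · exact isUp_G0' g.2 _ rfl
  · exact isUp_G0 g.2

omit [NeZero p] in
lemma isGm_UA {M : ℕ} (hM : 4 ∣ M) (hpM : ¬ p ∣ M) (b : Bool) (j : Fin p) :
    IsGm (zp p (UA M p b j)) := by
  cases b
  · exact isGm_kap hM hpM j
  · exact isGm_kau hM j

/-- **The edges data of the doubled symbols.** -/
theorem exists_gam2 {M : ℕ} [NeZero (M * p)] (hM : 4 ∣ M) (hpM : ¬ p ∣ M) :
    ∃ D : Gam p (Vx (M * p) × Bool), ∀ n, Um D n = bag fun b =>
      opM (lev0 (M * p)) isTree (lev0 (M * p)) (rho2 ℤ_[p] M p n (!b))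
        (fun j : Fin p => slk n ((UA M p b j).map (Int.cast : ℤ → ℤ_[p])))
        (fun j x => Uh M p b j • x) := by
  refine exists_gam_op (lev0 (M * p)) isTree (fun _ => Fin p) (c2 M p)
    (fun b n => rho2 ℤ_[p] M p n b) (fun b n g => rho2_eq M n b g)
    (fun b j => zp p (UA M p b j)) (fun b j x => Uh M p b j • x)
    (fun b j g => ?_) (fun b j g => ?_) (fun b j g => ?_)
  · exact ((isUp_c2 (!b) g).mul_gm (isGm_UA hM hpM b j)).1
  · exact ((isUp_c2 (!b) g).mul_gm (isGm_UA hM hpM b j)).2.1
  · exact ((isUp_c2 (!b) g).mul_gm (isGm_UA hM hpM b j)).2.2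

end Gouvea.PS
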