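import Pool.Agent.Work.MP_d3517d_nt.PS.Tree

/-!
# The levels `Γ₀(M)` (MP_d3517d_nt, partial symbols)

* `G0 M` : `Γ₀(M)` as a subgroup of `G4 = Γ₀(4)`;
* `rho k M n` : the representation `g ↦ slk n g⁻¹` of `G0 M`, and `Sym_eq`:
  `Sym k M n` is the space of `rho`-equivariant symbols.
-/

open Polynomial Finset Matrix

noncomputable section

namespace Gouvea.PS

lemma mt_mul_apply (g h : G4) (i j : Fin 2) :
    mt (g * h) i j = mt g i 0 * mt h 0 j + mt g i 1 * mt h 1 j := by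
  rw [mt_mul, Matrix.mul_apply, Fin.sum_univ_two]

lemma mt_inv (g : G4) : mt g⁻¹ = !![mt g 1 1, -mt g 0 1; -mt g 1 0, mt g 0 0] := by
  have h : mt g⁻¹ = adjugate (mt g) := rfl
  rw [h, Matrix.adjugate_fin_two]

lemma mt_inv_10 (g : G4) : mt g⁻¹ 1 0 = -mt g 1 0 := by
  rw [mt_inv]; rfl

lemma mt_inv_01 (g : G4) : mt g⁻¹ 0 1 = -mt g 0 1 := by
  rw [mt_inv]; rfl

/-- `Γ₀(M)` in `Γ₀(4)` -/
def G0 (M : ℕ) : Subgroup G4 :=
  (CongruenceSubgroup.Gamma0 M).subgroupOf (CongruenceSubgroup.Gamma0 4)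

lemma mem_G0 {M : ℕ} {g : G4} : g ∈ G0 M ↔ (M : ℤ) ∣ mt g 1 0 := by
  rw [G0, Subgroup.mem_subgroupOf, CongruenceSubgroup.Gamma0_mem]
  exact ZMod.intCast_zmod_eq_zero_iff_dvd _ M

lemma det_mt (g : G4) : (mt g).det = 1 := by
  rw [det_fin_two, mt_det]

lemma isG0_iff {M : ℕ} {g : G4} : IsG0 M (toS g) ↔ g ∈ G0 M := by
  rw [mem_G0]
  exact ⟨fun h => h.2, fun h => ⟨det_mt g, h⟩⟩

lemma exists_toS' {M : ℕ} {g : S4} (h : IsG0 M g) : ∃ u ∈ G0 M, toS u = g := by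
  obtain ⟨u, rfl⟩ := exists_toS (g := g) ⟨h.1, g.2.2.2⟩
  exact ⟨u, isG0_iff.1 h, rfl⟩

lemma ng_mem_G0 (M : ℕ) : ng ∈ G0 M := by
  rw [mem_G0, mt_ng]
  simp

lemma G0_le {M N : ℕ} (h : M ∣ N) : G0 N ≤ G0 M := by
  intro g hg
  rw [mem_G0] at hg ⊢
  exact dvd_trans (by exact_mod_cast h) hg

section Rho

variable (k : Type) [CommRing k]

lemma mt_one_map : (mt 1).map (Int.cast : ℤ → k) = 1 := by
  rw [mt_one]
  simp [Matrix.map_one]

/-- The representation `g ↦ slk n g⁻¹`. -/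
def rho0 (n : ℕ) : G4 →* Matrix (Fin (n + 1)) (Fin (n + 1)) k where
  toFun g := slk n ((mt g⁻¹).map (Int.cast : ℤ → k))
  map_one' := by
    rw [inv_one, mt_one_map, slk_one]
  map_mul' g h := by
    rw [_root_.mul_inv_rev, mt_mul, map_cast_mul, slk_mul]

/-- The restriction to `Γ₀(M)`. -/
def rho (M n : ℕ) : G0 M →* Matrix (Fin (n + 1)) (Fin (n + 1)) k :=
  (rho0 k n).comp (G0 M).subtype

lemma rho_apply (M n : ℕ) (g : G0 M) :
    rho k M n g = slk n ((mt (g : G4)⁻¹).map (Int.cast : ℤ → k)) := rfl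

lemma neg_one_map : ((-1 : Matrix (Fin 2) (Fin 2) ℤ)).map (Int.cast : ℤ → k) = -1 := by
  ext i j
  fin_cases i <;> fin_cases j <;> simp

lemma ng_inv : ng⁻¹ = ng := by
  rw [inv_eq_iff_mul_eq_one, ng_ng]

lemma rho_ng (M : ℕ) {n : ℕ} (hn : Even n) :
    ∃ h : ng ∈ G0 M, rho k M n ⟨ng, h⟩ = 1 := by
  refine ⟨ng_mem_G0 M, ?_⟩
  rw [rho_apply]
  change slk n ((mt ng⁻¹).map (Int.cast : ℤ → k)) = 1
  rw [ng_inv, mt_ng, neg_one_map, slk_neg n hn, slk_one]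

theorem Sym_eq (M n : ℕ) : Sym k M n = Symb Cusp (rho k M n) := by
  ext φ
  rw [mem_Symb]
  constructor
  · rintro ⟨h1, h2⟩
    refine ⟨h1, fun g x y => ?_⟩
    have h3 := congrFun (congrFun (h2 (toS (g : G4)) (isG0_iff.2 g.2)) x) y
    rw [act_apply, toS_coe] at h3
    rw [← h3, Matrix.mulVec_mulVec, rho_apply, ← slk_mul, ← map_cast_mul, ← mt_mul,
      mul_inv_cancel, mt_one_map, slk_one, Matrix.one_mulVec]
    rfl
  · rintro ⟨h1, h2⟩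
    refine ⟨h1, fun g hg => ?_⟩
    obtain ⟨u, hu, rfl⟩ := exists_toS' hg
    funext x y
    have h3 := h2 ⟨u, hu⟩ x y
    rw [act_apply]
    change (slk n _).mulVec (φ (u • x) (u • y)) = _
    rw [h3, Matrix.mulVec_mulVec, rho_apply, toS_coe, ← slk_mul, ← map_cast_mul, ← mt_mul,
      inv_mul_cancel, mt_one_map, slk_one, Matrix.one_mulVec]

end Rho

end Gouvea.PS
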