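import Pool.Agent.Work.MP_d3517d_nt.PS.Inst

/-!
# The classes `Γ₀(M) \ Γ₀(4)` (MP_d3517d_nt, partial symbols)
-/

open Finset Matrix

noncomputable section

namespace Gouvea.PS

/-- `Γ₀(M) \ Γ₀(4)` -/
def Vx (M : ℕ) : Type := Quotient (QuotientGroup.rightRel (G0 M))

/-- the class of `g` -/
def vx (M : ℕ) (g : G4) : Vx M := Quotient.mk _ g

/-- chosen representatives -/
def rp (M : ℕ) (v : Vx M) : G4 := Quotient.out v

lemma vx_eq {M : ℕ} {g h : G4} : vx M g = vx M h ↔ h * g⁻¹ ∈ G0 M := by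
  constructor
  · intro h1
    exact QuotientGroup.rightRel_apply.1 (Quotient.exact h1)
  · intro h1
    exact Quotient.sound (s := QuotientGroup.rightRel (G0 M)) (QuotientGroup.rightRel_apply.2 h1)

@[simp] lemma vx_rp {M : ℕ} (v : Vx M) : vx M (rp M v) = v := Quotient.out_eq v

lemma rp_mem {M : ℕ} (g : G4) : g * (rp M (vx M g))⁻¹ ∈ G0 M := by
  rw [← vx_eq, vx_rp]

instance (M : ℕ) [NeZero M] : (G0 M).FiniteIndex := by
  unfold G0
  infer_instance

instance (M : ℕ) [NeZero M] : Finite (Vx M) := by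
  have : Finite (G4 ⧸ G0 M) := inferInstance
  exact Finite.of_equiv _ (QuotientGroup.quotientRightRelEquivQuotientLeftRel (G0 M)).symm

instance (M : ℕ) [NeZero M] : Fintype (Vx M) := Fintype.ofFinite _

instance (M : ℕ) : DecidableEq (Vx M) := Classical.decEq _

/-- the level `Γ₀(M)` -/
def lev0 (M : ℕ) : Lev (G0 M) (Vx M) where
  r := rp M
  cls := vx M
  mem g := rp_mem g
  cls_mul γ hγ g := by
    rw [vx_eq]
    simpa using (G0 M).inv_mem hγ
  cls_r v := vx_rp v

end Gouvea.PS
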