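import Pool.Agent.Work.MP_d3517d_nt.PS.Inst

/-!
# Systems of representatives of `Γ \ S`, `S ⊆ S4` (MP_d3517d_nt, partial symbols)
-/

open Finset Matrix

noncomputable section

namespace Gouvea.PS

/-- The family `g` is a system of representatives of `Γ \ S`. -/
structure IsRep (Γ : Subgroup G4) (S : Set S4) {J : Type} (g : J → S4) : Prop where
  mem : ∀ j, g j ∈ S
  ex : ∀ x ∈ S, ∃ j, ∃ γ ∈ Γ, x = toS γ * g j
  uniq : ∀ j j', ∀ γ ∈ Γ, toS γ * g j = g j' → j = j'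

/-- `Γ₀(M)` as a subset of `S4`. -/
def G0S (M : ℕ) : Set S4 := {g | IsG0 M g}

/-- `Γ₀(M) ∩ Γ⁰(p)` -/
def G0u (M p : ℕ) : Subgroup G4 where
  carrier := {g | (M : ℤ) ∣ mt g 1 0 ∧ (p : ℤ) ∣ mt g 0 1}
  one_mem' := by simp [mt_one]
  mul_mem' := by
    rintro g h ⟨g1, g2⟩ ⟨h1, h2⟩
    simp only [Set.mem_ofPred_eq]
    rw [mt_mul_apply, mt_mul_apply]
    exact ⟨dvd_add (g1.mul_right _) (h1.mul_left _), dvd_add (h2.mul_left _) (g2.mul_right _)⟩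
  inv_mem' := by
    rintro g ⟨g1, g2⟩
    simp only [Set.mem_ofPred_eq]
    rw [mt_inv_10, mt_inv_01]
    exact ⟨(dvd_neg).2 g1, (dvd_neg).2 g2⟩

lemma toS_inv_mul (γ : G4) (x : S4) : toS γ⁻¹ * (toS γ * x) = x := by
  rw [← mul_assoc, ← map_mul, inv_mul_cancel, map_one, one_mul]

lemma toS_mul_inv (γ : G4) (x : S4) : toS γ * (toS γ⁻¹ * x) = x := by
  rw [← mul_assoc, ← map_mul, mul_inv_cancel, map_one, one_mul]

namespace IsRep

variable {Γ : Subgroup G4} {S : Set S4} {J J' : Type} {g : J → S4} {g' : J' → S4}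

/-- Sums over `Γ \ S` do not depend on the representatives. -/
theorem sum_eq [Fintype J] [Fintype J'] (h : IsRep Γ S g) (h' : IsRep Γ S g') {W : Type*}
    [AddCommMonoid W] (F : S4 → W) (hF : ∀ γ ∈ Γ, ∀ x ∈ S, F (toS γ * x) = F x) :
    ∑ j, F (g j) = ∑ j, F (g' j) := by
  choose f γ hγ hf using fun j => h'.ex (g j) (h.mem j)
  choose f' γ' hγ' hf' using fun j => h.ex (g' j) (h'.mem j)
  have h1 : ∀ j, f' (f j) = j := by
    intro j
    apply h.uniq _ _ (γ j * γ' (f j)) (Γ.mul_mem (hγ j) (hγ' _))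
    rw [map_mul, mul_assoc, ← hf', ← hf]
  have h2 : ∀ j, f (f' j) = j := by
    intro j
    apply h'.uniq _ _ (γ' j * γ (f' j)) (Γ.mul_mem (hγ' j) (hγ _))
    rw [map_mul, mul_assoc, ← hf, ← hf']
  let e : J ≃ J' := ⟨f, f', h1, h2⟩
  rw [← e.sum_comp]
  refine Finset.sum_congr rfl fun j _ => ?_
  conv_lhs => rw [hf j]
  exact hF _ (hγ j) _ (h'.mem _)

/-- Reindexing. -/
theorem comp_equiv (h : IsRep Γ S g) (e : J' ≃ J) : IsRep Γ S (g ∘ e) where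
  mem j := h.mem _
  ex x hx := by
    obtain ⟨j, γ, hγ, hj⟩ := h.ex x hx
    exact ⟨e.symm j, γ, hγ, by simpa using hj⟩
  uniq j j' γ hγ hj := e.injective (h.uniq _ _ γ hγ hj)

/-- If `k` are representatives of `Γ' \ Γ` and `g` of `Γ \ S`, then `k_i g_j` are representatives
of `Γ' \ S`. -/
theorem mul_left {Γ' : Subgroup G4} (hΓ : Γ' ≤ Γ) {I : Type} {k : I → G4}
    (hk : IsRep Γ' {x | ∃ γ ∈ Γ, toS γ = x} fun i => toS (k i)) (h : IsRep Γ S g)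
    (hS : ∀ γ ∈ Γ, ∀ x ∈ S, toS γ * x ∈ S)
    (hinj : ∀ x ∈ S, ∀ u v : G4, toS u * x = toS v * x → u = v) :
    IsRep Γ' S fun z : I × J => toS (k z.1) * g z.2 where
  mem z := by
    obtain ⟨γ, hγ, h1⟩ := hk.mem z.1
    rw [← h1]
    exact hS γ hγ _ (h.mem _)
  ex x hx := by
    obtain ⟨j, γ, hγ, hj⟩ := h.ex x hx
    obtain ⟨i, u, hu, hi⟩ := hk.ex (toS γ) ⟨γ, hγ, rfl⟩
    exact ⟨(i, j), u, hu, by rw [← mul_assoc, ← hi, hj]⟩
  uniq := by
    rintro ⟨i, j⟩ ⟨i', j'⟩ u hu h1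
    simp only at h1
    obtain ⟨γ, hγ, h2⟩ := hk.mem i
    obtain ⟨γ', hγ', h2'⟩ := hk.mem i'
    have h3 : j = j' := by
      apply h.uniq _ _ (γ'⁻¹ * (u * γ))
        (Γ.mul_mem (Γ.inv_mem hγ') (Γ.mul_mem (hΓ hu) hγ))
      rw [map_mul, map_mul, mul_assoc, mul_assoc, h2, h1, ← h2', toS_inv_mul]
    subst h3
    have h4 : i = i' := by
      apply hk.uniq _ _ u hu
      rw [← map_mul]
      congr 1
      apply hinj (g j) (h.mem j)
      rw [map_mul, mul_assoc, h1]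
    rw [h4]

end IsRep

end Gouvea.PS
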