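import Pool.Agent.Work.MP_d3517d_nt.PS.Block

/-!
# The spectrum of a swap (MP_d3517d_nt, partial symbols)

The eigenvalues of `(0 T; T 0)` are those of `T` and their negatives.
-/

open Finset Matrix Polynomial

noncomputable section

namespace Gouvea.PS

section General

variable {R : Type} [CommRing R] {ι : Type} [Fintype ι] [DecidableEq ι]

lemma charpoly_neg (T : Matrix ι ι R) :
    (-T).charpoly = (-1) ^ Fintype.card ι * T.charpoly.comp (-X) := by
  have h : (-T).charmatrix = -(T.charmatrix.map (compRingHom (-X : R[X]))) := by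
    refine Matrix.ext fun i j => ?_
    by_cases hij : i = j
    · subst hij
      simp [Matrix.charmatrix_apply_eq]
      ring
    · simp [Matrix.charmatrix_apply_ne _ _ _ hij]
  have h2 : (T.charmatrix.map (compRingHom (-X : R[X]))).det = T.charpoly.comp (-X) := by
    rw [← RingHom.mapMatrix_apply, ← RingHom.map_det]
    rfl
  rw [Matrix.charpoly, h, Matrix.det_neg, h2]

lemma charpoly_swap (T : Matrix ι ι R) :
    (Matrix.fromBlocks 0 T T 0).charpoly = T.charpoly * (-T).charpoly := by
  have h1 : (Matrix.fromBlocks 0 T T 0).charmatrix =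
      Matrix.fromBlocks (Matrix.charmatrix 0) (-T.map C) (-T.map C) (Matrix.charmatrix 0) :=
    Matrix.charmatrix_fromBlocks _ _ _ _
  have h2 : (-T).charmatrix = Matrix.charmatrix 0 + T.map C := by
    refine Matrix.ext fun i j => ?_
    by_cases hij : i = j
    · subst hij
      simp [Matrix.charmatrix_apply_eq]
    · simp [Matrix.charmatrix_apply_ne _ _ _ hij, Matrix.diagonal_apply_ne _ hij]
  have h3 : T.charmatrix = Matrix.charmatrix 0 - T.map C := by
    refine Matrix.ext fun i j => ?_
    by_cases hij : i = j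
    · subst hij
      simp [Matrix.charmatrix_apply_eq]
    · simp [Matrix.charmatrix_apply_ne _ _ _ hij, Matrix.diagonal_apply_ne _ hij]
  have key : Matrix.fromBlocks 1 1 0 1 *
      (Matrix.fromBlocks 0 T T 0).charmatrix * Matrix.fromBlocks 1 (-1) 0 1 =
      Matrix.fromBlocks T.charmatrix 0 (-T.map C) (-T).charmatrix := by
    rw [h1, h2, h3, Matrix.fromBlocks_multiply, Matrix.fromBlocks_multiply]
    simp only [Matrix.one_mul, Matrix.zero_mul, Matrix.mul_one, Matrix.mul_zero, add_zero,
      zero_add, Matrix.mul_neg]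
    congr 1 <;> abel
  have hd := congrArg Matrix.det key
  rw [Matrix.det_mul, Matrix.det_mul, Matrix.det_fromBlocks_zero₂₁, Matrix.det_fromBlocks_zero₂₁,
    Matrix.det_fromBlocks_zero₁₂, Matrix.det_one, one_mul, one_mul, mul_one] at hd
  exact hd

lemma charpoly_bag {V κ : Type} [Fintype V] [DecidableEq V] [Fintype κ] [DecidableEq κ]
    (T : Matrix (V × κ) (V × κ) R) :
    (bag fun _ => T).charpoly = T.charpoly * (-T).charpoly := by
  let e : (V × κ) ⊕ (V × κ) ≃ (V × Bool) × κ :=
    { toFun := Sum.elim (fun x => ((x.1, true), x.2)) (fun x => ((x.1, false), x.2))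
      invFun := fun x => if x.1.2 then Sum.inl (x.1.1, x.2) else Sum.inr (x.1.1, x.2)
      left_inv := by rintro (x | x) <;> simp
      right_inv := by rintro ⟨⟨v, b⟩, i⟩; cases b <;> simp }
  have h : (bag fun _ => T) = Matrix.reindex e e (Matrix.fromBlocks 0 T T 0) := by
    refine Matrix.ext fun x y => ?_
    obtain ⟨⟨v, b⟩, i⟩ := x
    obtain ⟨⟨v', b'⟩, i'⟩ := y
    rw [bag_apply]
    cases b <;> cases b' <;> simp [e]
  rw [h, Matrix.charpoly_reindex, charpoly_swap]

end General

variable {p : ℕ} [Fact p.Prime]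

lemma specM_neg {ι : Type} [Fintype ι] [DecidableEq ι] (T : Matrix ι ι ℚ_[p]) :
    specM (-T) = (specM T).map fun l => -l := by
  have h : (-T).charpoly.map (algebraMap ℚ_[p] (PadicAlgCl p)) =
      C ((-1) ^ Fintype.card ι) * ((T.charpoly.map (algebraMap ℚ_[p] (PadicAlgCl p))).comp
        (-X)) := by
    rw [charpoly_neg, Polynomial.map_mul, Polynomial.map_comp]
    simp
  rw [specM, specM, h, Polynomial.roots_C_mul, Polynomial.roots_comp_neg_X]
  exact pow_ne_zero _ (neg_ne_zero.2 one_ne_zero)

/-- **The spectrum of a swap.** -/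
lemma specM_bag {V κ : Type} [Fintype V] [DecidableEq V] [Fintype κ] [DecidableEq κ]
    (T : Matrix (V × κ) (V × κ) ℚ_[p]) :
    specM (bag fun _ => T) = specM T + (specM T).map fun l => -l := by
  rw [← specM_neg, specM, charpoly_bag, Polynomial.map_mul, Polynomial.roots_mul]
  · rfl
  · exact mul_ne_zero (((Matrix.charpoly_monic _).map _).ne_zero)
      (((Matrix.charpoly_monic _).map _).ne_zero)

lemma Gf_bag {V κ : Type} [Fintype V] [DecidableEq V] [Fintype κ] [DecidableEq κ]
    (T : Matrix (V × κ) (V × κ) ℚ_[p]) (x : ℝ) : Gf (bag fun _ => T) x = 2 * Gf T x := by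
  rw [Gf, specM_bag, Multiset.map_add, Multiset.map_map, Multiset.sum_add]
  simp only [Function.comp_def, norm_neg]
  rw [Gf]
  ring

lemma Nf_bag {V κ : Type} [Fintype V] [DecidableEq V] [Fintype κ] [DecidableEq κ]
    (T : Matrix (V × κ) (V × κ) ℚ_[p]) (x : ℝ) : Nf (bag fun _ => T) x = 2 * Nf T x := by
  classical
  rw [Nf, specM_bag, Multiset.filter_add, Multiset.card_add, Multiset.filter_map,
    Multiset.card_map]
  simp only [Function.comp_def, norm_neg]
  rw [Nf]
  ring

lemma toQ_bag {A B ι κ : Type} (T : Bool → Matrix (A × ι) (B × κ) ℤ_[p]) :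
    toQ (bag T) = bag fun b => toQ (T b) := by
  refine Matrix.ext fun x y => ?_
  change algebraMap ℤ_[p] ℚ_[p] (bag T x y) = _
  rw [bag_apply, bag_apply]
  split_ifs
  · exact map_zero _
  · rfl

lemma toQ_bdg {A B ι κ : Type} (T : Bool → Matrix (A × ι) (B × κ) ℤ_[p]) :
    toQ (bdg T) = bdg fun b => toQ (T b) := by
  refine Matrix.ext fun x y => ?_
  change algebraMap ℤ_[p] ℚ_[p] (bdg T x y) = _
  rw [bdg_apply, bdg_apply]
  split_ifs
  · rfl
  · exact map_zero _

end Gouvea.PS
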