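import Pool.Agent.Work.MP_d3517d_nt.PS.Defs
import Pool.Agent.Work.MP_d3517d_nt.HRep

/-!
# TASKS of the source package PS (nothing imports this file; statements verbatim)

`p` odd prime, `M ≠ 0`, `4 ∣ M`, `p ∤ M`.  Helper lemmas are of course free.
-/

open Polynomial Finset Matrix

noncomputable section

namespace Gouvea.PS

/-! ## PS/Tree.lean (helper22) -/

/-- (TREE) symbols with values in `W` = arbitrary functions on the edges `(g ∞, g (1/4))`. -/
theorem tree {W : Type} [AddCommGroup W] (Φ : Cusp → Cusp → W) :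
    ∃! φ : Cusp → Cusp → W, (∀ x y z, φ x y + φ y z = φ x z) ∧
      ∀ g : S4, IsG0 4 g → φ (g • inf) (g • qrt) = Φ (g • inf) (g • qrt) := sorry

/-- `Γ₀(4) / ± 1` acts freely on the edges. -/
theorem edge_inj {g h : S4} (hg : IsG0 4 g) (hh : IsG0 4 h) (h1 : g • inf = h • inf)
    (h2 : g • qrt = h • qrt) : g = h ∨ g.1 = -h.1 := sorry

/-- every pair of cusps is a finite combination of edges, universally. -/
theorem path (x y : Cusp) : ∃ (m : ℕ) (c : Fin m → ℤ) (g : Fin m → S4),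
    (∀ t, IsG0 4 (g t)) ∧ ∀ {W : Type} [AddCommGroup W] (φ : Cusp → Cusp → W),
      (∀ x y z, φ x y + φ y z = φ x z) → φ x y = ∑ t, c t • φ (g t • inf) (g t • qrt) := sorry

/-! ## PS/Rep.lean (helper15, helper24) -/

section Rep

/-- The integral matrices of determinant `l`, `M ∣ c`, `(a, M) = 1`. -/
def Del (M l : ℕ) (g : S4) : Prop :=
  g.1.det = l ∧ (M : ℤ) ∣ g.1 1 0 ∧ IsCoprime (g.1 0 0) (M : ℤ)

/-- index set and matrices of `T_l`, `U_l` -/
def Ix (M l : ℕ) : Type := Fin l ⊕ {_u : Unit // ¬ l ∣ M}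

instance (M l : ℕ) : Fintype (Ix M l) := by
  classical
  unfold Ix
  infer_instance

def bet (M l : ℕ) : Ix M l → S4 := Sum.elim (fun b => upS 1 (b : ℕ) l) (fun _ => upS l 0 1)

variable {k : Type} [CommRing k]

theorem hecke_eq (M n l : ℕ) : hecke k M n l = ∑ i : Ix M l, act k n (bet M l i) := sorry

theorem del_bet {M l : ℕ} (hl : l.Prime) (hM : 4 ∣ M) (i : Ix M l) : Del M l (bet M l i) := sorry

/-- (RL) the matrices `bet M l i` represent `Γ₀(M) \ Del M l`. -/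
theorem rep {M l : ℕ} (hl : l.Prime) (hM : 4 ∣ M) (hM0 : M ≠ 0) {g : S4} (hg : Del M l g) :
    ∃! i : Ix M l, ∃ γ : S4, IsG0 M γ ∧ g = γ * bet M l i := sorry

/-- `T_l` by any system of representatives. -/
theorem hecke_eq_sum {M l n : ℕ} (hl : l.Prime) (hM : 4 ∣ M) (hM0 : M ≠ 0)
    {φ : Cusp → Cusp → Fin (n + 1) → k} (hφ : ∀ γ, IsG0 M γ → act k n γ φ = φ)
    {ι : Type} [Fintype ι] (g : ι → S4) (hg : ∀ i, Del M l (g i))
    (hcard : Fintype.card ι = Fintype.card (Ix M l))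
    (hinj : ∀ i j γ, IsG0 M γ → g i = γ * g j → i = j) :
    ∑ i, act k n (g i) φ = hecke k M n l φ := sorry

theorem hecke_mem {M l n : ℕ} (hl : l.Prime) (hM : 4 ∣ M) (hM0 : M ≠ 0)
    {φ : Cusp → Cusp → Fin (n + 1) → k} (hφ : φ ∈ Sym k M n) :
    hecke k M n l φ ∈ Sym k M n := sorry

/-- representatives of `Γ₀(Mp) \ Γ₀(M)` -/
def kap (M p : ℕ) : Option (Fin p) → S4 := open Classical in
  fun i => match i with
  | none => 1
  | some j => if h : (4 : ℤ) ∣ M then ⟨!![1, (j : ℕ); (M : ℤ), M * (j : ℕ) + 1], by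
      refine ⟨?_, by simp, by simpa using h⟩
      rw [det_fin_two_of, show (1 : ℤ) * (M * (j : ℕ) + 1) - (j : ℕ) * M = 1 by ring]
      exact one_ne_zero⟩ else 1

theorem kap_rep {M p : ℕ} (hp : p.Prime) (hM : 4 ∣ M) (hM0 : M ≠ 0) (hpM : ¬ p ∣ M) {g : S4}
    (hg : IsG0 M g) : ∃! i, ∃ γ : S4, IsG0 (M * p) γ ∧ g = γ * kap M p i := sorry

/-- `T_p` through the level `Mp`, for every `w` with `det w = p`, `Mp ∣ c`, `p ∣ a`, `p ∣ d`
(an Atkin-Lehner matrix), in particular with `(a, M) = 1`. -/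
theorem hecke_p_eq {M p n : ℕ} (hp : p.Prime) (hM : 4 ∣ M) (hM0 : M ≠ 0) (hpM : ¬ p ∣ M)
    {φ : Cusp → Cusp → Fin (n + 1) → k} (hφ : ∀ γ, IsG0 M γ → act k n γ φ = φ)
    (w : S4) (hw : Del M p w) (hwp : ((M * p : ℕ) : ℤ) ∣ w.1 1 0) (ha : (p : ℤ) ∣ w.1 0 0)
    (hd : (p : ℤ) ∣ w.1 1 1) :
    ∑ i, act k n (w * kap M p i) φ = hecke k M n p φ := sorry

/-- the trace from level `Mp` to level `M` (any values with an action: here the plain one). -/
theorem trace_mem {M p n : ℕ} (hp : p.Prime) (hM : 4 ∣ M) (hM0 : M ≠ 0) (hpM : ¬ p ∣ M)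
    {φ : Cusp → Cusp → Fin (n + 1) → k} (hφ : φ ∈ Sym k (M * p) n) :
    ∑ i, act k n (kap M p i) φ ∈ Sym k M n := sorry

/-- the trace commutes with `T_l`, `U_l`, `l ≠ p`. -/
theorem hecke_trace {M p l n : ℕ} (hp : p.Prime) (hl : l.Prime) (hlp : l ≠ p) (hM : 4 ∣ M)
    (hM0 : M ≠ 0) (hpM : ¬ p ∣ M)
    {φ : Cusp → Cusp → Fin (n + 1) → k} (hφ : ∀ γ, IsG0 (M * p) γ → act k n γ φ = φ) :
    hecke k M n l (∑ i, act k n (kap M p i) φ) =
      ∑ i, act k n (kap M p i) (hecke k (M * p) n l φ) := sorry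

end Rep

/-! ## PS/Hecke.lean (helper36) -/

section Hecke

variable {k : Type} [CommRing k]

/-- all `T_l`, `U_l` commute on functions invariant under `(1 1; 0 1)`. -/
theorem hecke_comm {M l q n : ℕ} (hl : l.Prime) (hq : q.Prime) (hM : 4 ∣ M) (hM0 : M ≠ 0)
    {φ : Cusp → Cusp → Fin (n + 1) → k} (hφ : act k n (upS 1 1 1) φ = φ) :
    hecke k M n l (hecke k M n q φ) = hecke k M n q (hecke k M n l φ) := sorry

end Hecke

/-! ## PS/Coord.lean (helper59): the index set of the coordinates and the matrices -/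

section Coord

/-- `Γ₀(4)` in `S4` as a type, modulo `Γ₀(M)` on the left: `g ~ h` iff `h = γ g`. -/
def cosetSetoid (M : ℕ) : Setoid {g : S4 // IsG0 4 g} where
  r g h := ∃ γ : S4, IsG0 M γ ∧ IsG0 4 γ ∧ h.1 = γ * g.1
  iseqv := sorry

/-- `Γ₀(M) \ Γ₀(4)` -/
def Vx (M : ℕ) : Type := Quotient (cosetSetoid M)

instance (M : ℕ) [NeZero M] : Fintype (Vx M) := sorry

/-- chosen representatives -/
def rp (M : ℕ) (v : Vx M) : S4 := (Quotient.out v).1

variable (k : Type) [CommRing k]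

/-- the coordinates of a symbol -/
def Psi (M n : ℕ) : Sym k M n →ₗ[k] (Vx M × Fin (n + 1) → k) where
  toFun φ := fun x => φ.1 (rp M x.1 • inf) (rp M x.1 • qrt) x.2
  map_add' _ _ := rfl
  map_smul' _ _ := rfl

theorem Psi_bijective {M n : ℕ} (hM : 4 ∣ M) (hM0 : M ≠ 0) (hn : Even n) :
    Function.Bijective (Psi k M n) := sorry

variable {k}

/-- the integer matrix of `T_l`, `U_l` -/
theorem exists_Tm (M n l : ℕ) (hM : 4 ∣ M) (hM0 : M ≠ 0) (hn : Even n) (hl : l.Prime) :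
    ∃ A : Matrix (Vx M × Fin (n + 1)) (Vx M × Fin (n + 1)) ℤ,
      ∀ (k : Type) [CommRing k] (φ : Sym k M n) (h : hecke k M n l φ.1 ∈ Sym k M n),
        haveI : NeZero M := ⟨hM0⟩
        Psi k M n ⟨hecke k M n l φ.1, h⟩ =
          (A.map (Int.cast : ℤ → k)).mulVec (Psi k M n φ) := sorry

end Coord

/-! ## PS/DatOf.lean (helper59, helper12), PS/HRepOf.lean (helper74), PS/Source.lean (helper22) -/

section Source

variable {p : ℕ} [Fact p.Prime]

/-- Final theorem of the package. -/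
theorem source (hp2 : p ≠ 2) (M : ℕ) [NeZero M] (hM : 4 ∣ M) (hpM : ¬ p ∣ M) :
    ∃ (E : Type) (_ : Fintype E) (_ : DecidableEq E) (_ : DecidableEq (Vx M))
      (D : Dat p (2 * Fintype.card (Vx M)) E (Vx M × Bool))
      (H : HRep D (MvPolynomial {l : ℕ // l.Prime ∧ l ≠ p} ℤ))
      (Tm : ∀ n l : ℕ, Matrix (Vx M × Fin (n + 1)) (Vx M × Fin (n + 1)) ℤ),
      (∀ (k : Type) [CommRing k] (n l : ℕ), Even n → l.Prime → ∀ (φ : Sym k M n)
        (h : hecke k M n l φ.1 ∈ Sym k M n), Psi k M n ⟨hecke k M n l φ.1, h⟩ =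
          ((Tm n l).map (Int.cast : ℤ → k)).mulVec (Psi k M n φ)) ∧
      (∀ n, Even n → ∀ x y, (D.π n * D.W n * D.ι n) x y =
        if x.1.2 = y.1.2 then 0 else ((Tm n p (x.1.1, x.2) (y.1.1, y.2) : ℤ) : ℤ_[p])) ∧
      (∀ n hn l x y, H.TV n hn (MvPolynomial.X l) x y =
        if x.1.2 = y.1.2 then ((Tm n l.1 (x.1.1, x.2) (y.1.1, y.2) : ℤ) : ℤ_[p]) else 0) :=
  sorry

end Source

end Gouvea.PS
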